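import Pool.Agent.Lib.MP_2b5695_lc.Alg.Def

/-!
Closure properties of the polynomial time functions, I.
-/

namespace Pool.Agent.Lib.MP_2b5695_lc.Alg

variable {ι : Ty} {A : Set ι.El} {a b c d : Ty}

theorem eval_mono (p : Polynomial ℕ) {m n : ℕ} (h : m ≤ n) : p.eval m ≤ p.eval n := by
  induction p using Polynomial.induction_on' with
  | add p q hp hq => simpa using Nat.add_le_add hp hq
  | monomial n c =>
    simp only [Polynomial.eval_monomial]
    exact Nat.mul_le_mul_left _ (Nat.pow_le_pow_left h n)

@[simp] theorem size_bool (v : Bool) : Ty.size .bool v = 1 := rfl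

@[simp] theorem size_prod (v : a.El × b.El) :
    Ty.size (.prod a b) v = a.size v.1 + b.size v.2 := rfl

@[simp] theorem size_nil : Ty.size (.list a) [] = 0 := rfl

@[simp] theorem size_cons (e : a.El) (l : List a.El) :
    Ty.size (.list a) (e :: l) = a.size e + 1 + Ty.size (.list a) l := by
  simp [Ty.size]

@[simp] theorem size_append (l l' : List a.El) :
    Ty.size (.list a) (l ++ l') = Ty.size (.list a) l + Ty.size (.list a) l' := by
  simp [Ty.size]

theorem length_le_size (l : List a.El) : l.length ≤ Ty.size (.list a) l := by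
  induction l with
  | nil => simp
  | cons e l ih => rw [size_cons, List.length_cons]; omega

theorem size_word (w : List Bool) : Ty.size .word w = 2 * w.length := by
  induction w with
  | nil => rfl
  | cons e l ih => rw [size_cons, List.length_cons, ih, size_bool]; ring

theorem size_mem_le {e : a.El} {l : List a.El} (h : e ∈ l) : a.size e + 1 ≤ Ty.size (.list a) l := by
  induction l with
  | nil => cases h
  | cons x l ih =>
    rw [size_cons]
    rcases List.mem_cons.1 h with rfl | h
    · omega
    · have := ih h; omega

/-- some object of the type -/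
def Ty.default : (a : Ty) → a.El
  | .bool => false
  | .prod a b => (a.default, b.default)
  | .list _ => []

theorem PF.of_eq {f g : a.El → b.El} (h : PF A a b f) (e : ∀ v, f v = g v) : PF A a b g := by
  obtain rfl : f = g := funext e
  exact h

theorem PF.fst' {f : a.El → b.El × c.El} (h : PF A a (.prod b c) f) :
    PF A a b (fun v => (f v).1) := PF.comp (PF.fst b c) h

theorem PF.snd' {f : a.El → b.El × c.El} (h : PF A a (.prod b c) f) :
    PF A a c (fun v => (f v).2) := PF.comp (PF.snd b c) h

theorem PF.cond' {f : a.El → Bool} {g h : a.El → b.El} (hf : PF A a .bool f) (hg : PF A a b g)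
    (hh : PF A a b h) : PF A a b (fun v => bif f v then g v else h v) :=
  PF.comp (PF.cond b) (hf.pair (hg.pair hh))

theorem PF.cons' {f : a.El → b.El} {g : a.El → List b.El} (hf : PF A a b f)
    (hg : PF A a (.list b) g) : PF A a (.list b) (fun v => f v :: g v) :=
  PF.comp (PF.cons b) (hf.pair hg)

theorem PF.not' {f : a.El → Bool} (hf : PF A a .bool f) : PF A a .bool (fun v => !f v) :=
  (hf.cond' (PF.ff a) (PF.tt a)).of_eq fun v => by cases f v <;> rfl

theorem PF.and' {f g : a.El → Bool} (hf : PF A a .bool f) (hg : PF A a .bool g) :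
    PF A a .bool (fun v => f v && g v) :=
  (hf.cond' hg (PF.ff a)).of_eq fun v => by cases f v <;> rfl

theorem PF.or' {f g : a.El → Bool} (hf : PF A a .bool f) (hg : PF A a .bool g) :
    PF A a .bool (fun v => f v || g v) :=
  (hf.cond' (PF.tt a) hg).of_eq fun v => by cases f v <;> rfl

theorem PF.list_const (hc : ∀ x : b.El, PF A a b (fun _ => x)) :
    ∀ l : List b.El, PF A a (.list b) (fun _ => l)
  | [] => PF.nil a b
  | x :: l => (hc x).cons' (PF.list_const hc l)

theorem PF.const : ∀ (b : Ty) (x : b.El), PF A a b (fun _ => x)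
  | .bool, true => PF.tt a
  | .bool, false => PF.ff a
  | .prod b c, x => (PF.const b x.1).pair (PF.const c x.2)
  | .list b, x => PF.list_const (PF.const b) x

/-- every polynomial time function has polynomially bounded values -/
theorem PF.bound {f : a.El → b.El} (h : PF A a b f) :
    ∃ p : Polynomial ℕ, ∀ v, b.size (f v) ≤ p.eval (a.size v) := by
  induction h with
  | id a => exact ⟨Polynomial.X, fun v => by simp⟩
  | comp hg hf ihg ihf =>
    obtain ⟨p, hp⟩ := ihg
    obtain ⟨q, hq⟩ := ihf
    exact ⟨p.comp q, fun v => by
      rw [Polynomial.eval_comp]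
      exact (hp _).trans (eval_mono p (hq v))⟩
  | pair hg hf ihg ihf =>
    obtain ⟨p, hp⟩ := ihg
    obtain ⟨q, hq⟩ := ihf
    exact ⟨p + q, fun v => by
      rw [Polynomial.eval_add, size_prod]
      exact Nat.add_le_add (hp v) (hq v)⟩
  | fst a b => exact ⟨Polynomial.X, fun v => by simp⟩
  | snd a b => exact ⟨Polynomial.X, fun v => by simp⟩
  | tt a => exact ⟨1, fun v => by simp⟩
  | ff a => exact ⟨1, fun v => by simp⟩
  | nil a b => exact ⟨1, fun v => by simp⟩
  | cons a => exact ⟨Polynomial.X + 1, fun v => by simp; omega⟩
  | cond a => exact ⟨Polynomial.X, fun v => by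
      rcases v with ⟨x, y, z⟩
      cases x <;> simp <;> omega⟩
  | query => exact ⟨1, fun v => by simp⟩
  | listRec p hg hh h0 h1 hb _ _ => exact ⟨p, hb⟩

/-- recursion on lists where each step adds little to the size -/
theorem PF.recAdd {g : a.El → c.El} {h : b.El × List b.El × a.El × c.El → c.El}
    {f : List b.El × a.El → c.El}
    (hg : PF A a c g) (hh : PF A (.prod b (.prod (.list b) (.prod a c))) c h)
    (h0 : ∀ s, f ([], s) = g s) (h1 : ∀ e l s, f (e :: l, s) = h (e, l, s, f (l, s)))
    (q : Polynomial ℕ)
    (hq : ∀ e l s r, c.size (h (e, l, s, r)) ≤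
      c.size r + q.eval (b.size e + Ty.size (.list b) l + a.size s)) :
    PF A (.prod (.list b) a) c f := by
  obtain ⟨p, hp⟩ := hg.bound
  have key : ∀ (l : List b.El) (s : a.El), c.size (f (l, s)) ≤
      p.eval (a.size s) + l.length * q.eval (Ty.size (.list b) l + a.size s) := by
    intro l s
    induction l with
    | nil => rw [h0]; simpa using hp s
    | cons e l ih =>
      rw [h1]
      refine (hq e l s _).trans ?_
      have e1 : q.eval (b.size e + Ty.size (.list b) l + a.size s) ≤
          q.eval (Ty.size (.list b) (e :: l) + a.size s) := eval_mono q (by rw [size_cons]; omega)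
      have e2 : q.eval (Ty.size (.list b) l + a.size s) ≤
          q.eval (Ty.size (.list b) (e :: l) + a.size s) := eval_mono q (by rw [size_cons]; omega)
      have e3 := Nat.mul_le_mul_left l.length e2
      rw [List.length_cons, Nat.add_mul, Nat.one_mul]
      omega
  refine PF.listRec (p + Polynomial.X * q) hg hh h0 h1 fun v => ?_
  rcases v with ⟨l, s⟩
  refine (key l s).trans ?_
  rw [Polynomial.eval_add, Polynomial.eval_mul, Polynomial.eval_X]
  refine Nat.add_le_add (eval_mono p ?_) (Nat.mul_le_mul ?_ (eval_mono q ?_))
  · rw [size_prod]; exact Nat.le_add_left _ _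
  · have := length_le_size l
    rw [size_prod]; exact this.trans (Nat.le_add_right _ _)
  · rw [size_prod]

/-- case distinction on a list -/
theorem PF.cases {l : a.El → List b.El} {g : a.El → c.El} {h : b.El × List b.El × a.El → c.El}
    (hl : PF A a (.list b) l) (hg : PF A a c g) (hh : PF A (.prod b (.prod (.list b) a)) c h) :
    PF A a c (fun v => match l v with
      | [] => g v
      | e :: t => h (e, t, v)) := by
  obtain ⟨p, hp⟩ := hh.bound
  have key : PF A (.prod (.list b) a) c (fun v => match v.1 with
      | [] => g v.2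
      | e :: t => h (e, t, v.2)) := by
    have hh' : PF A (.prod b (.prod (.list b) (.prod a c))) c
        (fun v => h (v.1, v.2.1, v.2.2.1)) :=
      PF.comp hh ((PF.fst _ _).pair ((PF.snd _ _).fst'.pair (PF.snd _ _).snd'.fst'))
    refine PF.recAdd hg hh' (fun s => rfl) (fun e l s => rfl) p fun e l s r => ?_
    have := hp (e, l, s)
    simp only [size_prod] at this
    rw [Nat.add_assoc]
    exact this.trans (Nat.le_add_left _ _)
  exact PF.comp key (hl.pair (PF.id a))

theorem PF.isEmpty {l : a.El → List b.El} (hl : PF A a (.list b) l) :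
    PF A a .bool (fun v => (l v).isEmpty) :=
  (hl.cases (PF.tt a) (PF.ff _)).of_eq fun v => by cases l v <;> rfl

theorem PF.tail {l : a.El → List b.El} (hl : PF A a (.list b) l) :
    PF A a (.list b) (fun v => (l v).tail) :=
  (hl.cases (PF.nil a b) (PF.snd _ _).fst').of_eq fun v => by cases l v <;> rfl

theorem PF.headD {l : a.El → List b.El} {g : a.El → b.El} (hl : PF A a (.list b) l)
    (hg : PF A a b g) : PF A a b (fun v => (l v).headD (g v)) :=
  (hl.cases hg (PF.fst _ _)).of_eq fun v => by cases l v <;> rfl

/-- recursion on a list in a context -/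
theorem PF.rec' {l : a.El → List b.El} {g : a.El → c.El}
    {h : b.El × List b.El × a.El × c.El → c.El} {f : List b.El × a.El → c.El}
    (hl : PF A a (.list b) l) (hg : PF A a c g)
    (hh : PF A (.prod b (.prod (.list b) (.prod a c))) c h)
    (h0 : ∀ s, f ([], s) = g s) (h1 : ∀ e l s, f (e :: l, s) = h (e, l, s, f (l, s)))
    (q : Polynomial ℕ)
    (hq : ∀ e l s r, c.size (h (e, l, s, r)) ≤
      c.size r + q.eval (b.size e + Ty.size (.list b) l + a.size s)) :
    PF A a c (fun v => f (l v, v)) :=
  PF.comp (PF.recAdd hg hh h0 h1 q hq) (hl.pair (PF.id a))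

theorem PF.append {f g : a.El → List b.El} (hf : PF A a (.list b) f) (hg : PF A a (.list b) g) :
    PF A a (.list b) (fun v => f v ++ g v) := by
  have hh : PF A (.prod b (.prod (.list b) (.prod a (.list b)))) (.list b)
      (fun v => v.1 :: v.2.2.2) := (PF.fst _ _).cons' (PF.snd _ _).snd'.snd'
  refine PF.rec' (f := fun v => v.1 ++ g v.2) hf hg hh (fun s => rfl) (fun e l s => rfl)
    (Polynomial.X + 1) fun e l s r => ?_
  simp only [size_cons, Polynomial.eval_add, Polynomial.eval_X, Polynomial.eval_one]
  omega

theorem PF.map {l : a.El → List b.El} {φ : b.El × a.El → c.El} (hl : PF A a (.list b) l)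
    (hφ : PF A (.prod b a) c φ) :
    PF A a (.list c) (fun v => (l v).map fun e => φ (e, v)) := by
  obtain ⟨p, hp⟩ := hφ.bound
  have hh : PF A (.prod b (.prod (.list b) (.prod a (.list c)))) (.list c)
      (fun v => φ (v.1, v.2.2.1) :: v.2.2.2) :=
    (PF.comp hφ ((PF.fst _ _).pair (PF.snd _ _).snd'.fst')).cons' (PF.snd _ _).snd'.snd'
  refine PF.rec' (f := fun v => v.1.map fun e => φ (e, v.2)) hl (PF.nil _ _) hh
    (fun s => rfl) (fun e l s => rfl) (p + 1) fun e l s r => ?_
  have h1 := hp (e, s)
  have h2 : p.eval (Ty.size (.prod b a) (e, s)) ≤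
      p.eval (b.size e + Ty.size (.list b) l + a.size s) :=
    eval_mono p (by rw [size_prod]; simp only; omega)
  simp only [size_cons, Polynomial.eval_add, Polynomial.eval_one]
  omega

theorem PF.flatMap {l : a.El → List b.El} {φ : b.El × a.El → List c.El} (hl : PF A a (.list b) l)
    (hφ : PF A (.prod b a) (.list c) φ) :
    PF A a (.list c) (fun v => (l v).flatMap fun e => φ (e, v)) := by
  obtain ⟨p, hp⟩ := hφ.bound
  have hh : PF A (.prod b (.prod (.list b) (.prod a (.list c)))) (.list c)
      (fun v => φ (v.1, v.2.2.1) ++ v.2.2.2) :=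
    (PF.comp hφ ((PF.fst _ _).pair (PF.snd _ _).snd'.fst')).append (PF.snd _ _).snd'.snd'
  refine PF.rec' (f := fun v => v.1.flatMap fun e => φ (e, v.2)) hl (PF.nil _ _) hh
    (fun s => rfl) (fun e l s => rfl) p fun e l s r => ?_
  have h1 := hp (e, s)
  have h2 : p.eval (Ty.size (.prod b a) (e, s)) ≤
      p.eval (b.size e + Ty.size (.list b) l + a.size s) :=
    eval_mono p (by rw [size_prod]; simp only; omega)
  simp only [size_append]
  omega

theorem PF.all {l : a.El → List b.El} {φ : b.El × a.El → Bool} (hl : PF A a (.list b) l)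
    (hφ : PF A (.prod b a) .bool φ) :
    PF A a .bool (fun v => (l v).all fun e => φ (e, v)) := by
  have hh : PF A (.prod b (.prod (.list b) (.prod a .bool))) .bool
      (fun v => φ (v.1, v.2.2.1) && v.2.2.2) :=
    (PF.comp hφ ((PF.fst _ _).pair (PF.snd _ _).snd'.fst')).and' (PF.snd _ _).snd'.snd'
  refine PF.rec' (f := fun v => v.1.all fun e => φ (e, v.2)) hl (PF.tt _) hh
    (fun s => rfl) (fun e l s => rfl) 1 fun e l s r => ?_
  simp

theorem PF.any {l : a.El → List b.El} {φ : b.El × a.El → Bool} (hl : PF A a (.list b) l)
    (hφ : PF A (.prod b a) .bool φ) :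
    PF A a .bool (fun v => (l v).any fun e => φ (e, v)) :=
  (PF.all hl hφ.not').not'.of_eq fun v => by
    induction l v with
    | nil => rfl
    | cons e t ih => simp only [List.all_cons, List.any_cons, Bool.not_and, Bool.not_not, ih]

/-- `drop` as many elements as the list `f v` has -/
theorem PF.drop {f : a.El → List b.El} {g : a.El → List c.El} (hf : PF A a (.list b) f)
    (hg : PF A a (.list c) g) : PF A a (.list c) (fun v => (g v).drop (f v).length) := by
  have hh : PF A (.prod b (.prod (.list b) (.prod a (.list c)))) (.list c)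
      (fun v => v.2.2.2.tail) := (PF.snd _ _).snd'.snd'.tail
  refine PF.rec' (f := fun v => (g v.2).drop v.1.length) hf hg hh (fun s => rfl)
    (fun e l s => ?_) 0 fun e l s r => ?_
  · simp only [List.length_cons, List.tail_drop]
  · cases r with
    | nil => simp
    | cons x r => simp only [List.tail_cons, size_cons]; omega

theorem PF.lengthLE {f : a.El → List b.El} {g : a.El → List c.El} (hf : PF A a (.list b) f)
    (hg : PF A a (.list c) g) : PF A a .bool (fun v => decide ((f v).length ≤ (g v).length)) :=
  (PF.drop hg hf).isEmpty.of_eq fun v => by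
    rw [Bool.eq_iff_iff]
    simp [List.isEmpty_iff, List.drop_eq_nil_iff]

/-- the size of an object in unary -/
theorem PF.sizeList : ∀ (a : Ty), PF A a .word (fun v => List.replicate (a.size v) true)
  | .bool => (PF.const .word [true]).of_eq fun v => rfl
  | .prod a b =>
    (((PF.sizeList a).comp (PF.fst a b)).append ((PF.sizeList b).comp (PF.snd a b))).of_eq
      fun v => by simp [List.replicate_append_replicate]
  | .list a => by
    have h : PF A (.prod a (.list a)) .word
        (fun v => true :: List.replicate (a.size v.1) true) :=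
      (PF.tt _).cons' ((PF.sizeList a).comp (PF.fst _ _))
    refine (PF.flatMap (PF.id (.list a)) h).of_eq fun v => ?_
    induction v with
    | nil => rfl
    | cons e l ih =>
      rw [List.flatMap_cons, ih, size_cons, ← List.replicate_succ,
        List.replicate_append_replicate]

theorem PF.mulList {f g : a.El → ℕ} (hf : PF A a .word (fun v => List.replicate (f v) true))
    (hg : PF A a .word (fun v => List.replicate (g v) true)) :
    PF A a .word (fun v => List.replicate (f v * g v) true) := by
  refine (PF.flatMap (φ := fun v => List.replicate (g v.2) true) hf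
    (PF.comp hg (PF.snd .bool a))).of_eq fun v => ?_
  induction f v with
  | zero => simp
  | succ n ih =>
    rw [List.replicate_succ, List.flatMap_cons, ih, List.replicate_append_replicate]
    congr 1
    ring

/-- the value of a polynomial in unary -/
theorem PF.polyList {f : a.El → ℕ} (hf : PF A a .word (fun v => List.replicate (f v) true))
    (p : Polynomial ℕ) : PF A a .word (fun v => List.replicate (p.eval (f v)) true) := by
  induction p using Polynomial.induction_on' with
  | add p q hp hq =>
    exact (hp.append hq).of_eq fun v => by simp [List.replicate_append_replicate]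
  | monomial n c =>
    have hn : PF A a .word (fun v => List.replicate (f v ^ n) true) := by
      induction n with
      | zero => exact (PF.const .word [true]).of_eq fun v => by simp
      | succ n ih => exact (PF.mulList ih hf).of_eq fun v => by rw [pow_succ]
    exact (PF.mulList (f := fun _ => c) (PF.const .word (List.replicate c true)) hn).of_eq
      fun v => by rw [Polynomial.eval_monomial]

/-- comparison of the size of a value with a polynomial in the size of another one -/
theorem PF.sizeLE {f : a.El → b.El} {g : a.El → c.El} (hf : PF A a b f) (hg : PF A a c g)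
    (p : Polynomial ℕ) :
    PF A a .bool (fun v => decide (b.size (f v) ≤ p.eval (c.size (g v)))) := by
  refine (PF.lengthLE ((PF.sizeList b).comp hf)
    ((PF.polyList (PF.sizeList c) p).comp hg)).of_eq fun v => ?_
  simp

end Pool.Agent.Lib.MP_2b5695_lc.Alg
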