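import Pool.Agent.Lib.MP_2b5695_lc.Alg.Trans

/-!
If all optimization problems in `Π_i` are computed by type 1 counterexample computations, then
`Δ_{i+2} = Θ_{i+2}`.
-/

namespace Pool.Agent.Lib.MP_2b5695_lc.Alg

variable {ι : Ty} {A : Set ι.El} {a b c d κ μ β β₁ β₂ : Ty}

theorem poly_lt (Q : Polynomial ℕ) : ∃ c : ℕ, ∀ n, Q.eval n < 2 ^ (c * (Nat.log 2 n + 1)) := by
  induction Q using Polynomial.induction_on' with
  | add p q hp hq =>
    obtain ⟨c, hc⟩ := hp
    obtain ⟨d, hd⟩ := hq
    refine ⟨c + d + 1, fun n => ?_⟩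
    rw [Polynomial.eval_add]
    have h1 := hc n
    have h2 := hd n
    have h3 : 2 ^ (c * (Nat.log 2 n + 1)) ≤ 2 ^ ((c + d) * (Nat.log 2 n + 1)) :=
      Nat.pow_le_pow_right (by norm_num) (Nat.mul_le_mul_right _ (by omega))
    have h4 : 2 ^ (d * (Nat.log 2 n + 1)) ≤ 2 ^ ((c + d) * (Nat.log 2 n + 1)) :=
      Nat.pow_le_pow_right (by norm_num) (Nat.mul_le_mul_right _ (by omega))
    have h5 : 2 ^ ((c + d) * (Nat.log 2 n + 1) + 1) ≤ 2 ^ ((c + d + 1) * (Nat.log 2 n + 1)) :=
      Nat.pow_le_pow_right (by norm_num) (by rw [Nat.add_mul (c + d)]; omega)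
    rw [pow_succ] at h5
    omega
  | monomial m C =>
    refine ⟨C + m, fun n => ?_⟩
    rw [Polynomial.eval_monomial, Nat.add_mul, pow_add]
    have h1 : n ^ m ≤ 2 ^ (m * (Nat.log 2 n + 1)) := by
      rw [Nat.mul_comm, pow_mul]
      exact Nat.pow_le_pow_left (Nat.lt_pow_succ_log_self (by norm_num) n).le m
    have h2 : C < 2 ^ (C * (Nat.log 2 n + 1)) :=
      (Nat.lt_two_pow_self).trans_le (Nat.pow_le_pow_right (by norm_num)
        (Nat.le_mul_of_pos_right _ (by omega)))
    have h3 : 0 < 2 ^ (m * (Nat.log 2 n + 1)) := by positivity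
    calc C * n ^ m ≤ C * 2 ^ (m * (Nat.log 2 n + 1)) := Nat.mul_le_mul_left _ h1
      _ < 2 ^ (C * (Nat.log 2 n + 1)) * 2 ^ (m * (Nat.log 2 n + 1)) :=
        Nat.mul_lt_mul_of_pos_right h2 h3

/-- the number of presentations in a transcript, in unary -/
def cnt (es : List (Ty.entry β₁ β₂).El) : List Bool :=
  es.flatMap fun e => bif e.2.1 then [true] else []

theorem pf_cnt {l : a.El → List (Ty.entry β₁ β₂).El} (hl : PF A a (.list (.entry β₁ β₂)) l) :
    PF A a .word (fun v => cnt (l v)) :=
  PF.flatMap (b := .entry β₁ β₂) (c := .bool) (φ := fun v => bif v.1.2.1 then [true] else []) hl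
    ((PF.fst (.entry β₁ β₂) a).snd'.fst'.cond' ((PF.tt _).cons' (PF.nil _ _)) (PF.nil _ _))

theorem cnt_cons (e : (Ty.entry β₁ β₂).El) (es : List (Ty.entry β₁ β₂).El) :
    (cnt (e :: es)).length = (bif e.2.1 then 1 else 0) + (cnt es).length := by
  rw [cnt, List.flatMap_cons, List.length_append]
  cases e.2.1 <;> rfl

theorem cnt_le (es : List (Ty.entry β₁ β₂).El) : (cnt es).length ≤ es.length := by
  induction es with
  | nil => simp [cnt]
  | cons e es ih =>
    rw [cnt_cons, List.length_cons]
    cases e.2.1 <;> simp <;> omega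

/-- threshold for the next query -/
def thr (W r : List Bool) : List Bool := (W.drop (r.length + 1)).map (fun _ => false) ++ true :: r

theorem val_replicate_false (n : ℕ) (l : List Bool) :
    val (List.replicate n false ++ l) = 2 ^ n * val l := by
  induction n with
  | zero => simp
  | succ n ih =>
    rw [List.replicate_succ, List.cons_append, val, ih, Nat.bit_val, pow_succ]
    simp; ring

theorem val_thr {W r : List Bool} :
    val (thr W r) = 2 ^ (W.length - (r.length + 1)) * (2 * val r + 1) := by
  rw [thr, List.map_const', val_replicate_false, List.length_drop, val, Nat.bit_val]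
  rfl

/-- The final condition on a transcript `es`, for the input `v` and the replies `r`. -/
def cond (S : List Bool × Ty.history.El → (Ty.move μ).El) (e : a.El × List Bool → Bool)
    (β : Ty) (X W : List Bool) (v : a.El) (r : List Bool) (es : List (Ty.entry β₁ β₂).El) : Bool :=
  bif decide (r.length + 1 ≤ W.length) then leCount (thr W r) (cnt es).length
  else (!((S (X, es.map histE)).1.1 && !(S (X, es.map histE)).1.2)) &&
    (leCount (r.drop (r.drop W.length).length) (cnt es).length &&
      e (v, (blocksOf β (norm (S (X, es.map histE)).2.2)).map Prod.fst))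

theorem pf_cond {S : List Bool × Ty.history.El → (Ty.move μ).El} {e : a.El × List Bool → Bool}
    (hS : PF A (.prod .word .history) (.move μ) S) (he : PF A (.prod a .word) .bool e)
    {X W r : b.El → List Bool} {v : b.El → a.El} {es : b.El → List (Ty.entry β₁ β₂).El}
    (hX : PF A b .word X) (hW : PF A b .word W) (hv : PF A b a v) (hr : PF A b .word r)
    (hes : PF A b (.list (.entry β₁ β₂)) es) :
    PF A b .bool (fun u => cond S e β (X u) (W u) (v u) (r u) (es u)) := by
  have hm : PF A b (.move μ) (fun u => S (X u, (es u).map histE)) :=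
    hS.comp (hX.pair (pf_histE hes))
  have hr1 : PF A b .word (fun u => true :: r u) := (PF.tt _).cons' hr
  have h1 : PF A b .bool (fun u => decide ((r u).length + 1 ≤ (W u).length)) :=
    (PF.lengthLE hr1 hW).of_eq fun u => by simp
  have h2 : PF A b .word (fun u => thr (W u) (r u)) := by
    have h3 : PF A b .word (fun u => (W u).drop ((r u).length + 1)) :=
      (PF.drop hr1 hW).of_eq fun u => by simp
    exact (PF.map (b := .bool) (c := .bool) (φ := fun _ => false) h3 (PF.ff _)).append hr1
  have h4 : PF A b .word (fun u => (blocksOf β (norm (S (X u, (es u).map histE)).2.2)).map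
      Prod.fst) :=
    PF.map (b := .prod .bool β) (c := .bool) (φ := fun v => v.1.1)
      (pf_blocksOf hm.snd'.snd'.norm) (PF.fst _ _).fst'
  exact h1.cond' (PF.leCount h2 (pf_cnt hes)) ((hm.fst'.fst'.and' hm.fst'.snd'.not').not'.and'
    ((PF.leCount (PF.drop (PF.drop hW hr) hr) (pf_cnt hes)).and' (he.comp (hv.pair h4))))

theorem size_le_mul (es : List b.El) (E : ℕ) (h : ∀ e ∈ es, b.size e ≤ E) :
    Ty.size (.list b) es ≤ es.length * (E + 1) := by
  induction es with
  | nil => simp
  | cons e es ih =>
    rw [size_cons, List.length_cons, Nat.add_mul, Nat.one_mul]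
    have h1 := ih fun e' he' => h e' (List.mem_cons_of_mem _ he')
    have h2 := h e List.mem_cons_self
    omega

open Classical in
theorem replies_add (O : Set κ.El) (δ : List Bool → κ.El) (w : ℕ) :
    ∀ s : ℕ, ∃ l : List Bool, l.length = s ∧ replies O δ (w + s) = l ++ replies O δ w
  | 0 => ⟨[], rfl, rfl⟩
  | s + 1 => by
    obtain ⟨l, hl, h⟩ := replies_add O δ w s
    refine ⟨decide (δ (l ++ replies O δ w) ∈ O) :: l, by rw [List.length_cons, hl], ?_⟩
    rw [← Nat.add_assoc, replies, h, List.cons_append]

open Classical in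
/-- binary search -/
theorem bsearch {O : Set κ.El} {δ : List Bool → κ.El} {w K : ℕ} (hK : K < 2 ^ w)
    (h : ∀ r : List Bool, r.length < w →
      (δ r ∈ O ↔ 2 ^ (w - (r.length + 1)) * (2 * val r + 1) ≤ K)) :
    ∀ t, t ≤ w → val (replies O δ t) = K / 2 ^ (w - t) := by
  intro t
  induction t with
  | zero =>
    intro _
    rw [replies, val, Nat.sub_zero, Nat.div_eq_of_lt hK]
  | succ t ih =>
    intro ht
    have ih := ih (by omega)
    rw [replies, val]
    have hlen := length_replies O δ t
    have h1 := h (replies O δ t) (by omega)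
    rw [hlen, ih] at h1
    have h2 : 2 ^ (w - t) = 2 ^ (w - (t + 1)) * 2 := by
      rw [← pow_succ]; congr 1; omega
    have hpos : 0 < 2 ^ (w - (t + 1)) := by positivity
    have h3 : K / 2 ^ (w - t) = K / 2 ^ (w - (t + 1)) / 2 := by
      rw [h2, Nat.div_div_eq_div_mul]
    rw [ih, Nat.bit_val]
    rw [h3] at h1 ⊢
    rw [Nat.mul_comm, ← Nat.le_div_iff_mul_le hpos] at h1
    generalize K / 2 ^ (w - (t + 1)) = q at *
    generalize δ (replies O δ t) = d at *
    by_cases h4 : d ∈ O
    · have h5 := h1.1 h4
      rw [decide_eq_true h4, Bool.toNat_true]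
      omega
    · have h5 : ¬ (2 * (q / 2) + 1 ≤ q) := fun h5 => h4 (h1.2 h5)
      rw [decide_eq_false h4, Bool.toNat_false]
      omega

namespace Setup

variable {D : Setup μ β₁ β₂}

/-- correct transcripts with small entries -/
def Good (D : Setup μ β₁ β₂) (x : ℕ) (es : List (Ty.entry β₁ β₂).El) : Prop :=
  D.Leg x es ∧ ∀ e ∈ es, (Ty.entry β₁ β₂).size e ≤ D.eb x

/-- the machine does not ask the oracle after the transcript -/
def terminal (D : Setup μ β₁ β₂) (x : ℕ) (es : List (Ty.entry β₁ β₂).El) : Bool :=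
  !((D.move x es).1.1 && !(D.move x es).1.2)

/-- there is a good transcript with at least `j` presentations -/
def Reach (D : Setup μ β₁ β₂) (x j : ℕ) : Prop := ∃ es, D.Good x es ∧ j ≤ (cnt es).length

open Classical in
/-- the largest number of counterexamples -/
noncomputable def K (D : Setup μ β₁ β₂) (x : ℕ) : ℕ :=
  Nat.findGreatest (D.Reach x) (D.p.eval (Nat.bits x).length)

open Classical in
theorem reach_iff {x j : ℕ} : D.Reach x j ↔ j ≤ D.K x := by
  have h0 : D.Reach x 0 := ⟨[], ⟨leg_nil, fun e he => by cases he⟩, Nat.zero_le _⟩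
  constructor
  · intro hj
    have hj' := hj
    obtain ⟨es, h1, h2⟩ := hj'
    have h3 := length_lt h1.1
    have h4 := cnt_le es
    exact Nat.le_findGreatest (by omega) hj
  · intro h
    obtain ⟨es, h1, h2⟩ : D.Reach x (D.K x) := Nat.findGreatest_spec (Nat.zero_le _) h0
    exact ⟨es, h1, h.trans h2⟩

open Classical in
theorem K_le {x : ℕ} : D.K x ≤ D.p.eval (Nat.bits x).length := Nat.findGreatest_le _

theorem exists_terminal {x j : ℕ} :
    ∀ (n : ℕ) (es : List (Ty.entry β₁ β₂).El), D.p.eval (Nat.bits x).length - es.length ≤ n →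
      D.Good x es → j ≤ (cnt es).length →
      ∃ es', D.Good x es' ∧ j ≤ (cnt es').length ∧ D.terminal x es' = true
  | 0, es, hn, h, _ => by
    have := length_lt h.1
    omega
  | n + 1, es, hn, h, hj => by
    cases ht : D.terminal x es with
    | true => exact ⟨es, h, hj, ht⟩
    | false =>
      simp only [terminal, Bool.not_eq_false', Bool.and_eq_true, Bool.not_eq_true'] at ht
      obtain ⟨e, h1, h2, h3⟩ := extend_query h.1 ht.1 ht.2
      refine exists_terminal n (e :: es) ?_ ⟨h1, ?_⟩ ?_
      · have := length_lt h.1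
        rw [List.length_cons]
        omega
      · exact List.forall_mem_cons.2 ⟨h2, h.2⟩
      · rw [cnt_cons]; omega

theorem terminal_optimal {x : ℕ} {es : List (Ty.entry β₁ β₂).El} (h : D.Good x es)
    (ht : D.terminal x es = true) (hK : D.K x ≤ (cnt es).length) :
    Optimal D.C D.ρ x (val (D.move x es).2.2) := by
  by_cases h1 : (D.move x es).1.1 = true
  · have h2 : (D.move x es).1.2 = true := by
      rw [terminal, h1] at ht
      simpa using ht
    by_contra hc
    obtain ⟨e, h3, h4, h5⟩ := extend_present h.1 h1 h2 hc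
    have h6 : D.Reach x (D.K x + 1) := by
      refine ⟨e :: es, ⟨h3, List.forall_mem_cons.2 ⟨h4, h.2⟩⟩, ?_⟩
      rw [cnt_cons, h5, cond_true]
      omega
    have := reach_iff.1 h6
    omega
  · obtain ⟨n', -, h2⟩ := follow (D.ens x) h.1
    cases n' with
    | zero => exact h2.elim
    | succ n' =>
      rw [Ensures] at h2
      have hm : D.S (Nat.bits x, es.map histE) = D.move x es := rfl
      rw [hm] at h2
      clear hm
      revert h1 h2
      generalize D.move x es = m
      obtain ⟨⟨m1, m2⟩, q, w⟩ := m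
      intro h1 h2
      cases m1
      · exact h2
      · exact absurd rfl h1

end Setup

section final

variable (S : List Bool × Ty.history.El → (Ty.move μ).El) (e : a.El × List Bool → Bool)
  (β : Ty) (O : Set μ.El) (R₁ : μ.El × β₁.El → Prop) (LC : List Bool × List Bool → Prop)
  (R₂ : (List Bool × List Bool) × β₂.El → Prop) (X W : a.El → List Bool) (EB P : Polynomial ℕ)

/-- The oracle for the computation with few queries. -/
def newOracle : Set (Ty.El (.prod a .word)) := {q | ∃ es : (Ty.list (.entry β₁ β₂)).El,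
    Ty.size (.list (.entry β₁ β₂)) es ≤ P.eval (Ty.size (.prod a .word) q) ∧
    ((cond S e β (X q.1) (W q.1) q.1 q.2 es &&
      es.all fun t => decide ((Ty.entry β₁ β₂).size t ≤ EB.eval (X q.1).length)) = true ∧
      Legit S (costW β) O R₁ LC R₂ (X q.1) es)}

variable {S e β O R₁ LC R₂ X W}

theorem inSigma_newOracle {i : ℕ} (hO : InSigma A i μ (fun q => q ∈ O))
    (hR₁ : InPi A i (.prod μ β₁) R₁) (hLC : InPi A i (.prod .word .word) LC)
    (hR₂ : InPi A i (.prod (.prod .word .word) β₂) R₂)
    (hS : PF A (.prod .word .history) (.move μ) S) (he : PF A (.prod a .word) .bool e)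
    (hX : PF A a .word X) (hW : PF A a .word W) :
    InSigma A (i + 1) (.prod a .word) (fun q => q ∈ newOracle S e β O R₁ LC R₂ X W EB P) := by
  have hq : PF A (.prod (.prod a .word) (.list (.entry β₁ β₂))) a (fun v => v.1.1) :=
    (PF.fst _ _).fst'
  have hr : PF A (.prod (.prod a .word) (.list (.entry β₁ β₂))) .word (fun v => v.1.2) :=
    (PF.fst _ _).snd'
  have hes : PF A (.prod (.prod a .word) (.list (.entry β₁ β₂))) (.list (.entry β₁ β₂))
    (fun v => v.2) := PF.snd _ _
  have hXq : PF A (.prod (.prod a .word) (.list (.entry β₁ β₂))) .word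
    (fun v => X v.1.1) := hX.comp hq
  have h1 : InPi A i (.prod (.prod a .word) (.list (.entry β₁ β₂)))
      (fun v => Legit S (costW β) O R₁ LC R₂ (X v.1.1) v.2) :=
    inPi_Legit hO hR₁ hLC hR₂ hS (fun hf => pf_costW hf) hXq hes
  have h2 : PF A (.prod (.prod a .word) (.list (.entry β₁ β₂))) .bool
      (fun v => cond S e β (X v.1.1) (W v.1.1) v.1.1 v.1.2 v.2) :=
    pf_cond hS he hXq (hW.comp hq) hq hr hes
  have h3 : PF A (.prod (.prod a .word) (.list (.entry β₁ β₂))) .word
      (fun v => List.replicate (EB.eval (X v.1.1).length) true) := by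
    have h31 : PF A (.prod (.prod a .word) (.list (.entry β₁ β₂))) .word
      (fun v => List.replicate (X v.1.1).length true) :=
      (PF.map (b := .bool) (c := .bool) (φ := fun _ => true) hXq (PF.tt _)).of_eq
        fun v => by rw [List.map_const']
    exact PF.polyList h31 EB
  have h4 : PF A (.prod (.prod a .word) (.list (.entry β₁ β₂))) .bool
      (fun v => v.2.all fun t =>
        decide ((Ty.entry β₁ β₂).size t ≤ EB.eval (X v.1.1).length)) := by
    have h5 : PF A (.prod (.entry β₁ β₂) (.prod (.prod a .word) (.list (.entry β₁ β₂)))) .bool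
        (fun v => decide ((Ty.entry β₁ β₂).size v.1 ≤ EB.eval (X v.2.1.1).length)) :=
      (PF.lengthLE ((PF.sizeList (.entry β₁ β₂)).comp (PF.fst _ _))
        (h3.comp (PF.snd _ _))).of_eq fun v => by
          rw [List.length_replicate, List.length_replicate]
    exact PF.all (b := .entry β₁ β₂) hes h5
  exact (h1.and (h2.and' h4)).ex P

end final

end Pool.Agent.Lib.MP_2b5695_lc.Alg
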