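import Mathlib

/-!
Polynomial time functions on finite structured data (Cobham style), relativised to an oracle;
the relativised polynomial hierarchy; optimization problems and counterexample computations;
bounded query classes.
-/

namespace Pool.Agent.Lib.MP_2b5695_lc.Alg

/-- Types of finite objects: truth values, pairs and lists. -/
inductive Ty
  | bool : Ty
  | prod (a b : Ty) : Ty
  | list (a : Ty) : Ty

/-- The objects of a type. -/
@[reducible] def Ty.El : Ty → Type
  | .bool => Bool
  | .prod a b => a.El × b.El
  | .list a => List a.El

/-- Words of bits. -/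
@[reducible] def Ty.word : Ty := .list .bool

/-- The size of an object (for a word it is twice the length). -/
def Ty.size : (a : Ty) → a.El → ℕ
  | .bool, _ => 1
  | .prod a b, v => a.size v.1 + b.size v.2
  | .list a, l => (l.map fun e => a.size e + 1).sum

open Classical in
/-- The functions computable in polynomial time with an oracle `A` (a set of objects of type `ι`):
the least class that contains the identity, the projections, the constants `true`, `false` and
`[]`, the operation `e, l ↦ e :: l`, the choice `b, x, y ↦ if b then x else y` and the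
characteristic function of `A`, and that is closed under composition, pairing, and recursion on
lists provided that the size of the values of the resulting function is bounded by a polynomial in
the size of its argument. -/
inductive PF {ι : Ty} (A : Set ι.El) : (a b : Ty) → (a.El → b.El) → Prop
  | id (a : Ty) : PF A a a (fun v => v)
  | comp {a b c : Ty} {g : b.El → c.El} {f : a.El → b.El} :
      PF A b c g → PF A a b f → PF A a c (fun v => g (f v))
  | pair {a b c : Ty} {f : a.El → b.El} {g : a.El → c.El} :
      PF A a b f → PF A a c g → PF A a (.prod b c) (fun v => (f v, g v))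
  | fst (a b : Ty) : PF A (.prod a b) a (fun v => v.1)
  | snd (a b : Ty) : PF A (.prod a b) b (fun v => v.2)
  | tt (a : Ty) : PF A a .bool (fun _ => true)
  | ff (a : Ty) : PF A a .bool (fun _ => false)
  | nil (a b : Ty) : PF A a (.list b) (fun _ => [])
  | cons (a : Ty) : PF A (.prod a (.list a)) (.list a) (fun v => v.1 :: v.2)
  | cond (a : Ty) : PF A (.prod .bool (.prod a a)) a (fun v => bif v.1 then v.2.1 else v.2.2)
  | query : PF A ι .bool (fun q => decide (q ∈ A))
  | listRec {a b c : Ty} {g : a.El → c.El} {h : b.El × List b.El × a.El × c.El → c.El}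
      {f : List b.El × a.El → c.El} (p : Polynomial ℕ) :
      PF A a c g → PF A (.prod b (.prod (.list b) (.prod a c))) c h →
      (∀ s, f ([], s) = g s) → (∀ e l s, f (e :: l, s) = h (e, l, s, f (l, s))) →
      (∀ v, c.size (f v) ≤ p.eval (Ty.size (.prod (.list b) a) v)) →
      PF A (.prod (.list b) a) c f

/-- The property `L` of objects of type `a` belongs to `Σ_i^p` relative to the oracle `A`: for
`i = 0` this is polynomial time, and the properties in `Σ_{i+1}^p` are those of the form
`∃ u, size u ≤ p(size v) ∧ (v, u) ∈ Π_i^p`, where `u` ranges over the objects of some type. -/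
def InSigma {ι : Ty} (A : Set ι.El) : ℕ → (a : Ty) → (a.El → Prop) → Prop
  | 0, a, L => ∃ f : a.El → Bool, PF A a .bool f ∧ ∀ v, L v ↔ f v = true
  | i + 1, a, L => ∃ (b : Ty) (L' : a.El × b.El → Prop) (p : Polynomial ℕ),
      InSigma A i (.prod a b) L' ∧ ∀ v, L v ↔ ∃ u : b.El, b.size u ≤ p.eval (a.size v) ∧ ¬ L' (v, u)

/-- The property `L` of objects of type `a` belongs to `Π_i^p` relative to the oracle `A`. -/
def InPi {ι : Ty} (A : Set ι.El) (i : ℕ) (a : Ty) (L : a.El → Prop) : Prop :=
  InSigma A i a fun v => ¬ L v

/-- The number denoted by a word in binary, the first bit being the least significant one. -/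
def val : List Bool → ℕ
  | [] => 0
  | b :: w => Nat.bit b (val w)

/-- `(C, ρ)` is an optimization problem relative to the oracle `A`, with `C` in `Π_i^p`
relative to `A`; numbers are given by their binary words `Nat.bits`. -/
structure OptProblem {ι : Ty} (A : Set ι.El) (i : ℕ) (C : ℕ → ℕ → Prop) (ρ : ℕ → ℕ) : Prop where
  zero : ∀ x, C x 0
  le : ∀ x y, C x y → y ≤ x
  cost : ∃ f : List Bool → List Bool, PF A .word .word f ∧ ∀ y, val (f (Nat.bits y)) = ρ y
  feas : ∃ L : List Bool × List Bool → Prop, InPi A i (.prod .word .word) L ∧
    ∀ x y, C x y ↔ L (Nat.bits x, Nat.bits y)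

/-- The relation `B(x, y, z)` of the problem: `y` is feasible, and `z` does not improve on it. -/
def RelB (C : ℕ → ℕ → Prop) (ρ : ℕ → ℕ) (x y z : ℕ) : Prop := C x y ∧ (ρ y < ρ z → ¬ C x z)

/-- `y` is an optimal solution of `x`. -/
def Optimal (C : ℕ → ℕ → Prop) (ρ : ℕ → ℕ) (x y : ℕ) : Prop :=
  C x y ∧ ∀ z, C x z → ρ z ≤ ρ y

/-- The answers that the adversary may give on input `x` when the number `y` is presented: that
`y` is optimal (`none`), if this is so, and otherwise any `z ≤ x` that violates `B(x, y, z)`. -/
def Answers (C : ℕ → ℕ → Prop) (ρ : ℕ → ℕ) (x y : ℕ) : Option ℕ → Prop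
  | none => Optimal C ρ x y
  | some z => z ≤ x ∧ ¬ RelB C ρ x y z

/-- What a machine has learned so far, the latest answer first: the answer `b` of the oracle is
recorded as `(b, [])`, the answer `optimal` of the adversary as `(true, [])` and the
counterexample `z` as `(false, Nat.bits z)`. -/
@[reducible] def Ty.history : Ty := .list (.prod .bool .word)

/-- What a machine does next: `((false, _), (_, w))`: stop with output `w`;
`((true, false), (q, _))`: ask the oracle about `q`; `((true, true), (_, w))`: present the number
`val w` to the adversary. -/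
@[reducible] def Ty.move (κ : Ty) : Ty := .prod (.prod .bool .bool) (.prod κ .word)

open Classical in
/-- `Ensures O Adv good S t h`: a machine with oracle `O` whose next move after the history `h` is
`S h` stops after fewer than `t` questions with an output `w` such that `good (val w)`, however
the adversary answers within the rule `Adv`. -/
def Ensures {κ : Ty} (O : Set κ.El) (Adv : ℕ → Option ℕ → Prop) (good : ℕ → Prop)
    (S : Ty.history.El → (Ty.move κ).El) : ℕ → Ty.history.El → Prop
  | 0, _ => False
  | t + 1, h =>
    match S h with
    | ((false, _), (_, w)) => good (val w)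
    | ((true, false), (q, _)) => Ensures O Adv good S t ((decide (q ∈ O), []) :: h)
    | ((true, true), (_, w)) =>
      (Adv (val w) none → Ensures O Adv good S t ((true, []) :: h)) ∧
      ∀ z, Adv (val w) (some z) → Ensures O Adv good S t ((false, Nat.bits z) :: h)

/-- `(C, ρ)` is computed by a type 1 counterexample computation with a `Σ_i^p` oracle, relative
to `A`: by a machine with an oracle `O` in `Σ_i^p` (relative to `A`) whose next move is computed
in polynomial time from the input `x` and the answers obtained so far, and which, for every input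
`x` and against every adversary, asks at most polynomially many questions and outputs an optimal
solution of `x`. -/
def Computed {ι : Ty} (A : Set ι.El) (i : ℕ) (C : ℕ → ℕ → Prop) (ρ : ℕ → ℕ) : Prop :=
  ∃ (κ : Ty) (O : Set κ.El) (S : List Bool × Ty.history.El → (Ty.move κ).El) (p : Polynomial ℕ),
    InSigma A i κ (fun q => q ∈ O) ∧ PF A (.prod .word .history) (.move κ) S ∧
    ∀ x : ℕ, Ensures O (Answers C ρ x) (Optimal C ρ x) (fun h => S (Nat.bits x, h))
      (p.eval (Nat.bits x).length) []

open Classical in
/-- The first `t` answers (latest first) in a computation with oracle `O` whose next query after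
the answers `r` is `δ r`. -/
noncomputable def replies {κ : Ty} (O : Set κ.El) (δ : List Bool → κ.El) : ℕ → List Bool
  | 0 => []
  | t + 1 => decide (δ (replies O δ t) ∈ O) :: replies O δ t

/-- The property `L` is decidable, relative to `A`, in polynomial time with at most `k(n)`
(adaptive) queries to an oracle in `Σ_j^p`, where `n` is the size of the input: the class
`P^{Σ_j^p}[k(n)]`. -/
def InBoundedQuery {ι : Ty} (A : Set ι.El) (j : ℕ) (k : ℕ → ℕ) (a : Ty) (L : a.El → Prop) : Prop :=
  ∃ (κ : Ty) (O : Set κ.El) (δ : a.El × List Bool → κ.El) (e : a.El × List Bool → Bool),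
    InSigma A j κ (fun q => q ∈ O) ∧ PF A (.prod a .word) κ δ ∧ PF A (.prod a .word) .bool e ∧
    ∀ v, L v ↔ e (v, replies O (fun r => δ (v, r)) (k (a.size v))) = true

/-- `Δ_{j+1}^p = P^{Σ_j^p}` relative to `A`: polynomially many queries. -/
def InDelta {ι : Ty} (A : Set ι.El) (j : ℕ) (a : Ty) (L : a.El → Prop) : Prop :=
  ∃ k : Polynomial ℕ, InBoundedQuery A j (fun n => k.eval n) a L

/-- `Θ_{j+1}^p = P^{Σ_j^p}[O(log n)]` relative to `A`: logarithmically many queries. -/
def InTheta {ι : Ty} (A : Set ι.El) (j : ℕ) (a : Ty) (L : a.El → Prop) : Prop :=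
  ∃ c : ℕ, InBoundedQuery A j (fun n => c * (Nat.log 2 n + 1)) a L

end Pool.Agent.Lib.MP_2b5695_lc.Alg
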