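import Pool.Agent.Lib.MP_2b5695_lc.Alg.Words

/-!
Coding of objects by words.
-/

namespace Pool.Agent.Lib.MP_2b5695_lc.Alg

variable {ι : Ty} {A : Set ι.El} {a b c d : Ty}

/-- the word of a sequence of pairs of bits -/
def flat (l : List (Bool × Bool)) : List Bool := l.flatMap fun s => [s.1, s.2]

/-- one step of the inverse, from the right -/
def pairStep (b : Bool) (s : List Bool × List (Bool × Bool)) : List Bool × List (Bool × Bool) :=
  bif s.1.isEmpty then ([b], s.2) else ([], (b, s.1.headD false) :: s.2)

/-- the inverse of `flat` -/
def unflat (w : List Bool) : List (Bool × Bool) := (w.foldr pairStep ([], [])).2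

theorem foldr_flat (l : List (Bool × Bool)) : (flat l).foldr pairStep ([], []) = ([], l) := by
  induction l with
  | nil => rfl
  | cons s l ih =>
    have : flat (s :: l) = s.1 :: s.2 :: flat l := rfl
    rw [this, List.foldr_cons, List.foldr_cons, ih]
    rfl

theorem unflat_flat (l : List (Bool × Bool)) : unflat (flat l) = l := by
  rw [unflat, foldr_flat]

/-- a sequence of words, each followed by an end mark -/
def joinS (ws : List (List Bool)) : List (Bool × Bool) :=
  ws.flatMap fun w => w.map (fun b => (true, b)) ++ [(false, false)]

/-- one step of the inverse, from the right -/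
def splitStep (s : Bool × Bool) (r : List (List Bool)) : List (List Bool) :=
  bif s.1 then (bif r.isEmpty then [] else (s.2 :: r.headD []) :: r.tail) else [] :: r

/-- the inverse of `joinS` -/
def splitS (l : List (Bool × Bool)) : List (List Bool) := l.foldr splitStep []

theorem foldr_split (w u : List Bool) (ws : List (List Bool)) :
    (w.map (fun b => (true, b))).foldr splitStep (u :: ws) = (w ++ u) :: ws := by
  induction w with
  | nil => rfl
  | cons b w ih =>
    rw [List.map_cons, List.foldr_cons, ih]
    rfl

theorem splitS_joinS (ws : List (List Bool)) : splitS (joinS ws) = ws := by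
  induction ws with
  | nil => rfl
  | cons w ws ih =>
    have h : joinS (w :: ws) = w.map (fun b => (true, b)) ++ ((false, false) :: joinS ws) := by
      simp [joinS]
    have h2 : splitS ((false, false) :: joinS ws) = [] :: ws := by
      rw [splitS, List.foldr_cons]
      change splitStep (false, false) (splitS (joinS ws)) = _
      rw [ih]; rfl
    rw [h, splitS, List.foldr_append]
    change List.foldr splitStep (splitS ((false, false) :: joinS ws)) _ = _
    rw [h2, foldr_split, List.append_nil]

/-- the code of an object -/
def enc : (a : Ty) → a.El → List Bool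
  | .bool, b => [b]
  | .prod a b, v => flat (joinS [enc a v.1, enc b v.2])
  | .list a, l => flat (joinS (l.map (enc a)))

/-- decoding -/
def dec : (a : Ty) → List Bool → a.El
  | .bool, w => w.headD false
  | .prod a b, w => (dec a ((splitS (unflat w)).headD []), dec b ((splitS (unflat w)).tail.headD []))
  | .list a, w => (splitS (unflat w)).map (dec a)

theorem dec_enc : ∀ (a : Ty) (v : a.El), dec a (enc a v) = v
  | .bool, b => rfl
  | .prod a b, v => by
    rw [enc, dec, unflat_flat, splitS_joinS]
    simp only [List.headD_cons, List.tail_cons]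
    rw [dec_enc a, dec_enc b]
  | .list a, l => by
    rw [enc, dec, unflat_flat, splitS_joinS, List.map_map]
    have : dec a ∘ enc a = id := funext fun v => dec_enc a v
    rw [this, List.map_id]

theorem PF.flat {f : a.El → List (Bool × Bool)} (hf : PF A a (.list (.prod .bool .bool)) f) :
    PF A a .word (fun v => flat (f v)) := by
  have h : PF A (.prod (.prod .bool .bool) a) .word (fun v => [v.1.1, v.1.2]) :=
    (PF.fst _ _).fst'.cons' ((PF.fst _ _).snd'.cons' (PF.nil _ _))
  exact PF.flatMap hf h

theorem PF.joinS {f : a.El → List (List Bool)} (hf : PF A a (.list .word) f) :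
    PF A a (.list (.prod .bool .bool)) (fun v => joinS (f v)) := by
  have h1 : PF A (.prod .word a) (.list (.prod .bool .bool))
      (fun v => (v.1.map fun b => (true, b))) :=
    PF.map (b := .bool) (c := .prod .bool .bool) (φ := fun v => (true, v.1)) (PF.fst .word a)
      ((PF.tt _).pair (PF.fst _ _))
  have h : PF A (.prod .word a) (.list (.prod .bool .bool))
      (fun v => (v.1.map fun b => (true, b)) ++ [(false, false)]) :=
    h1.append (((PF.ff _).pair (PF.ff _)).cons' (PF.nil _ _))
  exact PF.flatMap hf h

theorem PF.unflat {f : a.El → List Bool} (hf : PF A a .word f) :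
    PF A a (.list (.prod .bool .bool)) (fun v => unflat (f v)) := by
  have hp : PF A (.prod .bool (.prod .word (.prod a (.prod .word (.list (.prod .bool .bool))))))
      .word (fun v => v.2.2.2.1) := (PF.snd _ _).snd'.snd'.fst'
  have hq : PF A (.prod .bool (.prod .word (.prod a (.prod .word (.list (.prod .bool .bool))))))
      (.list (.prod .bool .bool)) (fun v => v.2.2.2.2) := (PF.snd _ _).snd'.snd'.snd'
  have hh : PF A (.prod .bool (.prod .word (.prod a (.prod .word (.list (.prod .bool .bool))))))
      (.prod .word (.list (.prod .bool .bool)))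
      (fun v => pairStep v.1 v.2.2.2) :=
    hp.isEmpty.cond' (((PF.fst _ _).cons' (PF.nil _ _)).pair hq)
      ((PF.nil _ _).pair (((PF.fst _ _).pair (hp.headD (PF.ff _))).cons' hq))
  have h1 : PF A a (.prod .word (.list (.prod .bool .bool)))
      (fun v => (f v).foldr pairStep ([], [])) := by
    refine PF.rec' (f := fun v => v.1.foldr pairStep ([], [])) hf ((PF.nil _ _).pair (PF.nil _ _))
      hh (fun s => rfl) (fun e l s => rfl) 5 fun e l s r => ?_
    rcases r with ⟨r1, r2⟩
    simp only [size_prod, size_word, Polynomial.eval_ofNat]
    cases r1 with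
    | nil => simp [pairStep]; omega
    | cons x t =>
      simp only [pairStep, List.isEmpty_cons, cond_false, List.length_nil, List.headD_cons]
      rw [size_cons (a := .prod .bool .bool)]
      simp only [size_prod, size_bool]
      omega
  exact h1.snd'

theorem size_tail_le (l : List a.El) : Ty.size (.list a) l.tail ≤ Ty.size (.list a) l := by
  cases l with
  | nil => exact le_refl _
  | cons x t => rw [List.tail_cons, size_cons]; omega

theorem PF.splitS {f : a.El → List (Bool × Bool)} (hf : PF A a (.list (.prod .bool .bool)) f) :
    PF A a (.list .word) (fun v => splitS (f v)) := by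
  have hs : PF A (.prod (.prod .bool .bool) (.prod (.list (.prod .bool .bool))
      (.prod a (.list .word)))) (.list .word) (fun v => v.2.2.2) := (PF.snd _ _).snd'.snd'
  have hh : PF A (.prod (.prod .bool .bool) (.prod (.list (.prod .bool .bool))
      (.prod a (.list .word)))) (.list .word) (fun v => splitStep v.1 v.2.2.2) :=
    (PF.fst _ _).fst'.cond' (hs.isEmpty.cond' (PF.nil _ _)
      (((PF.fst _ _).snd'.cons' (hs.headD (PF.nil _ _))).cons' hs.tail))
      ((PF.nil _ _).cons' hs)
  refine PF.rec' (f := fun v => v.1.foldr splitStep []) hf (PF.nil _ _)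
      hh (fun s => rfl) (fun e l s => rfl) 2 fun e l s r => ?_
  rcases e with ⟨e1, e2⟩
  simp only [Polynomial.eval_ofNat]
  cases e1 with
  | false => 
    simp only [splitStep, cond_false]
    rw [size_cons (a := .word), size_word]
    simp only [List.length_nil]
    omega
  | true =>
    cases r with
    | nil => simp [splitStep]
    | cons x t =>
      simp only [splitStep, cond_true, List.isEmpty_cons, cond_false, List.headD_cons,
        List.tail_cons]
      rw [size_cons (a := .word), size_cons (a := .word), size_word, size_word, List.length_cons]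
      omega

theorem PF.enc : ∀ (b : Ty) {a : Ty} {f : a.El → b.El}, PF A a b f →
    PF A a .word (fun v => enc b (f v))
  | .bool, _, _, hf => hf.cons' (PF.nil _ _)
  | .prod b c, _, _, hf =>
    PF.flat (PF.joinS ((PF.enc b hf.fst').cons' ((PF.enc c hf.snd').cons' (PF.nil _ _))))
  | .list b, _, _, hf =>
    PF.flat (PF.joinS (PF.map (b := b) (c := .word) (φ := fun v => Alg.enc b v.1) hf
      (PF.enc b (PF.fst _ _))))

theorem PF.dec : ∀ (b : Ty) {a : Ty} {f : a.El → List Bool}, PF A a .word f →
    PF A a b (fun v => dec b (f v))
  | .bool, _, _, hf => hf.headD (PF.ff _)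
  | .prod b c, _, _, hf =>
    (PF.dec b (((PF.unflat hf).splitS).headD (PF.nil _ _))).pair
      (PF.dec c (((PF.unflat hf).splitS).tail.headD (PF.nil _ _)))
  | .list b, _, _, hf =>
    PF.map (b := .word) (c := b) (φ := fun v => Alg.dec b v.1) ((PF.unflat hf).splitS)
      (PF.dec b (PF.fst _ _))

end Pool.Agent.Lib.MP_2b5695_lc.Alg
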