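import Pool.Agent.Lib.MP_2b5695_lc.Alg.Collapse

/-!
If all optimization problems in `Π_i` are computed by type 1 counterexample computations, then
`Δ_{i+2} = Θ_{i+2}`: the proof.
-/

namespace Pool.Agent.Lib.MP_2b5695_lc.Alg

variable {ι : Ty} {A : Set ι.El} {a b c d κ μ β β₁ β₂ : Ty}

theorem Setup.eb_poly (D : Setup μ β₁ β₂) :
    ∃ E : Polynomial ℕ, ∀ x, D.eb x = E.eval (Nat.bits x).length := by
  refine ⟨3 + 2 * Polynomial.X + (D.p₁.comp (D.pS.comp (2 * Polynomial.X +
    D.p * (2 * Polynomial.X + 2))) + Polynomial.C (β₁.size β₁.default)) +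
    (D.p₂.comp (2 * Polynomial.X + 2 * D.pS.comp (2 * Polynomial.X +
    D.p * (2 * Polynomial.X + 2))) + Polynomial.C (β₂.size β₂.default)), fun x => ?_⟩
  simp only [Setup.eb, Setup.mb, Polynomial.eval_add, Polynomial.eval_mul, Polynomial.eval_X,
    Polynomial.eval_ofNat, Polynomial.eval_C, Polynomial.eval_comp]

/-- the input as a number -/
def inN (pad : Polynomial ℕ) (v : a.El) : ℕ := val (inW pad v)

theorem bits_inN (pad : Polynomial ℕ) (v : a.El) : Nat.bits (inN pad v) = inW pad v :=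
  bits_append_true _

section

variable {D : Setup μ β₁ β₂} {e : a.El × List Bool → Bool} {pad EB P : Polynomial ℕ}
  {W : a.El → List Bool}

theorem mem_newOracle (hcost : D.cost = costW β) (hEB : ∀ x, D.eb x = EB.eval (Nat.bits x).length)
    (hP : ∀ (v : a.El) (r : List Bool) (es : List (Ty.entry β₁ β₂).El), D.Good (inN pad v) es →
      Ty.size (.list (.entry β₁ β₂)) es ≤ P.eval (Ty.size (.prod a .word) (v, r)))
    (v : a.El) (r : List Bool) :
    (v, r) ∈ newOracle D.S e β D.O D.R₁ D.LC D.R₂ (inW pad) W EB P ↔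
      ∃ es, D.Good (inN pad v) es ∧ cond D.S e β (inW pad v) (W v) v r es = true := by
  rw [newOracle, Set.mem_ofPred_eq]
  simp only [Bool.and_eq_true, List.all_eq_true, decide_eq_true_eq]
  constructor
  · rintro ⟨es, -, ⟨h1, h2⟩, h3⟩
    refine ⟨es, ⟨?_, ?_⟩, h1⟩
    · rw [Setup.Leg, bits_inN, hcost]; exact h3
    · intro t ht
      rw [hEB, bits_inN]
      exact h2 t ht
  · rintro ⟨es, h1, h2⟩
    refine ⟨es, hP v r es h1, ⟨h2, ?_⟩, ?_⟩
    · intro t ht
      have := h1.2 t ht
      rw [hEB, bits_inN] at this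
      exact this
    · have := h1.1
      rw [Setup.Leg, bits_inN, hcost] at this
      exact this

theorem mem_low (hcost : D.cost = costW β) (hEB : ∀ x, D.eb x = EB.eval (Nat.bits x).length)
    (hP : ∀ (v : a.El) (r : List Bool) (es : List (Ty.entry β₁ β₂).El), D.Good (inN pad v) es →
      Ty.size (.list (.entry β₁ β₂)) es ≤ P.eval (Ty.size (.prod a .word) (v, r)))
    (v : a.El) (r : List Bool) (hr : r.length < (W v).length) :
    (v, r) ∈ newOracle D.S e β D.O D.R₁ D.LC D.R₂ (inW pad) W EB P ↔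
      2 ^ ((W v).length - (r.length + 1)) * (2 * val r + 1) ≤ D.K (inN pad v) := by
  rw [mem_newOracle hcost hEB hP, ← val_thr, ← Setup.reach_iff, Setup.Reach]
  refine exists_congr fun es => and_congr_right fun _ => ?_
  rw [cond, decide_eq_true (by omega : r.length + 1 ≤ (W v).length), cond_true, leCount_iff]

theorem mem_high (hcost : D.cost = costW β) (hEB : ∀ x, D.eb x = EB.eval (Nat.bits x).length)
    (hP : ∀ (v : a.El) (r : List Bool) (es : List (Ty.entry β₁ β₂).El), D.Good (inN pad v) es →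
      Ty.size (.list (.entry β₁ β₂)) es ≤ P.eval (Ty.size (.prod a .word) (v, r)))
    (v : a.El) (l r : List Bool) (hr : r.length = (W v).length) (hK : val r = D.K (inN pad v))
    (L : Prop) (hL : ∀ y, Optimal D.C D.ρ (inN pad v) y →
      (e (v, (blocksOf β (Nat.bits y)).map Prod.fst) = true ↔ L)) :
    (v, l ++ r) ∈ newOracle D.S e β D.O D.R₁ D.LC D.R₂ (inW pad) W EB P ↔ L := by
  have h1 : ∀ es : List (Ty.entry β₁ β₂).El,
      cond D.S e β (inW pad v) (W v) v (l ++ r) es = true ↔
      (D.terminal (inN pad v) es = true ∧ D.K (inN pad v) ≤ (cnt es).length ∧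
        e (v, (blocksOf β (Nat.bits (val (D.move (inN pad v) es).2.2))).map Prod.fst) = true) := by
    intro es
    have h2 : (l ++ r).drop ((l ++ r).drop (W v).length).length = r := by
      rw [List.length_drop, List.length_append, hr, Nat.add_sub_cancel]
      exact List.drop_left
    have h3 : decide ((l ++ r).length + 1 ≤ (W v).length) = false := by
      rw [List.length_append, hr]
      exact decide_eq_false (by omega)
    rw [cond, h3, cond_false, h2, Bool.and_eq_true, Bool.and_eq_true, leCount_iff, hK,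
      Setup.terminal, Setup.move, bits_inN, norm_eq]
  rw [mem_newOracle hcost hEB hP]
  constructor
  · rintro ⟨es, h2, h3⟩
    obtain ⟨h4, h5, h6⟩ := (h1 es).1 h3
    exact (hL _ (Setup.terminal_optimal h2 h4 h5)).1 h6
  · intro h
    obtain ⟨es, h2, h3⟩ : D.Reach (inN pad v) (D.K (inN pad v)) := Setup.reach_iff.2 le_rfl
    obtain ⟨es', h4, h5, h6⟩ := Setup.exists_terminal _ es le_rfl h2 h3
    refine ⟨es', h4, (h1 es').2 ⟨h6, h5, ?_⟩⟩
    exact (hL _ (Setup.terminal_optimal h4 h6 h5)).2 h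

open Classical in
/-- The new computation is correct. -/
theorem correct (hcost : D.cost = costW β) (hEB : ∀ x, D.eb x = EB.eval (Nat.bits x).length)
    (hP : ∀ (v : a.El) (r : List Bool) (es : List (Ty.entry β₁ β₂).El), D.Good (inN pad v) es →
      Ty.size (.list (.entry β₁ β₂)) es ≤ P.eval (Ty.size (.prod a .word) (v, r)))
    (v : a.El) (s : ℕ) (hKlt : D.K (inN pad v) < 2 ^ (W v).length) (L : Prop)
    (hL : ∀ y, Optimal D.C D.ρ (inN pad v) y →
      (e (v, (blocksOf β (Nat.bits y)).map Prod.fst) = true ↔ L)) :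
    L ↔ (replies (newOracle D.S e β D.O D.R₁ D.LC D.R₂ (inW pad) W EB P) (fun r => (v, r))
      ((W v).length + (s + 1))).headD false = true := by
  have h1 := bsearch (O := newOracle D.S e β D.O D.R₁ D.LC D.R₂ (inW pad) W EB P)
    (δ := fun r => (v, r)) hKlt (fun r hr => mem_low hcost hEB hP v r hr) (W v).length le_rfl
  rw [Nat.sub_self, pow_zero, Nat.div_one] at h1
  obtain ⟨l, -, h2⟩ := replies_add (newOracle D.S e β D.O D.R₁ D.LC D.R₂ (inW pad) W EB P)
    (fun r => (v, r)) (W v).length s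
  rw [← Nat.add_assoc, replies, List.headD_cons, decide_eq_true_iff, h2]
  exact (mem_high hcost hEB hP v l _ (length_replies _ _ _) h1 L hL).symm

end

theorem collapse_aux {i : ℕ} {D : Setup μ β₁ β₂} {δ : a.El × List Bool → κ.El}
    {e : a.El × List Bool → Bool} {k p : Polynomial ℕ} {R : κ.El × β.El → Prop} {O : Set κ.El}
    (hC : D.C = feasN δ k R) (hρ : D.ρ = costN β) (hcost : D.cost = costW β)
    (hδ : PF A (.prod a .word) κ δ) (he : PF A (.prod a .word) .bool e)
    (hO : InSigma A i μ (fun q => q ∈ D.O))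
    (hR₁ : InPi A i (.prod μ β₁) D.R₁) (hLC : InPi A i (.prod .word .word) D.LC)
    (hR₂ : InPi A i (.prod (.prod .word .word) β₂) D.R₂)
    (hS : PF A (.prod .word .history) (.move μ) D.S)
    (hRO : ∀ q, q ∈ O ↔ ∃ w, R (q, w)) (hRb : ∀ q w, R (q, w) → β.size w ≤ p.eval (κ.size q))
    {L : a.El → Prop}
    (hL : ∀ v, L v ↔ e (v, replies O (fun r => δ (v, r)) (k.eval (a.size v))) = true) :
    InTheta A (i + 1) a L := by
  obtain ⟨EB, hEB⟩ := D.eb_poly
  obtain ⟨pe, hpe⟩ := (PF.enc (A := A) (.list (.prod .bool β)) (PF.id _)).bound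
  obtain ⟨Q, hQ⟩ := size_trueBlocks hδ hRb
  obtain ⟨pad, hpad⟩ : ∃ pad : Polynomial ℕ,
      ∀ n, pad.eval n = pe.eval (Q.eval (n + k.eval n)) + 1 :=
    ⟨pe.comp (Q.comp (Polynomial.X + k)) + 1, fun n => by
      simp only [Polynomial.eval_add, Polynomial.eval_comp, Polynomial.eval_X,
        Polynomial.eval_one]⟩
  obtain ⟨bX, hbX⟩ := (pf_inW (A := A) (a := a) pad).bound
  obtain ⟨cW, hcW⟩ := poly_lt (D.p.comp bX)
  obtain ⟨W, hWdef⟩ : ∃ W : a.El → List Bool,
      ∀ v, W v = List.replicate (cW * (Nat.log 2 (a.size v) + 1)) true := ⟨_, fun v => rfl⟩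
  have hW : PF A a .word W :=
    (PF.mulList (f := fun _ => cW) (PF.const .word (List.replicate cW true))
      (PF.logList (PF.sizeList a))).of_eq fun v => (hWdef v).symm
  have hWl : ∀ v, (W v).length = cW * (Nat.log 2 (a.size v) + 1) := fun v => by
    rw [hWdef, List.length_replicate]
  have hlen : ∀ v : a.El, (inW pad v).length ≤ bX.eval (a.size v) := fun v => by
    have := hbX v
    rw [size_word] at this
    omega
  have hP : ∀ (v : a.El) (r : List Bool) (es : List (Ty.entry β₁ β₂).El),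
      D.Good (inN pad v) es → Ty.size (.list (.entry β₁ β₂)) es ≤
        ((D.p * (EB + 1)).comp bX).eval (Ty.size (.prod a .word) (v, r)) := by
    intro v r es h
    have h1 := size_le_mul (b := .entry β₁ β₂) es _ h.2
    have h2 := Setup.length_lt h.1
    refine h1.trans ?_
    rw [hEB]
    rw [bits_inN] at h2 ⊢
    have h3 : (inW pad v).length ≤ bX.eval (Ty.size (.prod a .word) (v, r)) :=
      (hlen v).trans (eval_mono _ (by rw [size_prod]; exact Nat.le_add_right _ _))
    rw [Polynomial.eval_comp, Polynomial.eval_mul, Polynomial.eval_add, Polynomial.eval_one]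
    exact Nat.mul_le_mul (h2.le.trans (eval_mono _ h3)) (Nat.add_le_add (eval_mono _ h3) le_rfl)
  refine ⟨cW + 1, .prod a .word,
    newOracle D.S e β D.O D.R₁ D.LC D.R₂ (inW pad) W EB ((D.p * (EB + 1)).comp bX),
    fun v => v, fun v => v.2.headD false, ?_, PF.id _, (PF.snd _ _).headD (PF.ff _),
    fun v => ?_⟩
  · exact inSigma_newOracle EB _ hO hR₁ hLC hR₂ hS he (pf_inW pad) hW
  · have hK : D.K (inN pad v) < 2 ^ (W v).length := by
      refine Setup.K_le.trans_lt ?_
      rw [bits_inN, hWl]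
      refine (eval_mono _ (hlen v)).trans_lt ?_
      rw [← Polynomial.eval_comp]
      exact hcW _
    have hopt : ∀ y, Optimal D.C D.ρ (inN pad v) y →
        (e (v, (blocksOf β (Nat.bits y)).map Prod.fst) = true ↔ L v) := by
      intro y hy
      rw [hC, hρ] at hy
      rw [optimal_answers hRO ?_ hy, hL]
      rw [hpad]
      have h1 := hpe (trueBlocks O R δ v (k.eval (a.size v)))
      rw [size_word] at h1
      have h2 := eval_mono pe (hQ O v (k.eval (a.size v)))
      omega
    have h1 := correct (e := e) (W := W) hcost hEB hP v (Nat.log 2 (a.size v)) hK (L v) hopt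
    have h2 : (W v).length + (Nat.log 2 (a.size v) + 1) =
        (cW + 1) * (Nat.log 2 (a.size v) + 1) := by
      rw [hWl]; ring
    rw [h2] at h1
    exact h1

/-- If every optimization problem with feasibility in `Π_i` is computed by a type 1
counterexample computation with a `Σ_i` oracle, then `Δ_{i+2} = Θ_{i+2}`. -/
theorem collapse {i : ℕ}
    (H : ∀ (C : ℕ → ℕ → Prop) (ρ : ℕ → ℕ), OptProblem A i C ρ → Computed A i C ρ)
    {a : Ty} {L : a.El → Prop} (h : InDelta A (i + 1) a L) : InTheta A (i + 1) a L := by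
  obtain ⟨k, κ, O, δ, e, hO, hδ, he, hL⟩ := h
  obtain ⟨β, L', p, hL', hOL⟩ := hO
  have hR : InPi A i (.prod κ β)
      (fun v => decide (β.size v.2 ≤ p.eval (κ.size v.1)) = true ∧ ¬ L' v) :=
    InPi.and (L := fun v => ¬ L' v) (InSigma.congr hL' fun v => by simp)
      (PF.sizeLE (PF.snd κ β) (PF.fst κ β) p)
  generalize hRdef : (fun v : κ.El × β.El =>
    decide (β.size v.2 ≤ p.eval (κ.size v.1)) = true ∧ ¬ L' v) = R at hR
  have hRO : ∀ q, q ∈ O ↔ ∃ w, R (q, w) := fun q => by
    rw [← hRdef]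
    simpa using hOL q
  have hRb : ∀ q w, R (q, w) → β.size w ≤ p.eval (κ.size q) := fun q w hw => by
    rw [← hRdef] at hw
    simpa using hw.1
  have hopt : OptProblem A i (feasN δ k R) (costN β) := optProblem hδ hR
  obtain ⟨μ, O', S, p', hO', hS, hens⟩ := H _ _ hopt
  obtain ⟨β₁, R₁, p₁, hR₁, hR₁b, hO'R⟩ := InSigma.witness i hO'
  have hF : InPi A i (.prod .word .word) (feasW δ k R) := inPi_feasW hδ hR
  obtain ⟨β₂, R₂, p₂, hR₂, hR₂b, hLC⟩ := InSigma.witness i hF
  obtain ⟨pS, hpS⟩ := hS.bound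
  exact collapse_aux (D := {
    C := feasN δ k R, ρ := costN β, S := S, p := p', O := O', R₁ := R₁, p₁ := p₁,
    cost := costW β, LC := feasW δ k R, R₂ := R₂, p₂ := p₂, le := hopt.le,
    hC := fun _ _ => Iff.rfl, hρ := fun _ => rfl, hO := hO'R, hR₁ := hR₁b, hLC := hLC,
    hR₂ := hR₂b, ens := hens, pS := pS, hS := hpS })
    rfl rfl rfl hδ he hO' hR₁ hF hR₂ hS hRO hRb hL

/-- The trivial inclusion. -/
theorem InTheta.inDelta {j : ℕ} {L : a.El → Prop} (h : InTheta A j a L) : InDelta A j a L := by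
  obtain ⟨c, κ, O, δ, e, hO, hδ, he, hL⟩ := h
  obtain ⟨W, hWdef⟩ : ∃ W : a.El → List Bool,
      ∀ v, W v = List.replicate (c * (Nat.log 2 (a.size v) + 1)) true := ⟨_, fun v => rfl⟩
  have hW : PF A a .word W :=
    (PF.mulList (f := fun _ => c) (PF.const .word (List.replicate c true))
      (PF.logList (PF.sizeList a))).of_eq fun v => (hWdef v).symm
  have hWl : ∀ v, (W v).length = c * (Nat.log 2 (a.size v) + 1) := fun v => by
    rw [hWdef, List.length_replicate]
  have hW' : PF A (.prod a .word) .word (fun v => W v.1) := hW.comp (PF.fst _ _)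
  refine ⟨Polynomial.C c * (Polynomial.X + 1), κ, O, δ,
    fun v => e (v.1, v.2.drop (v.2.drop (W v.1).length).length), hO, hδ,
    he.comp ((PF.fst _ _).pair (PF.drop (PF.drop hW' (PF.snd _ _)) (PF.snd _ _))), fun v => ?_⟩
  have h1 : (W v).length ≤ (Polynomial.C c * (Polynomial.X + 1)).eval (a.size v) := by
    rw [hWl]
    simp only [Polynomial.eval_mul, Polynomial.eval_C, Polynomial.eval_add, Polynomial.eval_X,
      Polynomial.eval_one]
    exact Nat.mul_le_mul_left _ (Nat.add_le_add_right (Nat.log_le_self 2 _) 1)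
  obtain ⟨s, hs⟩ := Nat.exists_eq_add_of_le h1
  obtain ⟨l, -, h2⟩ := replies_add O (fun r => δ (v, r)) (W v).length s
  have hr := length_replies O (fun r => δ (v, r)) (W v).length
  have h3 : (l ++ replies O (fun r => δ (v, r)) (W v).length).drop
      ((l ++ replies O (fun r => δ (v, r)) (W v).length).drop (W v).length).length =
      replies O (fun r => δ (v, r)) (W v).length := by
    rw [List.length_drop, List.length_append, hr, Nat.add_sub_cancel]
    exact List.drop_left
  rw [hL]
  simp only [hs, h2, h3]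
  rw [← hWl]

end Pool.Agent.Lib.MP_2b5695_lc.Alg
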