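import Pool.Agent.Lib.MP_2b5695_lc.Alg.Problem

/-!
Merkle trees: the optimization problem whose solutions are authentication paths.
-/

namespace Pool.Agent.Lib.MP_2b5695_lc.Alg

variable {ι : Ty} {A : Set ι.El} {a b c d : Ty}

theorem val_inj : ∀ {u v : List Bool}, u.length = v.length → val u = val v → u = v
  | [], [], _, _ => rfl
  | [], _ :: _, h, _ => by simp at h
  | _ :: _, [], h, _ => by simp at h
  | x :: u, y :: v, h, e => by
    rw [val, val, Nat.bit_val, Nat.bit_val] at e
    have h' : u.length = v.length := by simpa using h
    have h1 : x = y := by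
      cases x <;> cases y <;> simp at e ⊢ <;> omega
    subst h1
    rw [val_inj h' (by omega)]

/-- equality of words -/
theorem PF.wordEq {f g : a.El → List Bool} (hf : PF A a .word f) (hg : PF A a .word g) :
    PF A a .bool (fun v => decide (f v = g v)) := by
  refine (((PF.lengthLE hf hg).and' (PF.lengthLE hg hf)).and'
    ((hf.valLT hg).not'.and' (hg.valLT hf).not')).of_eq fun v => ?_
  rw [Bool.eq_iff_iff]
  simp only [Bool.and_eq_true, decide_eq_true_eq, Bool.not_eq_true', decide_eq_false_iff_not]
  constructor
  · rintro ⟨⟨h1, h2⟩, h3, h4⟩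
    exact val_inj (le_antisymm h1 h2) (by omega)
  · intro h
    rw [h]
    omega

/-- the element with the index `w` (in binary) of a list whose last element has the index `n` -/
def look (n : ℕ) (w : List Bool) : List (List Bool) → List Bool
  | [] => []
  | e :: l => bif decide (Nat.bits (n - l.length) = w) then e else look n w l

theorem PF.look {t : a.El → List (List Bool)} {u : a.El → List b.El} {w : a.El → List Bool}
    (ht : PF A a (.list .word) t) (hu : PF A a (.list b) u) (hw : PF A a .word w) :
    PF A a .word (fun v => look (u v).length (w v) (t v)) := by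
  have hn : PF A (.prod .word (.prod (.list .word) (.prod a .word))) .word
      (fun v => Nat.bits ((u v.2.2.1).length - v.2.1.length)) :=
    (PF.binLength (PF.drop (PF.snd _ _).fst' (hu.comp (PF.snd _ _).snd'.fst'))).of_eq fun v => by
      rw [List.length_drop]
  have hh : PF A (.prod .word (.prod (.list .word) (.prod a .word))) .word
      (fun v => bif decide (Nat.bits ((u v.2.2.1).length - v.2.1.length) = w v.2.2.1) then v.1
        else v.2.2.2) :=
    (hn.wordEq (hw.comp (PF.snd _ _).snd'.fst')).cond' (PF.fst _ _) (PF.snd _ _).snd'.snd'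
  refine PF.rec' (f := fun v => Alg.look (u v.2).length (w v.2) v.1) ht (PF.nil _ _) hh
    (fun s => rfl) (fun e l s => rfl) Polynomial.X fun e l s r => ?_
  simp only [Polynomial.eval_X, size_word]
  cases decide (Nat.bits ((u s).length - l.length) = w s)
  · simp only [cond_false]; omega
  · simp only [cond_true]; omega

section

variable (H : List Bool × List Bool → List Bool)

/-- the hashes of the nodes of a tree in heap order; the list starts at some index, and `n` is the
largest index -/
def tab (k : List Bool) (n : ℕ) : List (List Bool) → List (List Bool)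
  | [] => []
  | r :: l => H (k, bif ((tab k n l).drop (n - l.length - 1)).isEmpty then r else
      ((tab k n l).drop (n - l.length - 1)).headD [] ++ ((tab k n l).drop (n - l.length)).headD [])
      :: tab k n l

/-- the hash of the node computed from a leaf and an authentication path (starting at the root) -/
def cur (k r : List Bool) : List (Bool × List Bool) → List Bool
  | [] => H (k, r)
  | e :: P => H (k, bif e.1 then e.2 ++ cur k r P else cur k r P ++ e.2)

variable {H}

theorem PF.hash (hH : PF A (.prod .word .word) .word H) {f g : a.El → List Bool}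
    (hf : PF A a .word f) (hg : PF A a .word g) : PF A a .word (fun v => H (f v, g v)) :=
  hH.comp (hf.pair hg)

theorem PF.tab (hH : PF A (.prod .word .word) .word H)
    (hlen : ∀ k u, (H (k, u)).length = k.length) {k : a.El → List Bool} {u : a.El → List b.El}
    {t : a.El → List (List Bool)} (hk : PF A a .word k) (hu : PF A a (.list b) u)
    (ht : PF A a (.list .word) t) :
    PF A a (.list .word) (fun v => tab H (k v) (u v).length (t v)) := by
  obtain ⟨p, hp⟩ := hk.bound
  have hr : PF A (.prod .word (.prod (.list .word) (.prod a (.list .word)))) (.list .word)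
    (fun v => v.2.2.2) := (PF.snd _ _).snd'.snd'
  have hu' : PF A (.prod .word (.prod (.list .word) (.prod a (.list .word)))) (.list b)
      (fun v => (u v.2.2.1).drop v.2.1.length) :=
    PF.drop (PF.snd _ _).fst' (hu.comp (PF.snd _ _).snd'.fst')
  have h1 : PF A (.prod .word (.prod (.list .word) (.prod a (.list .word)))) (.list .word)
      (fun v => v.2.2.2.drop ((u v.2.2.1).length - v.2.1.length - 1)) :=
    (PF.drop hu'.tail hr).of_eq fun v => by rw [List.length_tail, List.length_drop]
  have h2 : PF A (.prod .word (.prod (.list .word) (.prod a (.list .word)))) (.list .word)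
      (fun v => v.2.2.2.drop ((u v.2.2.1).length - v.2.1.length)) :=
    (PF.drop hu' hr).of_eq fun v => by rw [List.length_drop]
  have hh : PF A (.prod .word (.prod (.list .word) (.prod a (.list .word)))) (.list .word)
      (fun v => H (k v.2.2.1,
        bif (v.2.2.2.drop ((u v.2.2.1).length - v.2.1.length - 1)).isEmpty then v.1 else
        (v.2.2.2.drop ((u v.2.2.1).length - v.2.1.length - 1)).headD [] ++
        (v.2.2.2.drop ((u v.2.2.1).length - v.2.1.length)).headD []) :: v.2.2.2) :=
    (PF.hash hH (hk.comp (PF.snd _ _).snd'.fst') (h1.isEmpty.cond' (PF.fst _ _)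
      ((h1.headD (PF.nil _ _)).append (h2.headD (PF.nil _ _))))).cons' hr
  refine PF.rec' (f := fun v => Alg.tab H (k v.2) (u v.2).length v.1) ht (PF.nil _ _) hh
    (fun s => rfl) (fun e l s => rfl) (p + 1) fun e l s r => ?_
  have h3 := hp s
  rw [size_word] at h3
  simp only [size_cons (a := .word), size_word, hlen, Polynomial.eval_add, Polynomial.eval_one]
  have h4 : p.eval (a.size s) ≤ p.eval (2 * e.length + Ty.size (.list .word) l + a.size s) :=
    eval_mono _ (Nat.le_add_left _ _)
  omega

theorem PF.cur (hH : PF A (.prod .word .word) .word H)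
    (hlen : ∀ k u, (H (k, u)).length = k.length) {k r : a.El → List Bool}
    {P : a.El → List (Bool × List Bool)} (hk : PF A a .word k) (hr : PF A a .word r)
    (hP : PF A a (.list (.prod .bool .word)) P) :
    PF A a .word (fun v => cur H (k v) (r v) (P v)) := by
  obtain ⟨p, hp⟩ := hk.bound
  have hh : PF A (.prod (.prod .bool .word) (.prod (.list (.prod .bool .word)) (.prod a .word)))
      .word (fun v => H (k v.2.2.1, bif v.1.1 then v.1.2 ++ v.2.2.2 else v.2.2.2 ++ v.1.2)) :=
    PF.hash hH (hk.comp (PF.snd _ _).snd'.fst') ((PF.fst _ _).fst'.cond'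
      ((PF.fst _ _).snd'.append (PF.snd _ _).snd'.snd')
      ((PF.snd _ _).snd'.snd'.append (PF.fst _ _).snd'))
  refine PF.rec' (f := fun v => Alg.cur H (k v.2) (r v.2) v.1) hP (PF.hash hH hk hr) hh
    (fun s => rfl) (fun e l s => rfl) p fun e l s r' => ?_
  have h3 := hp s
  rw [size_word] at h3 ⊢
  simp only [hlen]
  have h4 : p.eval (a.size s) ≤ p.eval (Ty.size (.prod .bool .word) e +
    Ty.size (.list (.prod .bool .word)) l + a.size s) := eval_mono _ (Nat.le_add_left _ _)
  omega

/-- the index of the leaf, in binary -/
def idx (P : List (Bool × List Bool)) : List Bool := (P.map Prod.fst).reverse ++ [true]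

theorem PF.idx {P : a.El → List (Bool × List Bool)} (hP : PF A a (.list (.prod .bool .word)) P) :
    PF A a .word (fun v => idx (P v)) :=
  (PF.map (b := .prod .bool .word) (c := .bool) (φ := fun v => v.1.1) hP
    (PF.fst _ _).fst').reverse.append (PF.const .word [true])

/-- the data of an instance: key, hash of the root, number of leaves -/
@[reducible] def Ty.inst : Ty := .prod .word (.prod .word .word)

/-- a leaf and an authentication path -/
@[reducible] def Ty.auth : Ty := .prod .word (.list (.prod .bool .word))

/-- the length is twice the length of `k` -/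
def len2 (k r : List Bool) : Bool :=
  decide (r.length ≤ (k ++ k).length) && decide ((k ++ k).length ≤ r.length)

/-- the length is the length of `k` -/
def len1 (k r : List Bool) : Bool := decide (r.length ≤ k.length) && decide (k.length ≤ r.length)

theorem len2_iff {k r : List Bool} : len2 k r = true ↔ r.length = 2 * k.length := by
  simp only [len2, Bool.and_eq_true, decide_eq_true_eq, List.length_append]
  omega

theorem len1_iff {k r : List Bool} : len1 k r = true ↔ r.length = k.length := by
  simp only [len1, Bool.and_eq_true, decide_eq_true_eq]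
  omega

theorem PF.len1 {f g : a.El → List Bool} (hf : PF A a .word f) (hg : PF A a .word g) :
    PF A a .bool (fun v => len1 (f v) (g v)) := (PF.lengthLE hg hf).and' (PF.lengthLE hf hg)

theorem PF.len2 {f g : a.El → List Bool} (hf : PF A a .word f) (hg : PF A a .word g) :
    PF A a .bool (fun v => len2 (f v) (g v)) :=
  (PF.lengthLE hg (hf.append hf)).and' (PF.lengthLE (hf.append hf) hg)

variable (H) in
/-- the authentication path is correct -/
def okB (x : List Bool × List Bool × List Bool) (y : List Bool × List (Bool × List Bool)) : Bool :=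
  (decide (cur H x.1 y.1 y.2 = x.2.1) && (len2 x.1 y.1 && y.2.all fun e => len1 x.1 e.2)) &&
    ((!decide (val (idx y.2) < val x.2.2)) && decide (val (idx y.2) < val (false :: x.2.2)))

theorem okB_iff {x : List Bool × List Bool × List Bool} {y : List Bool × List (Bool × List Bool)} :
    okB H x y = true ↔ cur H x.1 y.1 y.2 = x.2.1 ∧ y.1.length = 2 * x.1.length ∧
      (∀ e ∈ y.2, e.2.length = x.1.length) ∧ val x.2.2 ≤ val (idx y.2) ∧
      val (idx y.2) < 2 * val x.2.2 := by
  have h : val (false :: x.2.2) = 2 * val x.2.2 := by rw [val, Nat.bit_val]; simp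
  rw [okB, h]
  simp only [Bool.and_eq_true, decide_eq_true_eq, len2_iff, List.all_eq_true, len1_iff,
    Bool.not_eq_true', decide_eq_false_iff_not, not_lt]
  tauto

theorem PF.okB (hH : PF A (.prod .word .word) .word H)
    (hlen : ∀ k u, (H (k, u)).length = k.length) {x : a.El → Ty.inst.El} {y : a.El → Ty.auth.El}
    (hx : PF A a .inst x) (hy : PF A a .auth y) :
    PF A a .bool (fun v => okB H (x v) (y v)) := by
  have hi : PF A a .word (fun v => Alg.idx (y v).2) := PF.idx hy.snd'
  have hf : PF A a .word (fun v => false :: (x v).2.2) := (PF.ff _).cons' hx.snd'.snd'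
  have hall : PF A a .bool (fun v => (y v).2.all fun e => Alg.len1 (x v).1 e.2) :=
    PF.all (b := .prod .bool .word) (φ := fun v => Alg.len1 (x v.2).1 v.1.2) hy.snd'
      (PF.len1 (hx.comp (PF.snd _ _)).fst' (PF.fst (.prod .bool .word) a).snd')
  exact (((PF.cur hH hlen hx.fst' hy.fst' hy.snd').wordEq hx.snd'.fst').and'
    ((PF.len2 hx.fst' hy.fst').and' hall)).and'
    ((hi.valLT hx.snd'.snd').not'.and' (hi.valLT hf))

/-- the instance coded by a word -/
def decX (X : List Bool) : Ty.inst.El := (dec (.prod .inst .word) X.dropLast).1

/-- the solution coded by a word -/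
def decY (Y : List Bool) : Ty.auth.El := dec .auth Y.dropLast

theorem PF.decX {f : a.El → List Bool} (hf : PF A a .word f) :
    PF A a .inst (fun v => decX (f v)) := (PF.dec (.prod .inst .word) hf.dropLast).fst'

theorem PF.decY {f : a.El → List Bool} (hf : PF A a .word f) :
    PF A a .auth (fun v => decY (f v)) := PF.dec .auth hf.dropLast

variable (H) in
/-- feasible nonempty words -/
def feasB (X Y : List Bool) : Bool :=
  decide ((true :: Y).length ≤ X.length) && okB H (decX X) (decY Y)

theorem PF.feasB (hH : PF A (.prod .word .word) .word H)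
    (hlen : ∀ k u, (H (k, u)).length = k.length) {f g : a.El → List Bool} (hf : PF A a .word f)
    (hg : PF A a .word g) : PF A a .bool (fun v => feasB H (f v) (g v)) :=
  (PF.lengthLE ((PF.tt _).cons' hg) hf).and' (PF.okB hH hlen (PF.decX hf) (PF.decY hg))

variable (H) in
/-- feasibility -/
def hashC (x y : ℕ) : Prop := (Nat.bits y).isEmpty = true ∨ feasB H (Nat.bits x) (Nat.bits y) = true

/-- the cost, for words -/
def costI (Y : List Bool) : List Bool := bif Y.isEmpty then [] else idx (decY Y).2

/-- the cost -/
def hashρ (y : ℕ) : ℕ := val (costI (Nat.bits y))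

theorem PF.costI {f : a.El → List Bool} (hf : PF A a .word f) :
    PF A a .word (fun v => costI (f v)) :=
  hf.isEmpty.cond' (PF.nil _ _) (PF.idx (PF.decY hf).snd')

theorem optHash (hH : PF A (.prod .word .word) .word H)
    (hlen : ∀ k u, (H (k, u)).length = k.length) : OptProblem A 0 (hashC H) hashρ where
  zero x := Or.inl (by simp)
  le x y h := by
    rcases h with h | h
    · rw [List.isEmpty_iff] at h
      rw [(bits_eq_nil.1 h : y = 0)]
      exact Nat.zero_le _
    · simp only [feasB, Bool.and_eq_true, decide_eq_true_eq, List.length_cons] at h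
      exact le_of_length_lt (by omega)
  cost := ⟨costI, PF.costI (PF.id _), fun y => rfl⟩
  feas := ⟨fun Z => Z.2.isEmpty = true ∨ feasB H Z.1 Z.2 = true,
    ⟨fun Z => !(Z.2.isEmpty || feasB H Z.1 Z.2),
      ((PF.snd .word .word).isEmpty.or' (PF.feasB hH hlen (PF.fst _ _) (PF.snd _ _))).not',
      fun v => by simp⟩, fun x y => Iff.rfl⟩

end

end Pool.Agent.Lib.MP_2b5695_lc.Alg
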