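import Pool.Agent.Lib.MP_2b5695_lc.Alg.Def

/-!
Collisions of hash functions, and random words.
-/

namespace Pool.Agent.Lib.MP_2b5695_lc.Alg

/-- `z = (u, u')` is a collision of the hash function `u ↦ H (k, u)` on the words of length
`2 |k|`. -/
def IsCollision (H : List Bool × List Bool → List Bool) (k : List Bool)
    (z : List Bool × List Bool) : Prop :=
  z.1 ≠ z.2 ∧ z.1.length = 2 * k.length ∧ z.2.length = 2 * k.length ∧ H (k, z.1) = H (k, z.2)

/-- The `n` words of length `m` given by a family of bits. -/
def wordsOf {n m : ℕ} (r : Fin n → Fin m → Bool) : List (List Bool) :=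
  List.ofFn fun j => List.ofFn (r j)

open Classical in
/-- Collisions of the family `H` are found in randomized polynomial time: there is a polynomial
time algorithm `E` that, for every key `k` of every length `m`, given `k` and `q(m)` random words
of length `2 m`, gives a collision as output, except with probability at most `q(m) / 2 ^ m`. -/
def CollisionsFound {ι : Ty} (A : Set ι.El) (H : List Bool × List Bool → List Bool) : Prop :=
  ∃ (q : Polynomial ℕ) (E : List Bool × List (List Bool) → List Bool × List Bool),
    PF A (.prod .word (.list .word)) (.prod .word .word) E ∧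
    ∀ k : List Bool, (Finset.univ.filter
      fun r : Fin (q.eval k.length) → Fin (2 * k.length) → Bool =>
        ¬ IsCollision H k (E (k, wordsOf r))).card * 2 ^ k.length ≤
      q.eval k.length * Fintype.card (Fin (q.eval k.length) → Fin (2 * k.length) → Bool)

end Pool.Agent.Lib.MP_2b5695_lc.Alg
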