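import Pool.Agent.Lib.MP_2b5695_lc.Alg.HashRun
import Pool.Agent.Lib.MP_2b5695_lc.Alg.HashDef

/-!
Merkle trees: counting, and the final theorem.
-/

namespace Pool.Agent.Lib.MP_2b5695_lc.Alg

variable {ι : Ty} {A : Set ι.El} {κ : Ty} {H : List Bool × List Bool → List Bool} {k : List Bool}
  {rs rs' : List (List Bool)} {pad : Polynomial ℕ} {g : κ.El → Bool}
  {S : List Bool × Ty.history.El → (Ty.move κ).El}

/-- two lists of words that differ only at one leaf, with the same hash -/
structure Twin (H : List Bool × List Bool → List Bool) (k : List Bool)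
    (rs rs' : List (List Bool)) (i : ℕ) : Prop where
  len : rs.length = rs'.length
  hash : List.Forall₂ (fun r r' => H (k, r) = H (k, r')) rs rs'
  leaf : ∀ j, j ≠ i → rs.length ≤ j → j < 2 * rs.length → leafAt rs j = leafAt rs' j

theorem forall₂_append {α : Type} {R : α → α → Prop} {l₁ l₂ l₁' l₂' : List α}
    (h : List.Forall₂ R l₁ l₂) (h' : List.Forall₂ R l₁' l₂') :
    List.Forall₂ R (l₁ ++ l₁') (l₂ ++ l₂') := by
  induction h with
  | nil => exact h'
  | cons h _ ih => exact .cons h ih

theorem Twin.tabA {i : ℕ} (T : Twin H k rs rs' i) : tabA H k rs = tabA H k rs' := by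
  have h1 : (slots rs).length = (slots rs').length := by
    simp only [slots, List.length_append, List.length_map, List.length_tail, T.len]
  rw [Alg.tabA, Alg.tabA, h1]
  refine tab_congr k _ ?_
  rw [slots, slots]
  refine forall₂_append ?_ T.hash
  have h2 : rs.tail.map (fun _ : List Bool => ([] : List Bool)) =
      rs'.tail.map (fun _ => []) := by
    rw [List.map_const', List.map_const', List.length_tail, List.length_tail, T.len]
  rw [h2]
  exact List.forall₂_refl _

theorem Twin.inpX {i : ℕ} (T : Twin H k rs rs' i) : inpX H pad k rs = inpX H pad k rs' := by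
  rw [Alg.inpX, Alg.inpX, instA, instA, T.tabA, T.len]

theorem Twin.codeN {i j : ℕ} (T : Twin H k rs rs' i) (h : j ≠ i) (h1 : rs.length ≤ j)
    (h2 : j < 2 * rs.length) : codeN (Alg.tabA H k rs) (slots rs) (Nat.bits j) =
      codeN (Alg.tabA H k rs') (slots rs') (Nat.bits j) := by
  have h3 : (slots rs).length = (slots rs').length := by
    simp only [slots, List.length_append, List.length_map, List.length_tail, T.len]
  rw [Alg.codeN, Alg.codeN, solN, solN, look_slots h1 h2,
    look_slots (T.len ▸ h1) (T.len ▸ h2), T.leaf j h h1 h2, T.tabA, pathN_congr h3]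

theorem Twin.adv {i : ℕ} (T : Twin H k rs rs' i) (h0 : 0 < rs.length) {Y : List Bool}
    (hY : ∀ q, revQ H (Alg.inpX H pad k rs) (Nat.bits rs.length) Y = some q → val q ≠ i) :
    adv H (envA H pad k rs) Y = adv H (envA H pad k rs') Y := by
  have hv1 : (envA H pad k rs).1 = (envA H pad k rs').1 := by
    rw [envA, envA, T.inpX, T.len]
  have hv : (envA H pad k rs).1 = (Alg.inpX H pad k rs, Nat.bits rs.length) := rfl
  have hv2 : (envA H pad k rs).2 = (Alg.tabA H k rs, slots rs) := rfl
  have hv2' : (envA H pad k rs').2 = (Alg.tabA H k rs', slots rs') := rfl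
  cases hq : revQ H (Alg.inpX H pad k rs) (Nat.bits rs.length) Y with
  | none => exact adv_none (by rw [hv]; exact hq) hv1
  | some q =>
    obtain ⟨j, rfl, h1, h2, -⟩ := revQ_range hq h0
    have h3 : j ≠ i := by
      have := hY _ hq
      rwa [val_bits] at this
    rw [adv_some (v := envA H pad k rs) (q := Nat.bits j) (by rw [hv]; exact hq),
      adv_some (v := envA H pad k rs') (q := Nat.bits j) (by rw [← hv1, hv]; exact hq),
      hv2, hv2']
    simp only
    rw [T.codeN h3 h1 h2]

/-- the runs agree until the leaf `i` is revealed -/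
theorem Twin.run {i : ℕ} (T : Twin H k rs rs' i) (h0 : 0 < rs.length) (t : ℕ)
    (h : ∀ q, Rev H k rs pad g S t q → val q ≠ i) :
    hs H k rs pad g S t = hs H k rs' pad g S t := by
  induction t with
  | zero => rw [hs, hs, List.replicate_zero, histN, histN]
  | succ t ih =>
    have ih := ih fun q hq => by
      obtain ⟨τ, hτ, h1⟩ := hq
      exact h q ⟨τ, by omega, h1⟩
    have hmv : mv H k rs pad g S t = mv H k rs' pad g S t := by
      rw [mv, mv, T.inpX, ih]
    have hnew : ((mv H k rs pad g S t).1.1 && (mv H k rs pad g S t).1.2) = true →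
        ∀ q, revQ H (Alg.inpX H pad k rs) (Nat.bits rs.length)
          (norm (mv H k rs pad g S t).2.2) = some q → val q ≠ i :=
      fun hp q hq => h q ⟨t, Nat.lt_succ_self t, hp, hq⟩
    rw [hs_succ, hs_succ, ← hmv, ← ih]
    clear h ih hmv
    revert hnew
    generalize mv H k rs pad g S t = m
    intro hnew
    have hans : ans H g (envA H pad k rs) m = ans H g (envA H pad k rs') m := by
      rw [ans, ans]
      cases hp : m.1.1 && m.1.2
      · rw [cond_false, cond_false]
      · rw [cond_true, cond_true]
        exact T.adv h0 (hnew hp)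
    rw [hans]

/-- no collision is found -/
def Clean (H : List Bool × List Bool → List Bool) (k : List Bool) (rs : List (List Bool))
    (pad : Polynomial ℕ) (g : κ.El → Bool) (S : List Bool × Ty.history.El → (Ty.move κ).El) :
    Prop :=
  ∀ t < rs.length, ∀ z ∈ cands H k (Alg.tabA H k rs) (slots rs) (decY (wd H k rs pad g S t)),
    colB H k z = false

/-- the leaf `i` is guessed -/
def Guess (H : List Bool × List Bool → List Bool) (k : List Bool) (rs : List (List Bool))
    (pad : Polynomial ℕ) (g : κ.El → Bool) (S : List Bool × Ty.history.El → (Ty.move κ).El)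
    (i : ℕ) : Prop :=
  ∃ t < rs.length, (∀ q, Rev H k rs pad g S t q → val q ≠ i) ∧
    val (idx (decY (wd H k rs pad g S t)).2) = i ∧ rs.length ≤ i ∧ i < 2 * rs.length ∧
    (decY (wd H k rs pad g S t)).1 = leafAt rs i

theorem Fine.guess {O : Set κ.El} (F : Fine H pad k rs) (hg : ∀ q, g q = true ↔ q ∈ O) {n : ℕ}
    (hn : n ≤ rs.length)
    (hE : Ensures O (Answers (hashC H) hashρ (val (Alg.inpX H pad k rs)))
      (Optimal (hashC H) hashρ (val (Alg.inpX H pad k rs)))
      (fun h => S (Alg.inpX H pad k rs, h)) n [])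
    (hc : Clean H k rs pad g S) : ∃ i, Guess H k rs pad g S i := by
  obtain ⟨t₁, h1, h2⟩ := F.stops (g := g) hg n 0 hE
  obtain ⟨t, h3, h4, h5⟩ := F.jump (g := g) (S := S) (t₁ := t₁) (by omega) h2
  rw [feasB, decX_inpX, Bool.and_eq_true] at h4
  have h6 := leaf_of_ok F.hlen F.pos F.words h4.2 (hc t (by omega))
  have h7 := (okB_iff.1 h4.2).2.2.2
  simp only [instA] at h7
  rw [val_bits] at h7
  exact ⟨_, t, by omega, fun q hq => (h5 q hq).ne, rfl, h7.1, h7.2, h6⟩

theorem Twin.unique {i : ℕ} (T : Twin H k rs rs' i) (h0 : 0 < rs.length)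
    (hw : ∀ r ∈ rs, r.length = 2 * k.length) (hw' : ∀ r ∈ rs', r.length = 2 * k.length)
    (hG : Guess H k rs pad g S i) (hc' : Clean H k rs' pad g S) :
    leafAt rs i = leafAt rs' i := by
  obtain ⟨t, h1, h2, h3, h4, h5, h6⟩ := hG
  have hrun := T.run h0 t h2
  have hwd : wd H k rs' pad g S t = wd H k rs pad g S t := by
    rw [wd, wd, mv, mv, T.inpX, hrun]
  have h7 := hc' t (T.len ▸ h1) _ List.mem_cons_self
  rw [hwd] at h7
  have hidx : idx (decY (wd H k rs pad g S t)).2 = Nat.bits i := by rw [← h3, bits_idx]
  rw [hidx, look_slots (T.len ▸ h4) (T.len ▸ h5), h6] at h7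
  by_contra hne
  have hl : (leafAt rs i).length = 2 * k.length := by
    rw [leafAt, List.drop_eq_getElem_cons (by omega), List.headD_cons]
    exact hw _ (List.getElem_mem _)
  have hlen := T.len
  have hl' : (leafAt rs' i).length = 2 * k.length := by
    rw [leafAt, List.drop_eq_getElem_cons (by omega), List.headD_cons]
    exact hw' _ (List.getElem_mem _)
  have hh : H (k, leafAt rs i) = H (k, leafAt rs' i) := by
    rw [← hashAt_leaf (H := H) (k := k) h0 h4 h5,
      ← hashAt_leaf (H := H) (k := k) (T.len ▸ h0) (T.len ▸ h4) (T.len ▸ h5), hashAt, hashAt,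
      T.tabA]
  have h8 : colB H k (leafAt rs i, leafAt rs' i) = true := by
    rw [colB]
    simp only [Bool.and_eq_true, Bool.not_eq_true', decide_eq_false_iff_not,
      decide_eq_true_eq, len2_iff]
    exact ⟨⟨hne, hh⟩, hl, hl'⟩
  rw [h8] at h7
  cases h7

section counting

theorem length_wordsOf {n m : ℕ} (ρ : Fin n → Fin m → Bool) : (wordsOf ρ).length = n := by
  rw [wordsOf, List.length_ofFn]

theorem leafAt_wordsOf {n m : ℕ} (ρ : Fin n → Fin m → Bool) (j : Fin n) :
    leafAt (wordsOf ρ) (n + j) = List.ofFn (ρ j) := by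
  rw [leafAt, length_wordsOf, Nat.add_sub_cancel_left,
    List.drop_eq_getElem_cons (by rw [length_wordsOf]; exact j.2), List.headD_cons]
  simp [wordsOf]

theorem twin_wordsOf {n m : ℕ} {ρ ρ' : Fin n → Fin m → Bool} {j : Fin n}
    (h : ∀ l, l ≠ j → ρ l = ρ' l)
    (hh : H (k, List.ofFn (ρ j)) = H (k, List.ofFn (ρ' j))) :
    Twin H k (wordsOf ρ) (wordsOf ρ') (n + j) := by
  refine ⟨by rw [length_wordsOf, length_wordsOf], ?_, fun l hl h1 h2 => ?_⟩
  · rw [wordsOf, wordsOf, List.forall₂_iff_get]
    refine ⟨by simp, fun l h1 h2 => ?_⟩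
    simp only [List.get_eq_getElem, List.getElem_ofFn]
    by_cases hl : (⟨l, by simpa using h1⟩ : Fin n) = j
    · rw [hl]; exact hh
    · rw [h _ hl]
  · rw [length_wordsOf] at h1 h2
    obtain ⟨l, rfl⟩ := Nat.exists_eq_add_of_le h1
    have hln : l < n := by omega
    have e1 := leafAt_wordsOf ρ ⟨l, hln⟩
    have e2 := leafAt_wordsOf ρ' ⟨l, hln⟩
    simp only at e1 e2
    rw [e1, e2, h ⟨l, hln⟩]
    intro hc
    exact hl (by rw [← hc])

open Classical in
/-- few choices of the random words lead to a guess without collisions -/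
theorem card_bad {n : ℕ} (hn : 0 < n) (hlen : ∀ k u, (H (k, u)).length = k.length) :
    (Finset.univ.filter fun ρ : Fin n → Fin (2 * k.length) → Bool =>
      Clean H k (wordsOf ρ) pad g S ∧ ∃ i, Guess H k (wordsOf ρ) pad g S i).card *
      2 ^ k.length ≤ n * Fintype.card (Fin n → Fin (2 * k.length) → Bool) := by
  have hword : ∀ ρ : Fin n → Fin (2 * k.length) → Bool, ∀ r ∈ wordsOf ρ,
      r.length = 2 * k.length := by
    intro ρ r hr
    rw [wordsOf, List.mem_ofFn] at hr
    obtain ⟨j, rfl⟩ := hr
    rw [List.length_ofFn]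
  -- one leaf
  have hone : ∀ j : Fin n, (Finset.univ.filter fun ρ : Fin n → Fin (2 * k.length) → Bool =>
      Clean H k (wordsOf ρ) pad g S ∧ Guess H k (wordsOf ρ) pad g S (n + j)).card *
      2 ^ k.length ≤ Fintype.card (Fin n → Fin (2 * k.length) → Bool) := by
    intro j
    have hinj : (Finset.univ.filter fun ρ : Fin n → Fin (2 * k.length) → Bool =>
        Clean H k (wordsOf ρ) pad g S ∧ Guess H k (wordsOf ρ) pad g S (n + j)).card ≤
        Fintype.card ((Fin k.length → Bool) ×
          ({l : Fin n // l ≠ j} → Fin (2 * k.length) → Bool)) := by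
      rw [← Finset.card_univ (α := (Fin k.length → Bool) ×
          ({l : Fin n // l ≠ j} → Fin (2 * k.length) → Bool))]
      refine Finset.card_le_card_of_injOn (fun ρ =>
        ((fun a : Fin k.length => (H (k, List.ofFn (ρ j)))[a]'(by rw [hlen]; exact a.2)),
          fun l => ρ l.1)) (fun _ _ => Finset.mem_coe.2 (Finset.mem_univ _)) ?_
      intro ρ hρ ρ' hρ' he
      simp only [Finset.coe_filter, Finset.mem_univ, true_and, Set.mem_ofPred_eq] at hρ hρ'
      simp only [Prod.mk.injEq] at he
      obtain ⟨he1, he2⟩ := he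
      have h1 : ∀ l, l ≠ j → ρ l = ρ' l := fun l hl => congrFun he2 ⟨l, hl⟩
      have h2 : H (k, List.ofFn (ρ j)) = H (k, List.ofFn (ρ' j)) := by
        refine List.ext_getElem (by rw [hlen, hlen]) fun a ha _ => ?_
        rw [hlen] at ha
        exact congrFun he1 ⟨a, ha⟩
      have T := twin_wordsOf (H := H) (k := k) h1 h2
      have h3 := T.unique (by rw [length_wordsOf]; exact hn) (hword ρ) (hword ρ') hρ.2 hρ'.1
      rw [leafAt_wordsOf, leafAt_wordsOf] at h3
      have h4 : ρ j = ρ' j := List.ofFn_injective h3
      funext l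
      by_cases hl : l = j
      · rw [hl, h4]
      · exact h1 l hl
    have hcard : Fintype.card ((Fin k.length → Bool) ×
          ({l : Fin n // l ≠ j} → Fin (2 * k.length) → Bool)) * 2 ^ k.length =
        Fintype.card (Fin n → Fin (2 * k.length) → Bool) := by
      have hsub : Fintype.card {l : Fin n // l ≠ j} = n - 1 := by
        rw [Fintype.card_subtype_compl, Fintype.card_fin, Fintype.card_subtype_eq]
      rw [Fintype.card_prod, Fintype.card_fun, Fintype.card_fun, Fintype.card_fun,
        Fintype.card_fun, Fintype.card_fun, hsub]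
      simp only [Fintype.card_bool, Fintype.card_fin]
      obtain ⟨n', rfl⟩ := Nat.exists_eq_add_of_le' hn
      rw [Nat.add_sub_cancel, pow_succ, Nat.two_mul k.length, pow_add]
      ring
    calc _ ≤ _ := Nat.mul_le_mul_right _ hinj
      _ = _ := hcard
  have hunion : (Finset.univ.filter fun ρ : Fin n → Fin (2 * k.length) → Bool =>
      Clean H k (wordsOf ρ) pad g S ∧ ∃ i, Guess H k (wordsOf ρ) pad g S i) ⊆
      Finset.univ.biUnion fun j : Fin n =>
        (Finset.univ.filter fun ρ : Fin n → Fin (2 * k.length) → Bool =>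
          Clean H k (wordsOf ρ) pad g S ∧ Guess H k (wordsOf ρ) pad g S (n + j)) := by
    intro ρ hρ
    simp only [Finset.mem_filter, Finset.mem_univ, true_and] at hρ
    obtain ⟨h1, i, h2⟩ := hρ
    have h3 := h2
    obtain ⟨-, -, -, -, h4, h5, -⟩ := h3
    rw [length_wordsOf] at h4 h5
    rw [Finset.mem_biUnion]
    refine ⟨⟨i - n, by omega⟩, Finset.mem_univ _, ?_⟩
    simp only [Finset.mem_filter, Finset.mem_univ, true_and]
    refine ⟨h1, ?_⟩
    rwa [Nat.add_sub_cancel' h4]
  calc _ ≤ (∑ j : Fin n, (Finset.univ.filter fun ρ : Fin n → Fin (2 * k.length) → Bool =>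
          Clean H k (wordsOf ρ) pad g S ∧ Guess H k (wordsOf ρ) pad g S (n + j)).card) *
          2 ^ k.length :=
        Nat.mul_le_mul_right _ ((Finset.card_le_card hunion).trans Finset.card_biUnion_le)
    _ = ∑ j : Fin n, (Finset.univ.filter fun ρ : Fin n → Fin (2 * k.length) → Bool =>
          Clean H k (wordsOf ρ) pad g S ∧ Guess H k (wordsOf ρ) pad g S (n + j)).card *
          2 ^ k.length := Finset.sum_mul _ _ _
    _ ≤ ∑ _j : Fin n, Fintype.card (Fin n → Fin (2 * k.length) → Bool) :=
        Finset.sum_le_sum fun j _ => hone j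
    _ = _ := by rw [Finset.sum_const, Finset.card_univ, Fintype.card_fin, smul_eq_mul]

end counting

theorem colB_iff {z : List Bool × List Bool} : colB H k z = true ↔ IsCollision H k z := by
  rw [colB, IsCollision]
  simp only [Bool.and_eq_true, Bool.not_eq_true', decide_eq_false_iff_not, decide_eq_true_eq,
    len2_iff]
  tauto

theorem bits_length_le {i s : ℕ} (h : i < 2 ^ s) : (Nat.bits i).length ≤ s := by
  rw [Nat.size_eq_bits_len, Nat.size_le]; exact h

theorem size_path {P : List (Bool × List Bool)} {m : ℕ} (h : ∀ e ∈ P, e.2.length = m) :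
    Ty.size (.list (.prod .bool .word)) P = P.length * (2 * m + 2) := by
  induction P with
  | nil => rw [size_nil (a := .prod .bool .word), List.length_nil, Nat.zero_mul]
  | cons e P ih =>
    rw [size_cons (a := .prod .bool .word), ih fun e' he' => h e' (List.mem_cons_of_mem _ he'),
      size_prod, size_bool, size_word, h e List.mem_cons_self, List.length_cons]
    ring

/-- the padding -/
theorem exists_pad : ∃ pad : Polynomial ℕ, ∀ (H : List Bool × List Bool → List Bool)
    (k : List Bool) (rs : List (List Bool)), (∀ k u, (H (k, u)).length = k.length) →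
    0 < rs.length → (∀ r ∈ rs, r.length = 2 * k.length) → rs.length ≤ 2 ^ k.length →
    Fine H pad k rs := by
  obtain ⟨pe, hpe⟩ := (PF.enc (A := (∅ : Set (Ty.El .bool))) .auth (PF.id _)).bound
  refine ⟨pe.comp (4 * Polynomial.X + Polynomial.X * (2 * Polynomial.X + 2)) + 1,
    fun H k rs hlen h0 hw hL => ⟨hlen, h0, hw, fun i h1 h2 => ?_⟩⟩
  obtain ⟨-, -, h3, h4⟩ := path_props (H := H) (k := k) (rs := rs) hlen i (by omega) h2
  have h5 : (Nat.bits i).length ≤ k.length + 1 := bits_length_le (by rw [pow_succ]; omega)
  have h6 := hpe (solN (tabA H k rs) (slots rs) (Nat.bits i))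
  rw [size_word] at h6
  have hleaf : (leafAt rs i).length = 2 * k.length := by
    rw [leafAt, List.drop_eq_getElem_cons (by omega), List.headD_cons]
    exact hw _ (List.getElem_mem _)
  have h7 : Ty.auth.size (solN (tabA H k rs) (slots rs) (Nat.bits i)) ≤
      4 * k.length + k.length * (2 * k.length + 2) := by
    rw [solN, size_prod, size_word]
    simp only
    rw [look_slots h1 h2, hleaf, size_path h3]
    have h8 : (pathN (tabA H k rs) (slots rs) (Nat.bits i)).length ≤ k.length := by omega
    have := Nat.mul_le_mul_right (2 * k.length + 2) h8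
    omega
  have h8 := eval_mono pe h7
  have h9 := length_enc_prod (a := .inst) (b := .word) (instA H k rs, List.replicate
    ((pe.comp (4 * Polynomial.X + Polynomial.X * (2 * Polynomial.X + 2)) + 1).eval k.length) true)
  have h10 := length_enc_list (b := .bool) (List.replicate
    ((pe.comp (4 * Polynomial.X + Polynomial.X * (2 * Polynomial.X + 2)) + 1).eval k.length) true)
  rw [List.length_replicate] at h10
  simp only at h9
  rw [codeN, inpX, List.length_append, List.length_append, List.length_singleton]
  have h11 : (pe.comp (4 * Polynomial.X + Polynomial.X * (2 * Polynomial.X + 2)) + 1).eval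
      k.length = pe.eval (4 * k.length + k.length * (2 * k.length + 2)) + 1 := by
    simp only [Polynomial.eval_add, Polynomial.eval_comp, Polynomial.eval_mul, Polynomial.eval_X,
      Polynomial.eval_ofNat, Polynomial.eval_one]
  have h12 : (enc Ty.word (List.replicate ((pe.comp (4 * Polynomial.X + Polynomial.X *
      (2 * Polynomial.X + 2)) + 1).eval k.length) true)).length = (enc (.list .bool)
      (List.replicate ((pe.comp (4 * Polynomial.X + Polynomial.X *
      (2 * Polynomial.X + 2)) + 1).eval k.length) true)).length := rfl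
  rw [h11] at h10 h9 h12 ⊢
  omega

/-- a bound for the length of the input -/
theorem exists_inp_bound (pad : Polynomial ℕ) : ∃ b : Polynomial ℕ,
    ∀ (H : List Bool × List Bool → List Bool)
    (k : List Bool) (rs : List (List Bool)), (∀ k u, (H (k, u)).length = k.length) →
    0 < rs.length → rs.length ≤ 2 ^ k.length →
    (inpX H pad k rs).length ≤ b.eval k.length := by
  obtain ⟨pe, hpe⟩ := (PF.enc (A := (∅ : Set (Ty.El .bool))) (.prod .inst .word) (PF.id _)).bound
  refine ⟨pe.comp (6 * Polynomial.X + 2 + 2 * pad) + 1, fun H k rs hlen h0 hL => ?_⟩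
  have h1 := hpe (instA H k rs, List.replicate (pad.eval k.length) true)
  rw [size_word] at h1
  have h2 : (Nat.bits rs.length).length ≤ k.length + 1 :=
    bits_length_le (by rw [pow_succ]; have := Nat.one_le_two_pow (n := k.length); omega)
  have h3 : ((tabA H k rs).headD []).length = k.length :=
    length_hashAt (k := k) (rs := rs) hlen (i := 1) (by omega) (by omega)
  have h4 : Ty.size (.prod .inst .word) (instA H k rs, List.replicate (pad.eval k.length) true) ≤
      6 * k.length + 2 + 2 * pad.eval k.length := by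
    rw [size_prod, instA, size_prod, size_prod]
    simp only [size_word, List.length_replicate]
    omega
  have h5 := eval_mono pe h4
  rw [inpX, List.length_append, List.length_singleton]
  have h6 : (pe.comp (6 * Polynomial.X + 2 + 2 * pad) + 1).eval k.length =
      pe.eval (6 * k.length + 2 + 2 * pad.eval k.length) + 1 := by
    simp only [Polynomial.eval_add, Polynomial.eval_comp, Polynomial.eval_mul, Polynomial.eval_X,
      Polynomial.eval_ofNat, Polynomial.eval_one]
  rw [h6]
  omega

open Classical in
/-- If every optimization problem with feasibility in `P` is computed by a type 1 counterexample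
computation with an oracle in `P`, then collisions of hash functions can be found. -/
theorem collisions_found
    (h : ∀ (C : ℕ → ℕ → Prop) (ρ : ℕ → ℕ), OptProblem A 0 C ρ → Computed A 0 C ρ)
    (hH : PF A (.prod .word .word) .word H) (hlen : ∀ k u, (H (k, u)).length = k.length) :
    CollisionsFound A H := by
  obtain ⟨κ, O, S, p, ⟨g, hg, hgO⟩, hS, hens⟩ := h _ _ (optHash hH hlen)
  obtain ⟨pad, hpad⟩ := exists_pad
  obtain ⟨b, hb⟩ := exists_inp_bound pad
  refine ⟨p.comp b + 1, finder H g S pad, PF.finder hH hlen hg hS pad, fun k => ?_⟩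
  have hq : (p.comp b + 1).eval k.length = p.eval (b.eval k.length) + 1 := by
    simp only [Polynomial.eval_add, Polynomial.eval_comp, Polynomial.eval_one]
  generalize hn : (p.comp b + 1).eval k.length = n at *
  rcases le_or_gt n (2 ^ k.length) with hsmall | hbig
  · refine le_trans (Nat.mul_le_mul_right _ (Finset.card_le_card ?_))
      (card_bad (H := H) (k := k) (pad := pad) (g := g) (S := S) (n := n) (by omega) hlen)
    intro r hr
    simp only [Finset.mem_filter, Finset.mem_univ, true_and] at hr ⊢
    have hlen' := length_wordsOf r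
    have F : Fine H pad k (wordsOf r) := hpad H k (wordsOf r) hlen (by omega) (by
      intro w hw
      rw [wordsOf, List.mem_ofFn] at hw
      obtain ⟨j, rfl⟩ := hw
      rw [List.length_ofFn]) (by omega)
    have hclean : Clean H k (wordsOf r) pad g S := by
      intro t ht z hz
      by_contra hc
      rw [Bool.not_eq_false] at hc
      exact hr (colB_iff.1 (colB_pick (mem_allCands (pad := pad) (g := g) ht hz) hc))
    refine ⟨hclean, F.guess (fun q => (hgO q).symm) (n := p.eval (inpX H pad k (wordsOf r)).length)
      ?_ ?_ hclean⟩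
    · have h1 := eval_mono p (hb H k (wordsOf r) hlen (by omega) (by omega))
      omega
    · have := hens (val (inpX H pad k (wordsOf r)))
      rw [bits_inpX] at this
      exact this
  · calc _ ≤ Fintype.card (Fin n → Fin (2 * k.length) → Bool) * 2 ^ k.length :=
        Nat.mul_le_mul_right _ (Finset.card_le_univ _)
      _ ≤ _ := by rw [Nat.mul_comm]; exact Nat.mul_le_mul_right _ hbig.le

end Pool.Agent.Lib.MP_2b5695_lc.Alg
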