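import Pool.Agent.Lib.MP_2b5695_lc.Alg.HashSim

/-!
Merkle trees: the tree of the adversary.
-/

namespace Pool.Agent.Lib.MP_2b5695_lc.Alg

section look

theorem look_eq {n i : ℕ} (hi : i ≤ n) : ∀ l : List (List Bool), l.length ≤ n →
    n - l.length < i → look n (Nat.bits i) l = (l.drop (i - 1 - (n - l.length))).headD []
  | [], _, _ => by simp [look]
  | e :: l, hl, hi' => by
    rw [List.length_cons] at hl hi'
    rw [look]
    by_cases h : n - l.length = i
    · rw [h, decide_eq_true rfl, cond_true]
      have : i - 1 - (n - (e :: l).length) = 0 := by rw [List.length_cons]; omega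
      rw [this, List.drop_zero, List.headD_cons]
    · have h1 : ¬ (Nat.bits (n - l.length) = Nat.bits i) := fun hc => h (by
        rw [← val_bits (n - l.length), hc, val_bits])
      rw [decide_eq_false h1, cond_false, look_eq hi l (by omega) (by omega)]
      have : i - 1 - (n - (e :: l).length) = (i - 1 - (n - l.length)) + 1 := by
        rw [List.length_cons]; omega
      rw [this, List.drop_succ_cons]

theorem look_full {n i : ℕ} {l : List (List Bool)} (hl : l.length = n) (h0 : 0 < i) (hi : i ≤ n) :
    look n (Nat.bits i) l = (l.drop (i - 1)).headD [] := by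
  rw [look_eq hi l hl.le (by omega)]
  congr 2
  omega

end look

section

variable {H : List Bool × List Bool → List Bool}

theorem length_tab (k : List Bool) (n : ℕ) : ∀ l, (tab H k n l).length = l.length
  | [] => rfl
  | r :: l => by rw [tab, List.length_cons, List.length_cons, length_tab k n l]

theorem drop_tab (k : List Bool) (n : ℕ) : ∀ (l : List (List Bool)) (j : ℕ),
    (tab H k n l).drop j = tab H k n (l.drop j)
  | l, 0 => by simp
  | [], j + 1 => by simp [tab]
  | r :: l, j + 1 => by rw [tab, List.drop_succ_cons, List.drop_succ_cons, drop_tab k n l j]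

theorem tab_congr (k : List Bool) (n : ℕ) : ∀ {l l' : List (List Bool)},
    List.Forall₂ (fun r r' => H (k, r) = H (k, r')) l l' → tab H k n l = tab H k n l'
  | _, _, .nil => rfl
  | _, _, .cons (l₁ := l) (l₂ := l') h hl => by
    rw [tab, tab, tab_congr k n hl, hl.length_eq]
    congr 1
    cases ((tab H k n l').drop (n - l'.length - 1)).isEmpty
    · rfl
    · exact h

theorem length_slots {rs : List (List Bool)} (h : rs ≠ []) :
    (slots rs).length = 2 * rs.length - 1 := by
  rw [slots, List.length_append, List.length_map, List.length_tail]
  have := List.length_pos_of_ne_nil h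
  omega

theorem slots_drop {rs : List (List Bool)} {i : ℕ} (hi : rs.length ≤ i) (h0 : 0 < rs.length) :
    (slots rs).drop (i - 1) = rs.drop (i - rs.length) := by
  rw [slots, List.drop_append, List.length_map, List.length_tail]
  rw [List.drop_eq_nil_of_le (by rw [List.length_map, List.length_tail]; omega), List.nil_append]
  congr 1
  omega

variable (H) in
/-- the hash of the node `i` -/
def hashAt (k : List Bool) (rs : List (List Bool)) (i : ℕ) : List Bool :=
  ((tabA H k rs).drop (i - 1)).headD []

/-- the word at the leaf `i` -/
def leafAt (rs : List (List Bool)) (i : ℕ) : List Bool := (rs.drop (i - rs.length)).headD []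

variable {k : List Bool} {rs : List (List Bool)}

theorem tab_cons_eq {l : List (List Bool)} {r : List Bool} {n : ℕ} :
    (tab H k n (r :: l)).headD [] = H (k, bif (tab H k n (l.drop (n - l.length - 1))).isEmpty
      then r else (tab H k n (l.drop (n - l.length - 1))).headD [] ++
        (tab H k n (l.drop (n - l.length))).headD []) := by
  rw [tab, List.headD_cons, drop_tab, drop_tab]

theorem hashAt_leaf {i : ℕ} (h0 : 0 < rs.length) (h1 : rs.length ≤ i) (h2 : i < 2 * rs.length) :
    hashAt H k rs i = H (k, leafAt rs i) := by
  have hne : rs ≠ [] := List.ne_nil_of_length_pos h0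
  have hn := length_slots hne
  rw [hashAt, tabA, drop_tab, slots_drop h1 h0, leafAt]
  have h3 : i - rs.length < rs.length := by omega
  rw [List.drop_eq_getElem_cons h3, tab_cons_eq, List.headD_cons]
  have h4 : (List.drop (i - rs.length + 1) rs).drop ((slots rs).length -
      (List.drop (i - rs.length + 1) rs).length - 1) = [] := by
    rw [List.drop_drop, hn, List.length_drop]
    exact List.drop_eq_nil_of_le (by omega)
  rw [h4]
  rfl

theorem hashAt_node {i : ℕ} (h0 : 0 < i) (h1 : i < rs.length) :
    hashAt H k rs i = H (k, hashAt H k rs (2 * i) ++ hashAt H k rs (2 * i + 1)) := by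
  have hne : rs ≠ [] := List.ne_nil_of_length_pos (by omega)
  have hn := length_slots hne
  rw [hashAt, hashAt, hashAt, tabA]
  simp only [drop_tab]
  have h3 : i - 1 < (slots rs).length := by omega
  rw [List.drop_eq_getElem_cons h3, tab_cons_eq]
  have e1 : (List.drop (i - 1 + 1) (slots rs)).drop ((slots rs).length -
      (List.drop (i - 1 + 1) (slots rs)).length - 1) = (slots rs).drop (2 * i - 1) := by
    rw [List.drop_drop, List.length_drop]
    congr 1
    omega
  have e2 : (List.drop (i - 1 + 1) (slots rs)).drop ((slots rs).length -
      (List.drop (i - 1 + 1) (slots rs)).length) = (slots rs).drop (2 * i + 1 - 1) := by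
    rw [List.drop_drop, List.length_drop]
    congr 1
    omega
  rw [e1, e2]
  have e3 : (tab H k (slots rs).length ((slots rs).drop (2 * i - 1))).isEmpty = false := by
    rw [Bool.eq_false_iff]
    intro hc
    rw [List.isEmpty_iff, ← List.length_eq_zero_iff, length_tab, List.length_drop] at hc
    omega
  rw [e3, cond_false]

theorem length_hashAt (hlen : ∀ k u, (H (k, u)).length = k.length) {i : ℕ} (h0 : 0 < i)
    (h1 : i < 2 * rs.length) : (hashAt H k rs i).length = k.length := by
  rcases lt_or_ge i rs.length with h | h
  · rw [hashAt_node h0 h, hlen]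
  · rw [hashAt_leaf (by omega) h h1, hlen]

theorem look_tabA {i : ℕ} (h0 : 0 < i) (h1 : i < 2 * rs.length) :
    look (slots rs).length (Nat.bits i) (tabA H k rs) = hashAt H k rs i := by
  have hne : rs ≠ [] := List.ne_nil_of_length_pos (by omega)
  have hn := length_slots hne
  rw [look_full (by rw [tabA, length_tab]) h0 (by omega), hashAt]

theorem look_slots {i : ℕ} (h1 : rs.length ≤ i) (h2 : i < 2 * rs.length) :
    look (slots rs).length (Nat.bits i) (slots rs) = leafAt rs i := by
  have hne : rs ≠ [] := List.ne_nil_of_length_pos (by omega)
  have hn := length_slots hne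
  rw [look_full rfl (by omega) (by omega), leafAt, slots_drop h1 (by omega)]

/-- the hash of the root computed from the hash of a node and the path to this node -/
def curB (H : List Bool × List Bool → List Bool) (k s : List Bool) :
    List (Bool × List Bool) → List Bool
  | [] => s
  | e :: P => H (k, bif e.1 then e.2 ++ curB H k s P else curB H k s P ++ e.2)

theorem cur_eq {r : List Bool} : ∀ P, cur H k r P = curB H k (H (k, r)) P
  | [] => rfl
  | e :: P => by rw [cur, curB, cur_eq P]

theorem curB_append {s : List Bool} {Q : List (Bool × List Bool)} : ∀ P,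
    curB H k s (P ++ Q) = curB H k (curB H k s Q) P
  | [] => rfl
  | e :: P => by rw [List.cons_append, curB, curB, curB_append P]

theorem bits_step {i : ℕ} (h : 1 < i) : Nat.bits i = decide (i % 2 = 1) :: Nat.bits (i / 2) := by
  have h1 : i = Nat.bit (decide (i % 2 = 1)) (i / 2) := by
    rw [Nat.bit_val]
    rcases Nat.mod_two_eq_zero_or_one i with h2 | h2
    · rw [h2]; simp; omega
    · rw [h2]; simp; omega
  conv_lhs => rw [h1]
  exact Nat.bits_append_bit _ _ (fun h2 => absurd h2 (by omega))

theorem pathN_one {t u : List (List Bool)} : pathN t u [true] = [] := rfl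

theorem pathN_cons {t u : List (List Bool)} {e : Bool} {q : List Bool} (hq : q ≠ []) :
    pathN t u (e :: q) = pathN t u q ++ [(e, look u.length ((!e) :: q) t)] := by
  rw [pathN, scan, List.dropLast_cons_of_ne_nil, List.reverse_cons]
  · rfl
  · cases q with
    | nil => exact absurd rfl hq
    | cons x q => rw [scan]; exact List.cons_ne_nil _ _

theorem pathN_congr {t u u' : List (List Bool)} (h : u.length = u'.length) :
    ∀ q : List Bool, pathN t u q = pathN t u' q := by
  intro q
  rw [pathN, pathN]
  congr 2
  induction q with
  | nil => rfl
  | cons e q ih => rw [scan, scan, ih, h]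

theorem bits_ne_nil {i : ℕ} (h : 0 < i) : Nat.bits i ≠ [] := fun hc => by
  rw [bits_eq_nil] at hc; omega

theorem idx_append {P : List (Bool × List Bool)} {e : Bool × List Bool} :
    idx (P ++ [e]) = e.1 :: idx P := by
  simp [idx]

/-- properties of the path of the adversary -/
theorem path_props (hlen : ∀ k u, (H (k, u)).length = k.length) :
    ∀ i, 0 < i → i < 2 * rs.length →
    idx (pathN (tabA H k rs) (slots rs) (Nat.bits i)) = Nat.bits i ∧
    curB H k (hashAt H k rs i) (pathN (tabA H k rs) (slots rs) (Nat.bits i)) =
      hashAt H k rs 1 ∧
    (∀ e ∈ pathN (tabA H k rs) (slots rs) (Nat.bits i), e.2.length = k.length) ∧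
    (pathN (tabA H k rs) (slots rs) (Nat.bits i)).length + 1 = (Nat.bits i).length := by
  intro i
  induction i using Nat.strong_induction_on with
  | _ i ih =>
    intro h0 h1
    rcases Nat.lt_or_ge 1 i with h | h
    · obtain ⟨h2, h3, h4, h5⟩ := ih (i / 2) (by omega) (by omega) (by omega)
      have hq : Nat.bits (i / 2) ≠ [] := bits_ne_nil (by omega)
      rw [bits_step h, pathN_cons hq]
      have hnode := hashAt_node (H := H) (k := k) (rs := rs) (i := i / 2) (by omega) (by omega)
      have hs : look (slots rs).length ((!decide (i % 2 = 1)) :: Nat.bits (i / 2)) (tabA H k rs) =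
          hashAt H k rs (if i % 2 = 1 then i - 1 else i + 1) := by
        have : (!decide (i % 2 = 1)) :: Nat.bits (i / 2) =
            Nat.bits (if i % 2 = 1 then i - 1 else i + 1) := by
          rw [bits_step (i := if i % 2 = 1 then i - 1 else i + 1) (by split_ifs <;> omega)]
          split_ifs with h6
          · have e1 : (i - 1) / 2 = i / 2 := by omega
            have e2 : ¬ ((i - 1) % 2 = 1) := by omega
            simp [e1, e2, h6]
          · have e1 : (i + 1) / 2 = i / 2 := by omega
            have e2 : (i + 1) % 2 = 1 := by omega
            simp [e1, e2, h6]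
        rw [this]
        refine look_tabA ?_ ?_
        · split_ifs <;> omega
        · split_ifs <;> omega
      rw [hs]
      refine ⟨?_, ?_, ?_, ?_⟩
      · rw [idx_append, h2]
      · rw [curB_append]
        have : curB H k (hashAt H k rs i) [(decide (i % 2 = 1),
            hashAt H k rs (if i % 2 = 1 then i - 1 else i + 1))] = hashAt H k rs (i / 2) := by
          rw [curB, curB, hnode]
          by_cases h6 : i % 2 = 1
          · have e1 : 2 * (i / 2) = i - 1 := by omega
            have e2 : i - 1 + 1 = i := by omega
            rw [e1, e2]
            simp [h6]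
          · have e1 : 2 * (i / 2) = i := by omega
            rw [e1]
            simp [h6]
        rw [this, h3]
      · intro e he
        rcases List.mem_append.1 he with he | he
        · exact h4 e he
        · rw [List.mem_singleton.1 he]
          refine length_hashAt hlen ?_ ?_
          · split_ifs <;> omega
          · split_ifs <;> omega
      · simp only [List.length_append, List.length_cons, List.length_nil]
        omega
    · have : i = 1 := by omega
      subst this
      rw [Nat.one_bits, pathN_one]
      exact ⟨rfl, rfl, by simp, rfl⟩

/-- a correct solution without collisions has the word of the adversary at its leaf -/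
theorem leaf_of_ok (hlen : ∀ k u, (H (k, u)).length = k.length) (h0 : 0 < rs.length)
    (hrs : ∀ r ∈ rs, r.length = 2 * k.length) {y : List Bool × List (Bool × List Bool)}
    (hy : okB H (instA H k rs) y = true)
    (hc : ∀ z ∈ cands H k (tabA H k rs) (slots rs) y, colB H k z = false) :
    y.1 = leafAt rs (val (idx y.2)) := by
  rw [okB_iff] at hy
  obtain ⟨h1, h2, h3, h4, h5⟩ := hy
  simp only [instA] at h1 h2 h3 h4 h5
  rw [val_bits] at h4 h5
  have hroot : (tabA H k rs).headD [] = hashAt H k rs 1 := by
    rw [hashAt]; rfl
  rw [hroot] at h1
  have hidx : Nat.bits (val (idx y.2)) = idx y.2 := bits_append_true _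
  -- going down the path
  have key : ∀ (Q P0 : List (Bool × List Bool)), y.2 = P0 ++ Q →
      (∀ z ∈ scan (pairAt H) (k, (y, (tabA H k rs, slots rs))) Q, colB H k z = false) →
      ∀ j, val (idx y.2) < 2 ^ (Q.length + 1) * j →
      cur H k y.1 Q = hashAt H k rs (val ((P0.map Prod.fst).reverse ++ [true])) →
      H (k, y.1) = hashAt H k rs (val (idx y.2)) := by
    intro Q
    induction Q with
    | nil =>
      intro P0 hP0 _ j _ hcur
      rw [List.append_nil] at hP0
      rw [cur] at hcur
      rw [hcur, idx, hP0]
    | cons e Q ih =>
      intro P0 hP0 hcol j hj hcur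
      have hPe : y.2 = (P0 ++ [e]) ++ Q := by rw [hP0]; simp
      have hsc := hcol _ (List.mem_cons_self (a := pairAt H (e, Q, (k, (y, (tabA H k rs, slots rs))))))
      have hdrop : (idx y.2).drop (e :: Q).length = (P0.map Prod.fst).reverse ++ [true] := by
        rw [idx, hP0, List.map_append, List.reverse_append, List.append_assoc, List.drop_append,
          List.drop_eq_nil_of_le (by simp), List.nil_append]
        simp
      -- the value of the index
      have hval : val (idx y.2) / 2 ^ (e :: Q).length =
          val ((P0.map Prod.fst).reverse ++ [true]) := by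
        rw [← hdrop]
        generalize idx y.2 = w
        generalize (e :: Q).length = s
        clear * -
        induction s generalizing w with
        | zero => simp
        | succ s ih =>
          cases w with
          | nil => simp [val]
          | cons b w =>
            rw [List.drop_succ_cons, ← ih, val, Nat.bit_val, pow_succ, Nat.mul_comm (2 ^ s),
              ← Nat.div_div_eq_div_mul]
            congr 1
            cases b <;> simp <;> omega
      set J := val ((P0.map Prod.fst).reverse ++ [true]) with hJ
      have hJbits : Nat.bits J = (P0.map Prod.fst).reverse ++ [true] := bits_append_true _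
      have hJpos : 0 < J := val_append_true_pos _
      have hJlt : J < rs.length := by
        have h6 : J ≤ val (idx y.2) / 2 := by
          rw [← hval, List.length_cons, pow_succ, Nat.mul_comm (2 ^ Q.length),
            ← Nat.div_div_eq_div_mul]
          exact Nat.div_le_self _ _
        omega
      have hJ2 : Nat.bits (2 * J) = false :: Nat.bits J := by
        rw [bits_step (by omega)]
        have e1 : 2 * J / 2 = J := by omega
        have e2 : ¬ (2 * J % 2 = 1) := by omega
        rw [e1, decide_eq_false e2]
      have hJ3 : Nat.bits (2 * J + 1) = true :: Nat.bits J := by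
        rw [bits_step (by omega)]
        have e1 : (2 * J + 1) / 2 = J := by omega
        have e2 : (2 * J + 1) % 2 = 1 := by omega
        rw [e1, decide_eq_true e2]
      have hpair : pairAt H (e, Q, (k, (y, (tabA H k rs, slots rs)))) =
          (bif e.1 then e.2 ++ cur H k y.1 Q else cur H k y.1 Q ++ e.2,
            hashAt H k rs (2 * J) ++ hashAt H k rs (2 * J + 1)) := by
        rw [pairAt]
        simp only
        rw [hdrop, ← hJbits, ← hJ2, ← hJ3, look_tabA (by omega) (by omega),
          look_tabA (by omega) (by omega)]
      rw [hpair] at hsc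
      have hcurlen : ∀ Q', (cur H k y.1 Q').length = k.length := fun Q' => by
        cases Q' <;> rw [cur, hlen]
      have helen : e.2.length = k.length := h3 e (by rw [hP0]; simp)
      have hl1 := length_hashAt (k := k) (rs := rs) hlen (i := 2 * J) (by omega) (by omega)
      have hl2 := length_hashAt (k := k) (rs := rs) hlen (i := 2 * J + 1) (by omega) (by omega)
      have heq : (bif e.1 then e.2 ++ cur H k y.1 Q else cur H k y.1 Q ++ e.2) =
          hashAt H k rs (2 * J) ++ hashAt H k rs (2 * J + 1) := by
        by_contra hne
        have h7 : colB H k (bif e.1 then e.2 ++ cur H k y.1 Q else cur H k y.1 Q ++ e.2,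
            hashAt H k rs (2 * J) ++ hashAt H k rs (2 * J + 1)) = true := by
          rw [colB]
          simp only [Bool.and_eq_true, Bool.not_eq_true', decide_eq_false_iff_not,
            decide_eq_true_eq, len2_iff]
          refine ⟨⟨hne, ?_⟩, ?_, ?_⟩
          · rw [← hashAt_node (H := H) (k := k) hJpos hJlt, ← hcur, cur]
          · cases e.1 <;> simp [hcurlen, helen] <;> omega
          · rw [List.length_append, hl1, hl2]; omega
        rw [h7] at hsc
        exact Bool.noConfusion hsc
      have hnext : cur H k y.1 Q =
          hashAt H k rs (val (((P0 ++ [e]).map Prod.fst).reverse ++ [true])) := by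
        have h8 : val (((P0 ++ [e]).map Prod.fst).reverse ++ [true]) = Nat.bit e.1 J := by
          rw [List.map_append, List.reverse_append]
          simp only [List.map_cons, List.map_nil, List.reverse_singleton, List.cons_append, val]
          rfl
        rw [h8, Nat.bit_val]
        cases h9 : e.1
        · rw [h9, cond_false] at heq
          have := (List.append_inj heq (by rw [hcurlen, hl1])).1
          simpa using this
        · rw [h9, cond_true] at heq
          have := (List.append_inj heq (by rw [helen, hl1])).2
          simpa using this
      refine ih (P0 ++ [e]) hPe (fun z hz => hcol z (List.mem_cons_of_mem _ hz)) (2 * j) ?_ hnext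
      rw [List.length_cons] at hj
      calc _ < 2 ^ (Q.length + 1 + 1) * j := hj
        _ = 2 ^ (Q.length + 1) * (2 * j) := by ring
  have hfin := key y.2 [] rfl (fun z hz => hc z (List.mem_cons_of_mem _ hz)) (val (idx y.2) + 1)
    (lt_of_lt_of_le (Nat.lt_succ_self _) (Nat.le_mul_of_pos_left _ (by positivity)))
    (by rw [h1]; rfl)
  have hlk : look (slots rs).length (idx y.2) (slots rs) = leafAt rs (val (idx y.2)) := by
    rw [← hidx, val_bits, look_slots h4 (by omega)]
  have hmem := hc _ (List.mem_cons_self (a := (y.1, look (slots rs).length (idx y.2) (slots rs))))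
  rw [hlk] at hmem
  by_contra hne
  have hleaf : (leafAt rs (val (idx y.2))).length = 2 * k.length := by
    rw [leafAt, List.drop_eq_getElem_cons (by omega), List.headD_cons]
    exact hrs _ (List.getElem_mem _)
  have h7 : colB H k (y.1, leafAt rs (val (idx y.2))) = true := by
    rw [colB]
    simp only [Bool.and_eq_true, Bool.not_eq_true', decide_eq_false_iff_not,
      decide_eq_true_eq, len2_iff]
    refine ⟨⟨hne, ?_⟩, h2, hleaf⟩
    rw [hfin, hashAt_leaf h0 h4 (by omega)]
  rw [h7] at hmem
  exact Bool.noConfusion hmem

end

end Pool.Agent.Lib.MP_2b5695_lc.Alg
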