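import Pool.Agent.Lib.MP_2b5695_lc.Alg.Basic

/-!
Closure properties of the relativised polynomial hierarchy.
-/

namespace Pool.Agent.Lib.MP_2b5695_lc.Alg

variable {ι : Ty} {A : Set ι.El} {a b c d : Ty}

theorem InSigma.congr {i : ℕ} {L L' : a.El → Prop} (h : InSigma A i a L) (e : ∀ v, L v ↔ L' v) :
    InSigma A i a L' := by
  obtain rfl : L = L' := funext fun v => propext (e v)
  exact h

/-- guarded reductions -/
theorem InSigma.guard : ∀ (i : ℕ) {a b : Ty} {L : b.El → Prop} {f : a.El → b.El}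
    {c₁ c₂ : a.El → Bool}, InSigma A i b L → PF A a b f → PF A a .bool c₁ → PF A a .bool c₂ →
    InSigma A i a (fun v => c₁ v = true ∨ (c₂ v = true ∧ L (f v)))
  | 0, a, b, L, f, c₁, c₂, ⟨g, hg, hL⟩, hf, h₁, h₂ =>
    ⟨fun v => c₁ v || (c₂ v && g (f v)), h₁.or' (h₂.and' (hg.comp hf)), fun v => by
      simp only [Bool.or_eq_true, Bool.and_eq_true, hL]⟩
  | i + 1, a, b, L, f, c₁, c₂, ⟨c, L', p, hL', hL⟩, hf, h₁, h₂ => by
    obtain ⟨q, hq⟩ := hf.bound
    have hf' : PF A (.prod a c) (.prod b c) (fun v => (f v.1, v.2)) :=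
      (hf.comp (PF.fst a c)).pair (PF.snd a c)
    have hg : PF A (.prod a c) .bool (fun v => decide (c.size v.2 ≤ p.eval (b.size (f v.1)))) :=
      PF.sizeLE (PF.snd a c) (hf.comp (PF.fst a c)) p
    have h₁' : PF A (.prod a c) .bool (fun v => !(c₁ v.1)) := (h₁.comp (PF.fst a c)).not'
    have h₂' : PF A (.prod a c) .bool (fun v => c₂ v.1) := h₂.comp (PF.fst a c)
    have ih := InSigma.guard i (a := .prod a c) hL' hf' (h₁'.and' (h₂'.not'.or' hg.not')) h₁'
    refine ⟨c, _, p.comp q + Polynomial.C (c.size c.default), ih, fun v => ?_⟩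
    have hb : p.eval (b.size (f v)) ≤ (p.comp q + Polynomial.C (c.size c.default)).eval
        (a.size v) := by
      rw [Polynomial.eval_add, Polynomial.eval_comp]
      exact (eval_mono p (hq v)).trans (Nat.le_add_right _ _)
    have hd : c.size c.default ≤ (p.comp q + Polynomial.C (c.size c.default)).eval
        (a.size v) := by
      rw [Polynomial.eval_add, Polynomial.eval_C]
      exact Nat.le_add_left _ _
    beta_reduce
    rw [hL]
    constructor
    · rintro (h | ⟨h, u, hu, hn⟩)
      · refine ⟨c.default, hd, ?_⟩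
        simp [h]
      · refine ⟨u, hu.trans hb, ?_⟩
        simp [h, hu, hn]
    · rintro ⟨u, -, hn⟩
      by_cases hc : c₁ v = true
      · exact Or.inl hc
      · right
        simp only [Bool.and_eq_true, Bool.or_eq_true, Bool.not_eq_true', decide_eq_false_iff_not,
          not_or, not_and] at hn
        have hc' : c₁ v = false := by simpa using hc
        obtain ⟨h3, h4⟩ := hn
        have h3' := h3 hc'
        push Not at h3'
        exact ⟨by simpa using h3'.1, u, h3'.2, h4 hc'⟩

theorem InSigma.comp {i : ℕ} {L : b.El → Prop} {f : a.El → b.El} (hL : InSigma A i b L)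
    (hf : PF A a b f) : InSigma A i a (fun v => L (f v)) :=
  (InSigma.guard i hL hf (PF.ff a) (PF.tt a)).congr fun v => by simp

theorem InSigma.and {i : ℕ} {L : a.El → Prop} {f : a.El → Bool} (hL : InSigma A i a L)
    (hf : PF A a .bool f) : InSigma A i a (fun v => f v = true ∧ L v) :=
  (InSigma.guard i hL (PF.id a) (PF.ff a) hf).congr fun v => by simp

theorem InSigma.or {i : ℕ} {L : a.El → Prop} {f : a.El → Bool} (hL : InSigma A i a L)
    (hf : PF A a .bool f) : InSigma A i a (fun v => f v = true ∨ L v) :=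
  (InSigma.guard i hL (PF.id a) hf (PF.tt a)).congr fun v => by simp

/-- case distinction -/
theorem InSigma.ite : ∀ (i : ℕ) {a : Ty} {L₁ L₂ : a.El → Prop} {f : a.El → Bool},
    InSigma A i a L₁ → InSigma A i a L₂ → PF A a .bool f →
    InSigma A i a (fun v => bif f v then L₁ v else L₂ v)
  | 0, a, L₁, L₂, f, ⟨g₁, hg₁, hL₁⟩, ⟨g₂, hg₂, hL₂⟩, hf =>
    ⟨fun v => bif f v then g₁ v else g₂ v, hf.cond' hg₁ hg₂, fun v => by
      beta_reduce
      cases h : f v
      · exact hL₂ v
      · exact hL₁ v⟩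
  | i + 1, a, L₁, L₂, f, ⟨b₁, L₁', p₁, h₁', h₁⟩, ⟨b₂, L₂', p₂, h₂', h₂⟩, hf => by
    have e₁ := InSigma.guard (a := .prod a (.prod b₁ b₂)) i h₁'
      ((PF.fst a (.prod b₁ b₂)).pair (PF.snd a (.prod b₁ b₂)).fst')
      (PF.sizeLE (PF.snd a (.prod b₁ b₂)).fst' (PF.fst a (.prod b₁ b₂)) p₁).not'
      (PF.tt (.prod a (.prod b₁ b₂)))
    have e₂ := InSigma.guard (a := .prod a (.prod b₁ b₂)) i h₂'
      ((PF.fst a (.prod b₁ b₂)).pair (PF.snd a (.prod b₁ b₂)).snd')
      (PF.sizeLE (PF.snd a (.prod b₁ b₂)).snd' (PF.fst a (.prod b₁ b₂)) p₂).not'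
      (PF.tt (.prod a (.prod b₁ b₂)))
    have ih := InSigma.ite i e₁ e₂ (hf.comp (PF.fst a (.prod b₁ b₂)))
    refine ⟨.prod b₁ b₂, _, p₁ + p₂ + Polynomial.C (b₁.size b₁.default) +
      Polynomial.C (b₂.size b₂.default), ih, fun v => ?_⟩
    simp only [Polynomial.eval_add, Polynomial.eval_C, size_prod]
    cases hfv : f v
    · simp only [cond_false, h₂]
      constructor
      · rintro ⟨u, hu, hn⟩
        refine ⟨(b₁.default, u), by simp only; omega, ?_⟩
        simp [hu, hn]
      · rintro ⟨⟨u₁, u₂⟩, -, hn⟩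
        simp only [Bool.not_eq_true', decide_eq_false_iff_not, true_and, not_or, not_not] at hn
        exact ⟨u₂, hn.1, hn.2⟩
    · simp only [cond_true, h₁]
      constructor
      · rintro ⟨u, hu, hn⟩
        refine ⟨(u, b₂.default), by simp only; omega, ?_⟩
        simp [hu, hn]
      · rintro ⟨⟨u₁, u₂⟩, -, hn⟩
        simp only [Bool.not_eq_true', decide_eq_false_iff_not, true_and, not_or, not_not] at hn
        exact ⟨u₁, hn.1, hn.2⟩

theorem InPi.congr {i : ℕ} {L L' : a.El → Prop} (h : InPi A i a L) (e : ∀ v, L v ↔ L' v) :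
    InPi A i a L' := InSigma.congr h fun v => not_congr (e v)

theorem InPi.comp {i : ℕ} {L : b.El → Prop} {f : a.El → b.El} (hL : InPi A i b L)
    (hf : PF A a b f) : InPi A i a (fun v => L (f v)) := InSigma.comp hL hf

theorem InPi.and {i : ℕ} {L : a.El → Prop} {f : a.El → Bool} (hL : InPi A i a L)
    (hf : PF A a .bool f) : InPi A i a (fun v => f v = true ∧ L v) :=
  (InSigma.or hL hf.not').congr fun v => by
    simp only [Bool.not_eq_true', not_and]
    cases f v <;> simp

theorem InPi.or {i : ℕ} {L : a.El → Prop} {f : a.El → Bool} (hL : InPi A i a L)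
    (hf : PF A a .bool f) : InPi A i a (fun v => f v = true ∨ L v) :=
  (InSigma.and hL hf.not').congr fun v => by
    simp only [Bool.not_eq_true', not_or]
    cases f v <;> simp

theorem InPi.ite {i : ℕ} {L₁ L₂ : a.El → Prop} {f : a.El → Bool} (h₁ : InPi A i a L₁)
    (h₂ : InPi A i a L₂) (hf : PF A a .bool f) :
    InPi A i a (fun v => bif f v then L₁ v else L₂ v) :=
  (InSigma.ite i h₁ h₂ hf).congr fun v => by
    beta_reduce
    cases f v
    · rfl
    · rfl

/-- existential quantification over the elements of a list -/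
theorem InSigma.exMem : ∀ (i : ℕ) {b : Ty} {N : b.El → Prop} {a : Ty} {g : a.El → List b.El},
    InSigma A i b N → PF A a (.list b) g → InSigma A i a (fun v => ∃ e ∈ g v, N e)
  | 0, b, N, a, g, ⟨f, hf, hN⟩, hg =>
    ⟨fun v => (g v).any fun e => f e, (PF.any (φ := fun v => f v.1) hg (hf.comp (PF.fst b a))),
      fun v => by simp only [List.any_eq_true, hN]⟩
  | i + 1, b, N, a, g, ⟨c, N', p, hN', hN⟩, hg => by
    obtain ⟨q, hq⟩ := hg.bound
    -- the witness is `(k, u)` where the length of `k` is the position of the element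
    have hd : PF A (.prod a (.prod .word c)) (.list b) (fun v => (g v.1).drop v.2.1.length) :=
      PF.drop (PF.snd a (.prod .word c)).fst' (hg.comp (PF.fst a (.prod .word c)))
    have hh : PF A (.prod a (.prod .word c)) b
        (fun v => ((g v.1).drop v.2.1.length).headD b.default) :=
      hd.headD (PF.const b b.default)
    have h0 := InSigma.guard i (a := .prod a (.prod .word c)) hN'
      (hh.pair (PF.snd a (.prod .word c)).snd')
      (hd.isEmpty.or' (PF.sizeLE (PF.snd a (.prod .word c)).snd' hh p).not')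
      (PF.tt (.prod a (.prod .word c)))
    refine ⟨.prod .word c, _, p.comp q + 2 * q, h0, fun v => ?_⟩
    constructor
    · rintro ⟨e, he, hNe⟩
      obtain ⟨u, hu, hn⟩ := (hN e).1 hNe
      obtain ⟨k, hk, rfl⟩ := List.getElem_of_mem he
      have hsz : b.size (g v)[k] + 1 ≤ Ty.size (.list b) (g v) := size_mem_le he
      have hlen := length_le_size (g v)
      have hqv := hq v
      refine ⟨(List.replicate k true, u), ?_, ?_⟩
      · simp only [size_prod, size_word, List.length_replicate, Polynomial.eval_add,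
          Polynomial.eval_comp, Polynomial.eval_mul, Polynomial.eval_ofNat]
        have h1 : p.eval (b.size (g v)[k]) ≤ p.eval (q.eval (a.size v)) := eval_mono p (by omega)
        omega
      · simp only [List.length_replicate, List.drop_eq_getElem_cons hk, List.headD_cons,
          List.isEmpty_cons, Bool.false_or, Bool.not_eq_true', decide_eq_false_iff_not, true_and,
          not_or, not_not]
        exact ⟨hu, hn⟩
    · rintro ⟨⟨k, u⟩, -, hn⟩
      simp only [Bool.or_eq_true, Bool.not_eq_true', decide_eq_false_iff_not, true_and, not_or,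
        not_not] at hn
      obtain ⟨⟨h1, h2⟩, h3⟩ := hn
      cases hdr : (g v).drop k.length with
      | nil => rw [hdr] at h1; simp at h1
      | cons e t =>
        rw [hdr] at h2 h3
        refine ⟨e, ?_, (hN e).2 ⟨u, h2, h3⟩⟩
        have : e ∈ (g v).drop k.length := by rw [hdr]; exact List.mem_cons_self
        exact List.mem_of_mem_drop this

/-- universal quantification over the elements of a list -/
theorem InPi.allMem {i : ℕ} {N : b.El → Prop} {g : a.El → List b.El}
    (hN : InPi A i b N) (hg : PF A a (.list b) g) : InPi A i a (fun v => ∀ e ∈ g v, N e) :=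
  (InSigma.exMem i hN hg).congr fun v => by push Not; rfl

/-- conjunction of two properties -/
theorem InPi.and₂ {i : ℕ} {L₁ L₂ : a.El → Prop} (h₁ : InPi A i a L₁) (h₂ : InPi A i a L₂) :
    InPi A i a (fun v => L₁ v ∧ L₂ v) := by
  have h : InPi A i (.prod .bool a) (fun v => bif v.1 then L₁ v.2 else L₂ v.2) :=
    InPi.ite (h₁.comp (PF.snd _ _)) (h₂.comp (PF.snd _ _)) (PF.fst _ _)
  have hg : PF A a (.list (.prod .bool a)) (fun v => [(true, v), (false, v)]) :=
    ((PF.tt a).pair (PF.id a)).cons' (((PF.ff a).pair (PF.id a)).cons' (PF.nil _ _))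
  exact (InPi.allMem h hg).congr fun v => by simp

theorem InSigma.succ : ∀ (i : ℕ) {a : Ty} {L : a.El → Prop}, InSigma A i a L →
    InSigma A (i + 1) a L
  | 0, a, L, ⟨f, hf, hL⟩ =>
    ⟨.bool, fun v => ¬ L v.1, 1, ⟨fun v => !(f v.1), (hf.comp (PF.fst _ _)).not', fun v => by
      simp [hL]⟩, fun v => by simp⟩
  | i + 1, a, L, ⟨b, L', p, hL', hL⟩ => ⟨b, L', p, InSigma.succ i hL', hL⟩

theorem InPi.succ {i : ℕ} {L : a.El → Prop} (h : InPi A i a L) : InPi A (i + 1) a L :=
  InSigma.succ i h

/-- existential quantification of a property in `Π_i` -/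
theorem InPi.ex {i : ℕ} {R : a.El × b.El → Prop} (h : InPi A i (.prod a b) R)
    (p : Polynomial ℕ) :
    InSigma A (i + 1) a (fun v => ∃ u, b.size u ≤ p.eval (a.size v) ∧ R (v, u)) :=
  ⟨b, fun v => ¬ R v, p, h, fun v => by simp⟩

/-- witnesses for a property in `Σ_i`, checkable in `Π_i` -/
theorem InSigma.witness : ∀ (i : ℕ) {a : Ty} {L : a.El → Prop}, InSigma A i a L →
    ∃ (b : Ty) (R : a.El × b.El → Prop) (p : Polynomial ℕ), InPi A i (.prod a b) R ∧
      (∀ v u, R (v, u) → b.size u ≤ p.eval (a.size v)) ∧ ∀ v, L v ↔ ∃ u, R (v, u)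
  | 0, a, L, ⟨f, hf, hL⟩ => by
    refine ⟨.bool, fun v => L v.1, 1, ⟨fun v => !(f v.1), (hf.comp (PF.fst _ _)).not',
      fun v => by simp [hL]⟩, fun v u _ => by simp, fun v => by simp⟩
  | i + 1, a, L, ⟨b, L', p, hL', hL⟩ => by
    have h1 : InPi A (i + 1) (.prod a b) (fun v => ¬ L' v) :=
      (InSigma.succ i hL').congr fun v => by simp
    refine ⟨b, _, p, h1.and (PF.sizeLE (PF.snd a b) (PF.fst a b) p), fun v u h => ?_,
      fun v => ?_⟩
    · simpa using h.1
    · rw [hL]; simp

end Pool.Agent.Lib.MP_2b5695_lc.Alg
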