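import Pool.Agent.Lib.MP_2b5695_lc.Alg.Enc

/-!
The optimization problem of a computation with queries to an oracle in `Σ_{i+1}`: the
lexicographically largest sequence of answers for which the positive answers have witnesses.
-/

namespace Pool.Agent.Lib.MP_2b5695_lc.Alg

variable {ι : Ty} {A : Set ι.El} {a b c d κ β : Ty}

/-- apply `φ` to every element of a list together with the rest of the list -/
def scan {α γ δ : Type} (φ : α × List α × γ → δ) (s : γ) : List α → List δ
  | [] => []
  | e :: l => φ (e, l, s) :: scan φ s l

theorem PF.scan {l : a.El → List b.El} {φ : b.El × List b.El × d.El → c.El} {g : a.El → d.El}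
    (hφ : PF A (.prod b (.prod (.list b) d)) c φ) (hl : PF A a (.list b) l) (hg : PF A a d g) :
    PF A a (.list c) (fun v => scan φ (g v) (l v)) := by
  obtain ⟨p, hp⟩ := hφ.bound
  have hh : PF A (.prod b (.prod (.list b) (.prod d (.list c)))) (.list c)
      (fun v => φ (v.1, v.2.1, v.2.2.1) :: v.2.2.2) :=
    (PF.comp hφ ((PF.fst _ _).pair ((PF.snd _ _).fst'.pair (PF.snd _ _).snd'.fst'))).cons'
      (PF.snd _ _).snd'.snd'
  have h1 : PF A (.prod (.list b) d) (.list c) (fun v => Alg.scan φ v.2 v.1) := by
    refine PF.recAdd (PF.nil _ _) hh (fun s => rfl) (fun e l s => rfl) (p + 1)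
      fun e l s r => ?_
    have h1 := hp (e, l, s)
    simp only [size_prod] at h1
    simp only [size_cons, Polynomial.eval_add, Polynomial.eval_one]
    rw [← Nat.add_assoc] at h1
    omega
  exact PF.comp h1 (hl.pair hg)

theorem length_flat (l : List (Bool × Bool)) : (flat l).length = 2 * l.length := by
  induction l with
  | nil => rfl
  | cons s l ih =>
    have : flat (s :: l) = s.1 :: s.2 :: flat l := rfl
    rw [this]; simp only [List.length_cons, ih]; ring

theorem length_joinS (ws : List (List Bool)) :
    (joinS ws).length = (ws.map fun w => w.length + 1).sum := by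
  induction ws with
  | nil => rfl
  | cons w ws ih =>
    have h : joinS (w :: ws) = w.map (fun b => (true, b)) ++ ((false, false) :: joinS ws) := by
      simp [joinS]
    rw [h]; simp only [List.length_append, List.length_map, List.length_cons, ih, List.map_cons,
      List.sum_cons]; ring

theorem length_enc_list (l : List b.El) : l.length ≤ (enc (.list b) l).length := by
  rw [enc, length_flat, length_joinS]
  induction l with
  | nil => simp
  | cons e l ih => simp only [List.map_cons, List.sum_cons, List.length_cons]; omega

theorem length_enc_prod (v : a.El × b.El) : (enc b v.2).length ≤ (enc (.prod a b) v).length := by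
  rw [enc, length_flat, length_joinS]
  simp only [List.map_cons, List.map_nil, List.sum_cons, List.sum_nil]
  omega

section problem

variable (δ : a.El × List Bool → κ.El) (k : Polynomial ℕ) (R : κ.El × β.El → Prop)

/-- the query belonging to a block, from the earlier blocks -/
def blockFact (t : (Bool × β.El) × List (Bool × β.El) × a.El) : Bool × (κ.El × β.El) :=
  (t.1.1, (δ (t.2.2, t.2.1.map Prod.fst), t.1.2))

/-- the input coded by a word -/
def inputOf (X : List Bool) : a.El := (dec (.prod a .word) X.dropLast).1

/-- the blocks coded by a word -/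
def blocksOf (β : Ty) (Y : List Bool) : List (Bool × β.El) :=
  dec (.list (.prod .bool β)) Y.dropLast

/-- the blocks have the right format -/
def format (β : Ty) (Z : List Bool × List Bool) : Bool :=
  decide (Z.2.length + 1 ≤ Z.1.length) &&
  (decide ((blocksOf β Z.2).length ≤ k.eval (a.size (inputOf Z.1))) &&
   decide (k.eval (a.size (inputOf Z.1)) ≤ (blocksOf β Z.2).length))

/-- feasibility, for words -/
def feasW (Z : List Bool × List Bool) : Prop :=
  Z.2.isEmpty = true ∨ (format (a := a) k β Z = true ∧
    ∀ t ∈ scan (blockFact δ) (inputOf Z.1 : a.El) (blocksOf β Z.2), (!t.1) = true ∨ R t.2)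

/-- feasibility -/
def feasN (x y : ℕ) : Prop := feasW δ k R (Nat.bits x, Nat.bits y)

/-- the cost, for words -/
def costW (β : Ty) (Y : List Bool) : List Bool :=
  bif Y.isEmpty then [] else (blocksOf β Y).map Prod.fst ++ [true]

/-- the cost -/
def costN (β : Ty) (y : ℕ) : ℕ := val (costW β (Nat.bits y))

variable {δ k R}

theorem pf_inputOf {f : b.El → List Bool} (hf : PF A b .word f) :
    PF A b a (fun v => inputOf (f v)) := (PF.dec (.prod a .word) hf.dropLast).fst'

theorem pf_blocksOf {f : b.El → List Bool} (hf : PF A b .word f) :
    PF A b (.list (.prod .bool β)) (fun v => blocksOf β (f v)) :=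
  PF.dec (.list (.prod .bool β)) hf.dropLast

theorem pf_costW {f : b.El → List Bool} (hf : PF A b .word f) :
    PF A b .word (fun v => costW β (f v)) :=
  hf.isEmpty.cond' (PF.nil _ _) ((PF.map (b := .prod .bool β) (c := .bool)
    (φ := fun v => v.1.1) (pf_blocksOf hf) (PF.fst _ _).fst').append
    ((PF.tt _).cons' (PF.nil _ _)))

theorem pf_format : PF A (.prod .word .word) .bool (format (a := a) k β) := by
  have h1 : PF A (.prod .word .word) .bool
      (fun Z => decide (Z.2.length + 1 ≤ Z.1.length)) :=
    (PF.lengthLE ((PF.tt _).cons' (PF.snd .word .word)) (PF.fst .word .word)).of_eq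
      fun v => by simp
  have h2 : PF A (.prod .word .word) .word
      (fun Z => List.replicate (k.eval (a.size (inputOf Z.1))) true) :=
    (PF.polyList (PF.sizeList a) k).comp (pf_inputOf (PF.fst .word .word))
  have h3 : PF A (.prod .word .word) (.list (.prod .bool β)) (fun Z => blocksOf β Z.2) :=
    pf_blocksOf (PF.snd .word .word)
  refine (h1.and' ((PF.lengthLE h3 h2).and' (PF.lengthLE h2 h3))).of_eq fun v => ?_
  simp only [List.length_replicate]
  rfl

theorem inPi_feasW {i : ℕ} (hδ : PF A (.prod a .word) κ δ) (hR : InPi A i (.prod κ β) R) :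
    InPi A i (.prod .word .word) (feasW δ k R) := by
  have hb : PF A (.prod (.prod .bool β) (.prod (.list (.prod .bool β)) a))
      (.prod .bool (.prod κ β)) (blockFact δ) :=
    (PF.fst _ _).fst'.pair ((PF.comp hδ ((PF.snd _ _).snd'.pair
      (PF.map (b := .prod .bool β) (c := .bool) (φ := fun v => v.1.1) (PF.snd _ _).fst'
        (PF.fst _ _).fst'))).pair (PF.fst _ _).snd')
  have hs : PF A (.prod .word .word) (.list (.prod .bool (.prod κ β)))
      (fun Z => scan (blockFact δ) (inputOf Z.1 : a.El) (blocksOf β Z.2)) :=
    PF.scan hb (pf_blocksOf (PF.snd .word .word)) (pf_inputOf (PF.fst .word .word))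
  have hN : InPi A i (.prod .bool (.prod κ β)) (fun t => (!t.1) = true ∨ R t.2) :=
    (hR.comp (PF.snd .bool (.prod κ β))).or (PF.fst .bool (.prod κ β)).not'
  exact ((InPi.allMem hN hs).and pf_format).or (PF.snd .word .word).isEmpty

theorem optProblem {i : ℕ} (hδ : PF A (.prod a .word) κ δ) (hR : InPi A i (.prod κ β) R) :
    OptProblem A i (feasN δ k R) (costN β) where
  zero x := Or.inl (by simp)
  le x y h := by
    rcases h with h | h
    · rw [List.isEmpty_iff] at h
      rw [(bits_eq_nil.1 h : y = 0)]
      exact Nat.zero_le _
    · have h1 := h.1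
      simp only [format, Bool.and_eq_true, decide_eq_true_eq] at h1
      exact le_of_length_lt (by omega)
  cost := ⟨costW β, pf_costW (PF.id _), fun y => rfl⟩
  feas := ⟨feasW δ k R, inPi_feasW hδ hR, fun x y => Iff.rfl⟩

open Classical in
/-- feasible blocks are lexicographically at most the true answers -/
theorem blocks_le {O : Set κ.El} (hO : ∀ q w, R (q, w) → q ∈ O) (v : a.El) :
    ∀ bs : List (Bool × β.El), (∀ t ∈ scan (blockFact δ) v bs, (!t.1) = true ∨ R t.2) →
      val (bs.map Prod.fst ++ [true]) ≤ val (replies O (fun r => δ (v, r)) bs.length ++ [true]) ∧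
      (val (bs.map Prod.fst ++ [true]) = val (replies O (fun r => δ (v, r)) bs.length ++ [true]) →
        bs.map Prod.fst = replies O (fun r => δ (v, r)) bs.length)
  | [], _ => ⟨le_refl _, fun _ => rfl⟩
  | e :: bs, h => by
    have ih := blocks_le hO v bs fun t ht => h t (List.mem_cons_of_mem _ ht)
    have he := h _ (List.mem_cons_self (a := blockFact δ (e, bs, v)))
    simp only [blockFact] at he
    rw [List.length_cons, replies, List.map_cons, List.cons_append, List.cons_append, val, val]
    simp only [Nat.bit_val]
    rcases Nat.lt_or_eq_of_le ih.1 with hlt | heq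
    · constructor
      · rcases e.1 <;> rcases decide (δ (v, replies O (fun r => δ (v, r)) bs.length) ∈ O) <;>
          simp <;> omega
      · intro h'
        exfalso
        revert h'
        rcases e.1 <;> rcases decide (δ (v, replies O (fun r => δ (v, r)) bs.length) ∈ O) <;>
          simp <;> omega
    · have hl := ih.2 heq
      rw [hl] at he
      have hb : e.1 = true → decide (δ (v, replies O (fun r => δ (v, r)) bs.length) ∈ O) = true := by
        intro h1
        rw [h1] at he
        simp only [Bool.not_true, Bool.false_eq_true, false_or] at he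
        exact decide_eq_true (hO _ _ he)
      rw [heq]
      constructor
      · cases h1 : e.1
        · simp
        · rw [hb h1]
      · intro h2
        rw [hl]
        congr 1
        cases h1 : e.1
        · rw [h1] at h2
          cases h3 : decide (δ (v, replies O (fun r => δ (v, r)) bs.length) ∈ O)
          · rfl
          · rw [h3] at h2; simp at h2
        · rw [hb h1]

open Classical in
/-- the blocks of the true computation -/
noncomputable def trueBlocks (O : Set κ.El) (R : κ.El × β.El → Prop) (δ : a.El × List Bool → κ.El)
    (v : a.El) : ℕ → List (Bool × β.El)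
  | 0 => []
  | t + 1 =>
    (decide (δ (v, (trueBlocks O R δ v t).map Prod.fst) ∈ O),
      if h : ∃ w, R (δ (v, (trueBlocks O R δ v t).map Prod.fst), w) then h.choose
      else β.default) :: trueBlocks O R δ v t

theorem trueBlocks_fst (O : Set κ.El) (v : a.El) : ∀ t : ℕ,
    (trueBlocks O R δ v t).map Prod.fst = replies O (fun r => δ (v, r)) t
  | 0 => rfl
  | t + 1 => by rw [trueBlocks, List.map_cons, replies, trueBlocks_fst O v t]

theorem length_trueBlocks (O : Set κ.El) (v : a.El) : ∀ t : ℕ,
    (trueBlocks O R δ v t).length = t
  | 0 => rfl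
  | t + 1 => by rw [trueBlocks, List.length_cons, length_trueBlocks O v t]

theorem length_replies (O : Set κ.El) (δ : List Bool → κ.El) : ∀ t : ℕ,
    (replies O δ t).length = t
  | 0 => rfl
  | t + 1 => by rw [replies, List.length_cons, length_replies O δ t]

theorem trueBlocks_facts {O : Set κ.El} (hO : ∀ q, q ∈ O → ∃ w, R (q, w)) (v : a.El) :
    ∀ n : ℕ, ∀ t ∈ scan (blockFact δ) v (trueBlocks O R δ v n), (!t.1) = true ∨ R t.2
  | 0, t, h => by cases h
  | n + 1, t, h => by
    rw [trueBlocks, scan] at h
    rcases List.mem_cons.1 h with rfl | h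
    · simp only [blockFact]
      by_cases hq : δ (v, (trueBlocks O R δ v n).map Prod.fst) ∈ O
      · right
        rw [dif_pos (hO _ hq)]
        exact (hO _ hq).choose_spec
      · left
        simp [hq]
    · exact trueBlocks_facts hO v n t h

open Classical in
/-- the true blocks are small -/
theorem size_trueBlocks (hδ : PF A (.prod a .word) κ δ) {p : Polynomial ℕ}
    (hp : ∀ q w, R (q, w) → β.size w ≤ p.eval (κ.size q)) :
    ∃ Q : Polynomial ℕ, ∀ (O : Set κ.El) (v : a.El) (n : ℕ),
      Ty.size (.list (.prod .bool β)) (trueBlocks O R δ v n) ≤ Q.eval (a.size v + n) := by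
  obtain ⟨q, hq⟩ := hδ.bound
  refine ⟨Polynomial.X * (2 + Polynomial.C (β.size β.default) +
    p.comp (q.comp (2 * Polynomial.X))), fun O v n => ?_⟩
  have key : ∀ n m : ℕ, n ≤ m → Ty.size (.list (.prod .bool β)) (trueBlocks O R δ v n) ≤
      n * (2 + β.size β.default + p.eval (q.eval (2 * (a.size v + m)))) := by
    intro n m
    induction n with
    | zero => intro _; rw [trueBlocks, size_nil (a := .prod .bool β)]; exact Nat.zero_le _
    | succ n ih =>
      intro hnm
      have ih := ih (by omega)
      rw [trueBlocks]
      rw [size_cons (a := .prod .bool β), size_prod, size_bool]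
      have h1 : κ.size (δ (v, (trueBlocks O R δ v n).map Prod.fst)) ≤
          q.eval (2 * (a.size v + m)) := by
        refine (hq _).trans (eval_mono q ?_)
        rw [size_prod, size_word, List.length_map, length_trueBlocks]
        simp only
        omega
      have h2 : β.size (if h : ∃ w, R (δ (v, (trueBlocks O R δ v n).map Prod.fst), w) then h.choose
          else β.default) ≤ β.size β.default + p.eval (q.eval (2 * (a.size v + m))) := by
        split_ifs with h
        · have h3 := hp _ _ h.choose_spec
          have h4 := eval_mono p h1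
          omega
        · omega
      simp only
      rw [Nat.add_mul, Nat.one_mul]
      omega
  refine (key n n le_rfl).trans ?_
  simp only [Polynomial.eval_mul, Polynomial.eval_X, Polynomial.eval_add, Polynomial.eval_ofNat,
    Polynomial.eval_C, Polynomial.eval_comp]
  refine Nat.mul_le_mul (Nat.le_add_left _ _) ?_
  gcongr

/-- the input of the optimization problem -/
def inW (pad : Polynomial ℕ) (v : a.El) : List Bool :=
  enc (.prod a .word) (v, List.replicate (pad.eval (a.size v)) true) ++ [true]

theorem pf_inW (pad : Polynomial ℕ) : PF A a .word (inW pad : a.El → List Bool) :=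
  (PF.enc (.prod a .word) ((PF.id a).pair (PF.polyList (PF.sizeList a) pad))).append
    ((PF.tt _).cons' (PF.nil _ _))

theorem inputOf_inW (pad : Polynomial ℕ) (v : a.El) : inputOf (inW pad v) = v := by
  rw [inputOf, inW, List.dropLast_concat, dec_enc]

/-- optimal solutions give the true answers -/
theorem optimal_answers {O : Set κ.El} (hO : ∀ q, q ∈ O ↔ ∃ w, R (q, w))
    {pad : Polynomial ℕ} {v : a.El}
    (hpad : (enc (.list (.prod .bool β)) (trueBlocks O R δ v (k.eval (a.size v)))).length <
      pad.eval (a.size v)) {y : ℕ}
    (h : Optimal (feasN δ k R) (costN β) (val (inW pad v)) y) :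
    (blocksOf β (Nat.bits y)).map Prod.fst =
      replies O (fun r => δ (v, r)) (k.eval (a.size v)) := by
  have hX : Nat.bits (val (inW pad v)) = inW pad v := bits_append_true _
  set n := k.eval (a.size v) with hn
  set tb := trueBlocks O R δ v n with htb
  set Y := enc (.list (.prod .bool β)) tb ++ [true] with hY
  have hbY : Nat.bits (val Y) = Y := bits_append_true _
  have hbl : blocksOf β Y = tb := by rw [blocksOf, hY, List.dropLast_concat, dec_enc]
  have hYne : Y.isEmpty = false := by rw [hY]; simp
  have hfeas : feasN δ k R (val (inW pad v)) (val Y) := by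
    right
    rw [hX, hbY]
    refine ⟨?_, ?_⟩
    · simp only [format, inputOf_inW, hbl, Bool.and_eq_true, decide_eq_true_eq]
      refine ⟨?_, ?_, ?_⟩
      · have h1 := length_enc_prod (a := a) (b := .word) (v, List.replicate (pad.eval (a.size v)) true)
        have h2 := length_enc_list (b := .bool) (List.replicate (pad.eval (a.size v)) true)
        rw [List.length_replicate] at h2
        simp only at h1
        rw [hY, inW, List.length_append, List.length_append, List.length_singleton]
        have h3 : (enc Ty.word (List.replicate (pad.eval (a.size v)) true)).length =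
          (enc (.list .bool) (List.replicate (pad.eval (a.size v)) true)).length := rfl
        omega
      · rw [htb, length_trueBlocks]
      · rw [htb, length_trueBlocks]
    · rw [inputOf_inW, hbl]
      exact trueBlocks_facts (fun q hq => (hO q).1 hq) v n
  have hopt := h.2 _ hfeas
  have hcY : costN β (val Y) = val (replies O (fun r => δ (v, r)) n ++ [true]) := by
    rw [costN, hbY, costW, hYne, cond_false, hbl, htb, trueBlocks_fst]
  rw [hcY] at hopt
  have hpos := val_append_true_pos (replies O (fun r => δ (v, r)) n)
  rcases h.1 with h1 | h1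
  · exfalso
    simp only at h1
    rw [costN, costW, h1, cond_true] at hopt
    simp only [val] at hopt
    omega
  · obtain ⟨h1, h2⟩ := h1
    simp only [format, hX, inputOf_inW, Bool.and_eq_true, decide_eq_true_eq] at h1
    rw [hX, inputOf_inW] at h2
    have hlen : (blocksOf β (Nat.bits y)).length = n := by omega
    have h3 := blocks_le (fun q w hw => (hO q).2 ⟨w, hw⟩) v _ h2
    rw [hlen] at h3
    refine h3.2 (le_antisymm h3.1 ?_)
    have hne : (Nat.bits y).isEmpty = false := by
      by_contra hc
      rw [Bool.not_eq_false] at hc
      rw [costN, costW, hc, cond_true] at hopt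
      simp only [val] at hopt
      omega
    rw [costN, costW, hne, cond_false] at hopt
    exact hopt

end problem

end Pool.Agent.Lib.MP_2b5695_lc.Alg
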