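import Pool.Agent.Lib.MP_2b5695_lc.Alg.Problem

/-!
Transcripts of a counterexample computation in which the adversary always gives counterexamples,
with witnesses that make them checkable in `Π_i`.
-/

namespace Pool.Agent.Lib.MP_2b5695_lc.Alg

variable {ι : Ty} {A : Set ι.El} {a b c d μ β₁ β₂ : Ty}

/-- Entries of a transcript: `((b, z), (g, (f, (c₁, c₂))))`: an answer `b` with a word `z`, `g`
tells whether the entry belongs to a presentation; `f` whether the counterexample is a better
solution; `c₁`, `c₂` are witnesses. -/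
@[reducible] def Ty.entry (β₁ β₂ : Ty) : Ty :=
  .prod (.prod .bool .word) (.prod .bool (.prod .bool (.prod β₁ β₂)))

/-- Facts to be checked. -/
@[reducible] def Ty.fact (μ β₁ β₂ : Ty) : Ty :=
  .prod (.prod .bool .bool) (.prod (.prod μ β₁) (.prod (.prod .word .word) β₂))

/-- the history entry of a transcript entry -/
def histE (e : (Ty.entry β₁ β₂).El) : Bool × List Bool := (e.1.1, norm e.1.2)

section

variable (S : List Bool × Ty.history.El → (Ty.move μ).El) (cost : List Bool → List Bool)

/-- the entry has the right form -/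
def entryOk (m : (Ty.move μ).El) (e : (Ty.entry β₁ β₂).El) : Bool :=
  m.1.1 && ((e.2.1 == m.1.2) && (bif m.1.2 then (!e.1.1 && (bif e.2.2.1 then
    decide (val (cost (norm m.2.2)) < val (cost (norm e.1.2))) else (norm e.1.2).isEmpty))
    else (norm e.1.2).isEmpty))

/-- the fact that makes the entry correct -/
def entryFact (X : List Bool) (m : (Ty.move μ).El) (e : (Ty.entry β₁ β₂).El) :
    (Ty.fact μ β₁ β₂).El :=
  ((!m.1.2, bif m.1.2 then e.2.2.1 else e.1.1), ((m.2.1, e.2.2.2.1),
    ((X, bif e.2.2.1 then norm e.1.2 else norm m.2.2), e.2.2.2.2)))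

/-- what has to be checked for an entry -/
def check (t : (Ty.entry β₁ β₂).El × List (Ty.entry β₁ β₂).El × List Bool) :
    Bool × (Ty.fact μ β₁ β₂).El :=
  (entryOk cost (S (t.2.2, t.2.1.map histE)) t.1,
    entryFact t.2.2 (S (t.2.2, t.2.1.map histE)) t.1)

/-- truth of facts -/
def Fact (O : Set μ.El) (R₁ : μ.El × β₁.El → Prop) (LC : List Bool × List Bool → Prop)
    (R₂ : (List Bool × List Bool) × β₂.El → Prop) (u : (Ty.fact μ β₁ β₂).El) : Prop :=
  bif u.1.1 then (bif u.1.2 then R₁ u.2.1 else u.2.1.1 ∉ O)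
  else (bif u.1.2 then LC u.2.2.1 else R₂ u.2.2)

/-- the transcript is correct -/
def Legit (O : Set μ.El) (R₁ : μ.El × β₁.El → Prop) (LC : List Bool × List Bool → Prop)
    (R₂ : (List Bool × List Bool) × β₂.El → Prop) (X : List Bool)
    (es : List (Ty.entry β₁ β₂).El) : Prop :=
  ∀ t ∈ scan (check S cost) X es, t.1 = true ∧ Fact O R₁ LC R₂ t.2

end

section pf

variable {S : List Bool × Ty.history.El → (Ty.move μ).El} {cost : List Bool → List Bool}

theorem pf_histE {l : a.El → List (Ty.entry β₁ β₂).El}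
    (hl : PF A a (.list (.entry β₁ β₂)) l) :
    PF A a .history (fun v => (l v).map histE) :=
  PF.map (b := .entry β₁ β₂) (c := .prod .bool .word) (φ := fun v => histE v.1) hl
    ((PF.fst (.entry β₁ β₂) a).fst'.fst'.pair (PF.fst (.entry β₁ β₂) a).fst'.snd'.norm)

theorem pf_entryOk {m : a.El → (Ty.move μ).El} {e : a.El → (Ty.entry β₁ β₂).El}
    (hc : ∀ {f : a.El → List Bool}, PF A a .word f → PF A a .word (fun v => cost (f v)))
    (hm : PF A a (.move μ) m) (he : PF A a (.entry β₁ β₂) e) :
    PF A a .bool (fun v => entryOk cost (m v) (e v)) :=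
  hm.fst'.fst'.and' ((he.snd'.fst'.beq hm.fst'.snd').and' (hm.fst'.snd'.cond'
    (he.fst'.fst'.not'.and' (he.snd'.snd'.fst'.cond'
      ((hc hm.snd'.snd'.norm).valLT (hc he.fst'.snd'.norm)) he.fst'.snd'.norm.isEmpty))
    he.fst'.snd'.norm.isEmpty))

theorem pf_entryFact {X : a.El → List Bool} {m : a.El → (Ty.move μ).El}
    {e : a.El → (Ty.entry β₁ β₂).El} (hX : PF A a .word X)
    (hm : PF A a (.move μ) m) (he : PF A a (.entry β₁ β₂) e) :
    PF A a (.fact μ β₁ β₂) (fun v => entryFact (X v) (m v) (e v)) :=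
  (hm.fst'.snd'.not'.pair (hm.fst'.snd'.cond' he.snd'.snd'.fst' he.fst'.fst')).pair
    ((hm.snd'.fst'.pair he.snd'.snd'.snd'.fst').pair
      ((hX.pair (he.snd'.snd'.fst'.cond' he.fst'.snd'.norm hm.snd'.snd'.norm)).pair
        he.snd'.snd'.snd'.snd'))

theorem pf_check (hS : PF A (.prod .word .history) (.move μ) S)
    (hc : ∀ {a : Ty} {f : a.El → List Bool}, PF A a .word f → PF A a .word (fun v => cost (f v))) :
    PF A (.prod (.entry β₁ β₂) (.prod (.list (.entry β₁ β₂)) .word))
      (.prod .bool (.fact μ β₁ β₂)) (check S cost) := by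
  have hX : PF A (.prod (.entry β₁ β₂) (.prod (.list (.entry β₁ β₂)) .word)) .word
      (fun v => v.2.2) := (PF.snd _ _).snd'
  have he : PF A (.prod (.entry β₁ β₂) (.prod (.list (.entry β₁ β₂)) .word)) (.entry β₁ β₂)
      (fun v => v.1) := PF.fst _ _
  have hm : PF A (.prod (.entry β₁ β₂) (.prod (.list (.entry β₁ β₂)) .word)) (.move μ)
      (fun v => S (v.2.2, v.2.1.map histE)) :=
    hS.comp (hX.pair (pf_histE (PF.snd _ _).fst'))
  exact (pf_entryOk (fun hf => hc hf) hm he).pair (pf_entryFact hX hm he)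

theorem inPi_Fact {i : ℕ} {O : Set μ.El} {R₁ : μ.El × β₁.El → Prop}
    {LC : List Bool × List Bool → Prop} {R₂ : (List Bool × List Bool) × β₂.El → Prop}
    (hO : InSigma A i μ (fun q => q ∈ O)) (hR₁ : InPi A i (.prod μ β₁) R₁)
    (hLC : InPi A i (.prod .word .word) LC) (hR₂ : InPi A i (.prod (.prod .word .word) β₂) R₂) :
    InPi A i (.fact μ β₁ β₂) (Fact O R₁ LC R₂) := by
  have hO' : InPi A i μ (fun q => q ∉ O) := hO.congr fun v => by simp
  have h1 : InPi A i (.fact μ β₁ β₂) (fun u => R₁ u.2.1) := hR₁.comp (PF.snd _ _).fst'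
  have h2 : InPi A i (.fact μ β₁ β₂) (fun u => u.2.1.1 ∉ O) := hO'.comp (PF.snd _ _).fst'.fst'
  have h3 : InPi A i (.fact μ β₁ β₂) (fun u => LC u.2.2.1) := hLC.comp (PF.snd _ _).snd'.fst'
  have h4 : InPi A i (.fact μ β₁ β₂) (fun u => R₂ u.2.2) := hR₂.comp (PF.snd _ _).snd'
  exact (h1.ite h2 (PF.fst _ _).snd').ite (h3.ite h4 (PF.fst _ _).snd') (PF.fst _ _).fst'

theorem inPi_Legit {i : ℕ} {O : Set μ.El} {R₁ : μ.El × β₁.El → Prop}
    {LC : List Bool × List Bool → Prop} {R₂ : (List Bool × List Bool) × β₂.El → Prop}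
    (hO : InSigma A i μ (fun q => q ∈ O)) (hR₁ : InPi A i (.prod μ β₁) R₁)
    (hLC : InPi A i (.prod .word .word) LC) (hR₂ : InPi A i (.prod (.prod .word .word) β₂) R₂)
    (hS : PF A (.prod .word .history) (.move μ) S)
    (hc : ∀ {a : Ty} {f : a.El → List Bool}, PF A a .word f → PF A a .word (fun v => cost (f v)))
    {X : a.El → List Bool} {es : a.El → List (Ty.entry β₁ β₂).El} (hX : PF A a .word X)
    (hes : PF A a (.list (.entry β₁ β₂)) es) :
    InPi A i a (fun v => Legit S cost O R₁ LC R₂ (X v) (es v)) := by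
  have h1 : InPi A i (.prod .bool (.fact μ β₁ β₂)) (fun t => t.1 = true ∧ Fact O R₁ LC R₂ t.2) :=
    ((inPi_Fact hO hR₁ hLC hR₂).comp (PF.snd .bool (.fact μ β₁ β₂))).and (PF.fst _ _)
  exact InPi.allMem h1 (PF.scan (pf_check hS hc) hes hX)

end pf

/-- Everything about the given counterexample computation. -/
structure Setup (μ β₁ β₂ : Ty) where
  /-- feasibility -/
  C : ℕ → ℕ → Prop
  /-- cost -/
  ρ : ℕ → ℕ
  /-- next move -/
  S : List Bool × Ty.history.El → (Ty.move μ).El
  /-- bound for the number of questions -/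
  p : Polynomial ℕ
  /-- oracle -/
  O : Set μ.El
  /-- witnesses for the oracle -/
  R₁ : μ.El × β₁.El → Prop
  /-- bound for them -/
  p₁ : Polynomial ℕ
  /-- cost of words -/
  cost : List Bool → List Bool
  /-- feasibility of words -/
  LC : List Bool × List Bool → Prop
  /-- witnesses for infeasibility -/
  R₂ : (List Bool × List Bool) × β₂.El → Prop
  /-- bound for them -/
  p₂ : Polynomial ℕ
  le : ∀ x y, C x y → y ≤ x
  hC : ∀ x y, C x y ↔ LC (Nat.bits x, Nat.bits y)
  hρ : ∀ y, val (cost (Nat.bits y)) = ρ y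
  hO : ∀ q, q ∈ O ↔ ∃ u, R₁ (q, u)
  hR₁ : ∀ q u, R₁ (q, u) → β₁.size u ≤ p₁.eval (μ.size q)
  hLC : ∀ Z, ¬ LC Z ↔ ∃ u, R₂ (Z, u)
  hR₂ : ∀ Z u, R₂ (Z, u) → β₂.size u ≤ p₂.eval (Ty.size (.prod .word .word) Z)
  ens : ∀ x, Ensures O (Answers C ρ x) (Optimal C ρ x) (fun h => S (Nat.bits x, h))
      (p.eval (Nat.bits x).length) []
  /-- bound for the size of the moves -/
  pS : Polynomial ℕ
  hS : ∀ v, (Ty.move μ).size (S v) ≤ pS.eval (Ty.size (.prod .word .history) v)

namespace Setup

variable (D : Setup μ β₁ β₂)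

/-- correct transcripts on input `x` -/
def Leg (x : ℕ) (es : List (Ty.entry β₁ β₂).El) : Prop :=
  Legit D.S D.cost D.O D.R₁ D.LC D.R₂ (Nat.bits x) es

/-- the next move -/
def move (x : ℕ) (es : List (Ty.entry β₁ β₂).El) : (Ty.move μ).El :=
  D.S (Nat.bits x, es.map histE)

variable {D}

theorem leg_cons {x : ℕ} {e : (Ty.entry β₁ β₂).El} {es : List (Ty.entry β₁ β₂).El} :
    D.Leg x (e :: es) ↔ (entryOk D.cost (D.move x es) e = true ∧
      Fact D.O D.R₁ D.LC D.R₂ (entryFact (Nat.bits x) (D.move x es) e)) ∧ D.Leg x es := by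
  simp only [Leg, Legit, scan, List.forall_mem_cons]
  rfl

theorem leg_nil {x : ℕ} : D.Leg x [] := fun t ht => by cases ht

theorem entry_cases {x : ℕ} {e : (Ty.entry β₁ β₂).El} {m : (Ty.move μ).El}
    (h1 : entryOk D.cost m e = true)
    (h2 : Fact D.O D.R₁ D.LC D.R₂ (entryFact (Nat.bits x) m e)) :
    m.1.1 = true ∧ e.2.1 = m.1.2 ∧
    ((m.1.2 = false ∧ norm e.1.2 = [] ∧ (e.1.1 = true ↔ m.2.1 ∈ D.O)) ∨
     (m.1.2 = true ∧ e.1.1 = false ∧
      Answers D.C D.ρ x (val m.2.2) (some (val e.1.2)) ∧ (norm e.1.2).length ≤ (Nat.bits x).length)) := by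
  obtain ⟨⟨m1, m2⟩, q, w⟩ := m
  obtain ⟨⟨b, z⟩, g, f, c₁, c₂⟩ := e
  simp only [entryOk, Bool.and_eq_true, beq_iff_eq] at h1
  obtain ⟨h3, h4, h5⟩ := h1
  refine ⟨h3, h4, ?_⟩
  cases m2
  · left
    simp only [cond_false, List.isEmpty_iff] at h5
    refine ⟨rfl, h5, ?_⟩
    simp only [entryFact, Fact, Bool.not_false, cond_true, cond_false] at h2
    cases b
    · simp only [cond_false] at h2
      simp [h2]
    · simp only [cond_true] at h2
      have := (D.hO q).2 ⟨_, h2⟩
      simp [this]
  · right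
    simp only [cond_true, Bool.and_eq_true, Bool.not_eq_true'] at h5
    obtain ⟨h5, h6⟩ := h5
    refine ⟨rfl, h5, ?_⟩
    simp only [entryFact, Fact, Bool.not_true, cond_false, cond_true] at h2
    cases f
    · simp only [cond_false, List.isEmpty_iff] at h6 h2
      have hz : val z = 0 := by
        rw [← val_norm, h6]; rfl
      simp only [h6, List.length_nil, Nat.zero_le, and_true]
      refine ⟨by rw [hz]; exact Nat.zero_le _, fun hB => ?_⟩
      have h7 := (D.hLC _).2 ⟨_, h2⟩
      rw [norm_eq, ← D.hC] at h7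
      exact h7 hB.1
    · simp only [cond_true, decide_eq_true_eq] at h6 h2
      rw [norm_eq, norm_eq, D.hρ, D.hρ] at h6
      rw [norm_eq, ← D.hC] at h2
      have h7 := D.le _ _ h2
      refine ⟨⟨h7, fun hB => hB.2 h6 h2⟩, ?_⟩
      rw [norm_eq]
      exact length_bits_le h7

theorem short {x : ℕ} : ∀ {es : List (Ty.entry β₁ β₂).El}, D.Leg x es →
    Ty.size .history (es.map histE) ≤ es.length * (2 * (Nat.bits x).length + 2)
  | [], _ => Nat.zero_le _
  | e :: es, h => by
    rw [leg_cons] at h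
    obtain ⟨⟨h1, h2⟩, h3⟩ := h
    have ih := short h3
    have h4 := (entry_cases h1 h2).2.2
    have h5 : (norm e.1.2).length ≤ (Nat.bits x).length := by
      rcases h4 with h4 | h4
      · rw [h4.2.1]; simp
      · exact h4.2.2.2
    rw [List.map_cons, List.length_cons, size_cons (a := .prod .bool .word)]
    simp only [histE, size_prod, size_bool, size_word]
    rw [Nat.add_mul]
    have ih' : Ty.size (.list (.prod .bool .word)) (es.map histE) ≤
      es.length * (2 * (Nat.bits x).length + 2) := ih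
    omega

open Classical in
/-- along a correct transcript the computation goes on -/
theorem follow {x n : ℕ}
    (h0 : Ensures D.O (Answers D.C D.ρ x) (Optimal D.C D.ρ x)
      (fun h => D.S (Nat.bits x, h)) n []) :
    ∀ {es : List (Ty.entry β₁ β₂).El}, D.Leg x es →
      ∃ n', n = n' + es.length ∧ Ensures D.O (Answers D.C D.ρ x) (Optimal D.C D.ρ x)
        (fun h => D.S (Nat.bits x, h)) n' (es.map histE)
  | [], _ => ⟨n, rfl, h0⟩
  | e :: es, h => by
    rw [leg_cons] at h
    obtain ⟨⟨h1, h2⟩, h3⟩ := h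
    obtain ⟨n', hn, h4⟩ := follow h0 h3
    obtain ⟨h5, h6, h7⟩ := entry_cases h1 h2
    cases n' with
    | zero => exact h4.elim
    | succ n' =>
      refine ⟨n', by rw [hn, List.length_cons]; ring, ?_⟩
      rw [Ensures] at h4
      have hm : D.S (Nat.bits x, es.map histE) = D.move x es := rfl
      rw [hm] at h4
      clear h1 h2 h6 hm
      revert h4 h5 h7
      generalize D.move x es = m
      obtain ⟨⟨m1, m2⟩, q, w⟩ := m
      intro h5 h7 h4
      simp only at h5 h7
      subst h5
      rcases h7 with ⟨h7, h8, h9⟩ | ⟨h7, h8, h9, -⟩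
      · subst h7
        simp only at h4
        have : histE e = (decide (q ∈ D.O), []) := by
          rw [histE, h8]
          congr 1
          rw [Bool.eq_iff_iff, h9, decide_eq_true_iff]
        rw [List.map_cons, this]
        exact h4
      · subst h7
        simp only at h4
        have : histE e = (false, Nat.bits (val e.1.2)) := by
          rw [histE, h8, norm_eq]
        rw [List.map_cons, this]
        exact h4.2 _ h9

/-- bound for the size of a move -/
noncomputable def mb (D : Setup μ β₁ β₂) (x : ℕ) : ℕ :=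
  D.pS.eval (2 * (Nat.bits x).length +
    D.p.eval (Nat.bits x).length * (2 * (Nat.bits x).length + 2))

/-- bound for the size of an entry -/
noncomputable def eb (D : Setup μ β₁ β₂) (x : ℕ) : ℕ :=
  3 + 2 * (Nat.bits x).length + (D.p₁.eval (D.mb x) + β₁.size β₁.default) +
    (D.p₂.eval (2 * (Nat.bits x).length + 2 * D.mb x) + β₂.size β₂.default)

theorem length_lt {x : ℕ} {es : List (Ty.entry β₁ β₂).El} (h : D.Leg x es) :
    es.length < D.p.eval (Nat.bits x).length := by
  obtain ⟨n', h1, h2⟩ := follow (D.ens x) h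
  cases n' with
  | zero => exact h2.elim
  | succ n' => omega

theorem size_move {x : ℕ} {es : List (Ty.entry β₁ β₂).El} (h : D.Leg x es) :
    (Ty.move μ).size (D.move x es) ≤ D.mb x := by
  refine (D.hS _).trans (eval_mono _ ?_)
  rw [size_prod, size_word]
  refine Nat.add_le_add le_rfl ((short h).trans (Nat.mul_le_mul_right _ (length_lt h).le))

/-- a query can always be answered -/
theorem extend_query {x : ℕ} {es : List (Ty.entry β₁ β₂).El} (h : D.Leg x es)
    (h1 : (D.move x es).1.1 = true) (h2 : (D.move x es).1.2 = false) :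
    ∃ e, D.Leg x (e :: es) ∧ (Ty.entry β₁ β₂).size e ≤ D.eb x ∧ e.2.1 = false := by
  have hm := size_move h
  suffices hs : ∃ e, (entryOk D.cost (D.move x es) e = true ∧
      Fact D.O D.R₁ D.LC D.R₂ (entryFact (Nat.bits x) (D.move x es) e)) ∧
      (Ty.entry β₁ β₂).size e ≤ D.eb x ∧ e.2.1 = false by
    obtain ⟨e, he, he'⟩ := hs
    exact ⟨e, leg_cons.2 ⟨he, h⟩, he'⟩
  revert h1 h2 hm
  generalize D.move x es = m
  obtain ⟨⟨m1, m2⟩, q, w⟩ := m
  intro h1 h2 hm
  simp only at h1 h2
  subst h1; subst h2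
  simp only [size_prod, size_bool] at hm
  by_cases hq : q ∈ D.O
  · obtain ⟨u, hu⟩ := (D.hO q).1 hq
    refine ⟨((true, []), (false, (false, (u, β₂.default)))), ⟨rfl, ?_⟩, ?_, rfl⟩
    · simpa [entryFact, Fact] using hu
    · have h3 := D.hR₁ _ _ hu
      have h4 : D.p₁.eval (μ.size q) ≤ D.p₁.eval (D.mb x) := eval_mono _ (by omega)
      simp only [size_prod, size_bool, eb, size_word, List.length_nil]
      omega
  · refine ⟨((false, []), (false, (false, (β₁.default, β₂.default)))), ⟨rfl, ?_⟩, ?_, rfl⟩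
    · simpa [entryFact, Fact] using hq
    · simp only [size_prod, size_bool, eb, size_word, List.length_nil]
      omega

/-- if the presented number is not optimal, there is a counterexample -/
theorem extend_present {x : ℕ} {es : List (Ty.entry β₁ β₂).El} (h : D.Leg x es)
    (h1 : (D.move x es).1.1 = true) (h2 : (D.move x es).1.2 = true)
    (h3 : ¬ Optimal D.C D.ρ x (val (D.move x es).2.2)) :
    ∃ e, D.Leg x (e :: es) ∧ (Ty.entry β₁ β₂).size e ≤ D.eb x ∧ e.2.1 = true := by
  have hm := size_move h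
  suffices hs : ∃ e, (entryOk D.cost (D.move x es) e = true ∧
      Fact D.O D.R₁ D.LC D.R₂ (entryFact (Nat.bits x) (D.move x es) e)) ∧
      (Ty.entry β₁ β₂).size e ≤ D.eb x ∧ e.2.1 = true by
    obtain ⟨e, he, he'⟩ := hs
    exact ⟨e, leg_cons.2 ⟨he, h⟩, he'⟩
  revert h1 h2 h3 hm
  generalize D.move x es = m
  obtain ⟨⟨m1, m2⟩, q, w⟩ := m
  intro h1 h2 h3 hm
  simp only at h1 h2 h3
  subst h1; subst h2
  simp only [size_prod, size_bool, size_word] at hm
  by_cases hy : D.C x (val w)
  · have h4 : ∃ z, D.C x z ∧ D.ρ (val w) < D.ρ z := by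
      by_contra hc
      push Not at hc
      exact h3 ⟨hy, hc⟩
    obtain ⟨z, hz, hlt⟩ := h4
    refine ⟨((false, Nat.bits z), (true, (true, (β₁.default, β₂.default)))), ⟨?_, ?_⟩,
      ?_, rfl⟩
    · simp only [entryOk, Bool.and_eq_true, beq_iff_eq, cond_true, Bool.not_false,
        decide_eq_true_eq, true_and]
      rw [norm_bits, norm_eq, D.hρ, D.hρ]
      exact hlt
    · simp only [entryFact, Fact, Bool.not_true, cond_false, cond_true]
      rw [norm_bits, ← D.hC]
      exact hz
    · have h5 := length_bits_le (D.le _ _ hz)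
      simp only [size_prod, size_bool, eb, size_word]
      omega
  · rw [D.hC, D.hLC] at hy
    obtain ⟨u, hu⟩ := hy
    refine ⟨((false, []), (true, (false, (β₁.default, u)))), ⟨rfl, ?_⟩, ?_, rfl⟩
    · simp only [entryFact, Fact, Bool.not_true, cond_false]
      rw [norm_eq]
      exact hu
    · have h4 := D.hR₂ _ _ hu
      have h5 : (Nat.bits (val w)).length ≤ w.length := by
        rw [Nat.size_eq_bits_len]
        rw [Nat.size_le]
        clear * -
        induction w with
        | nil => simp [val]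
        | cons b l ih =>
          rw [val, Nat.bit_val, List.length_cons, pow_succ]
          cases b <;> simp <;> omega
      have h6 : D.p₂.eval (Ty.size (.prod .word .word) (Nat.bits x, Nat.bits (val w))) ≤
          D.p₂.eval (2 * (Nat.bits x).length + 2 * D.mb x) := by
        refine eval_mono _ ?_
        rw [size_prod, size_word, size_word]
        simp only
        omega
      simp only [size_prod, size_bool, eb, size_word, List.length_nil]
      omega

end Setup

end Pool.Agent.Lib.MP_2b5695_lc.Alg
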