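import Pool.Agent.Lib.MP_2b5695_lc.Alg.Hier

/-!
Words and binary numbers.
-/

namespace Pool.Agent.Lib.MP_2b5695_lc.Alg

variable {ι : Ty} {A : Set ι.El} {a b c d : Ty}

theorem val_bits (n : ℕ) : val (Nat.bits n) = n := by
  induction n using Nat.binaryRec' with
  | zero => simp [val]
  | bit b n h ih =>
    rw [Nat.bits_append_bit n b h]
    simp [val, ih]

/-- the binary word of the value of a word -/
def norm : List Bool → List Bool
  | [] => []
  | b :: l => bif b then b :: norm l else (bif (norm l).isEmpty then [] else b :: norm l)

theorem norm_eq : ∀ w : List Bool, norm w = Nat.bits (val w)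
  | [] => by simp [norm, val]
  | b :: l => by
    rw [norm, val, norm_eq l]
    cases b
    · by_cases h : val l = 0
      · simp [h]
      · rw [Nat.bits_append_bit (val l) false (fun h' => absurd h' h)]
        have : (Nat.bits (val l)).isEmpty = false := by
          rw [Bool.eq_false_iff]
          intro hh
          rw [List.isEmpty_iff] at hh
          apply h
          rw [← val_bits (val l), hh]; rfl
        simp [this]
    · rw [Nat.bits_append_bit (val l) true (fun _ => rfl)]
      rfl

@[simp] theorem val_norm (w : List Bool) : val (norm w) = val w := by rw [norm_eq, val_bits]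

theorem norm_bits (n : ℕ) : norm (Nat.bits n) = Nat.bits n := by rw [norm_eq, val_bits]

theorem bits_eq_nil {n : ℕ} : Nat.bits n = [] ↔ n = 0 := by
  constructor
  · intro h
    rw [← val_bits n, h]; rfl
  · rintro rfl; simp

theorem val_append_true_pos : ∀ w : List Bool, 0 < val (w ++ [true])
  | [] => by simp [val]
  | b :: l => by
    have := val_append_true_pos l
    rw [List.cons_append, val, Nat.bit_val]
    omega

theorem bits_append_true : ∀ w : List Bool, Nat.bits (val (w ++ [true])) = w ++ [true]
  | [] => by simp [val]
  | b :: l => by
    rw [List.cons_append, val, Nat.bits_append_bit _ _ (fun h => absurd h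
      (val_append_true_pos l).ne'), bits_append_true l]

theorem le_of_length_lt {x y : ℕ} (h : (Nat.bits y).length < (Nat.bits x).length) : y ≤ x := by
  rw [Nat.size_eq_bits_len, Nat.size_eq_bits_len] at h
  by_contra hlt
  push Not at hlt
  have h1 : Nat.size x ≤ Nat.size y := Nat.size_le_size hlt.le
  omega

theorem length_bits_le {x y : ℕ} (h : y ≤ x) : (Nat.bits y).length ≤ (Nat.bits x).length := by
  rw [Nat.size_eq_bits_len, Nat.size_eq_bits_len]
  exact Nat.size_le_size h

theorem PF.norm {f : a.El → List Bool} (hf : PF A a .word f) :
    PF A a .word (fun v => norm (f v)) := by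
  have hh : PF A (.prod .bool (.prod .word (.prod a .word))) .word
      (fun v => bif v.1 then v.1 :: v.2.2.2 else
        (bif v.2.2.2.isEmpty then [] else v.1 :: v.2.2.2)) :=
    (PF.fst _ _).cond' ((PF.fst _ _).cons' (PF.snd _ _).snd'.snd')
      ((PF.snd _ _).snd'.snd'.isEmpty.cond' (PF.nil _ _)
        ((PF.fst _ _).cons' (PF.snd _ _).snd'.snd'))
  refine PF.rec' (f := fun v => Alg.norm v.1) hf (PF.nil _ _) hh (fun s => rfl)
    (fun e l s => rfl) 2 fun e l s r => ?_
  simp only [size_word, Polynomial.eval_ofNat]
  cases e
  · cases r
    · simp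
    · simp; omega
  · simp; omega

theorem PF.dropLast {f : a.El → List b.El} (hf : PF A a (.list b) f) :
    PF A a (.list b) (fun v => (f v).dropLast) := by
  have hh : PF A (.prod b (.prod (.list b) (.prod a (.list b)))) (.list b)
      (fun v => bif v.2.1.isEmpty then [] else v.1 :: v.2.2.2) :=
    (PF.snd _ _).fst'.isEmpty.cond' (PF.nil _ _) ((PF.fst _ _).cons' (PF.snd _ _).snd'.snd')
  refine PF.rec' (f := fun v => v.1.dropLast) hf (PF.nil _ _) hh (fun s => rfl)
    (fun e l s => ?_) (Polynomial.X + 1) fun e l s r => ?_
  · cases l <;> rfl
  · cases l with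
    | nil => simp
    | cons x t => simp only [List.isEmpty_cons, cond_false, size_cons, Polynomial.eval_add,
        Polynomial.eval_X, Polynomial.eval_one]; omega

/-- subtract one, in binary -/
def decr : List Bool → List Bool
  | [] => []
  | b :: l => bif b then false :: l else (bif l.any (fun x => x) then true :: decr l else false :: l)

theorem val_eq_zero : ∀ w : List Bool, val w = 0 ↔ w.any (fun x => x) = false
  | [] => by simp [val]
  | b :: l => by
    rw [val, Nat.bit_val, List.any_cons, Bool.or_eq_false_iff, ← val_eq_zero l]
    cases b <;> simp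

theorem length_decr : ∀ w : List Bool, (decr w).length = w.length
  | [] => rfl
  | b :: l => by
    rw [decr]
    cases b
    · cases h : l.any (fun x => x)
      · simp
      · simp [length_decr l]
    · simp

theorem val_decr : ∀ w : List Bool, val (decr w) = val w - 1
  | [] => rfl
  | b :: l => by
    rw [decr]
    cases b
    · cases h : l.any (fun x => x)
      · have := (val_eq_zero l).2 h
        simp [val, this]
      · have hne : val l ≠ 0 := fun h0 => by
          rw [(val_eq_zero l).1 h0] at h; cases h
        simp only [cond_false, cond_true, val, val_decr l, Nat.bit_val, Bool.toNat_true,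
          Bool.toNat_false]
        omega
    · simp [val, Nat.bit_val]

theorem PF.decr {f : a.El → List Bool} (hf : PF A a .word f) :
    PF A a .word (fun v => decr (f v)) := by
  have hany : PF A (.prod .bool (.prod .word (.prod a .word))) .bool
      (fun v => v.2.1.any (fun x => x)) :=
    PF.any (b := .bool) (φ := fun v => v.1) (PF.snd .bool (.prod .word (.prod a .word))).fst'
      (PF.fst _ _)
  have hh : PF A (.prod .bool (.prod .word (.prod a .word))) .word
      (fun v => bif v.1 then false :: v.2.1 else
        (bif v.2.1.any (fun x => x) then true :: v.2.2.2 else false :: v.2.1)) :=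
    (PF.fst _ _).cond' ((PF.ff _).cons' (PF.snd _ _).fst')
      (hany.cond' ((PF.tt _).cons' (PF.snd _ _).snd'.snd') ((PF.ff _).cons' (PF.snd _ _).fst'))
  refine PF.rec' (f := fun v => Alg.decr v.1) hf (PF.nil _ _) hh (fun s => rfl)
    (fun e l s => rfl) (Polynomial.X + 2) fun e l s r => ?_
  simp only [size_word, Polynomial.eval_add, Polynomial.eval_X, Polynomial.eval_ofNat, size_bool]
  cases e
  · cases h : l.any (fun x => x)
    · simp; omega
    · simp; omega
  · simp; omega

/-- `val w ≤ n` -/
def leCount (w : List Bool) (n : ℕ) : Bool := !((decr^[n] w).any fun x => x)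

theorem val_decr_iter (w : List Bool) : ∀ n : ℕ, val (decr^[n] w) = val w - n
  | 0 => rfl
  | n + 1 => by rw [Function.iterate_succ_apply', val_decr, val_decr_iter w n]; omega

theorem leCount_iff (w : List Bool) (n : ℕ) : leCount w n = true ↔ val w ≤ n := by
  rw [leCount, Bool.not_eq_true', ← val_eq_zero, val_decr_iter]
  omega

theorem PF.leCount {f : a.El → List Bool} {g : a.El → List b.El} (hf : PF A a .word f)
    (hg : PF A a (.list b) g) : PF A a .bool (fun v => leCount (f v) (g v).length) := by
  have hh : PF A (.prod b (.prod (.list b) (.prod a .word))) .word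
      (fun v => Alg.decr v.2.2.2) := (PF.snd _ _).snd'.snd'.decr
  have h1 : PF A a .word (fun v => Alg.decr^[(g v).length] (f v)) := by
    refine PF.rec' (f := fun v => Alg.decr^[v.1.length] (f v.2)) hg hf hh (fun s => rfl)
      (fun e l s => ?_) 0 fun e l s r => ?_
    · simp only [List.length_cons, Function.iterate_succ_apply']
    · simp only [size_word, length_decr]; omega
  exact (PF.any (φ := fun v => v.1) h1 (PF.fst _ _)).not'

/-- add one, in binary -/
def incr : List Bool → List Bool
  | [] => [true]
  | b :: l => bif b then false :: incr l else true :: l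

theorem incr_bits (n : ℕ) : incr (Nat.bits n) = Nat.bits (n + 1) := by
  induction n using Nat.binaryRec' with
  | zero => simp [incr]
  | bit b n h ih =>
    rw [Nat.bits_append_bit n b h]
    cases b
    · rw [incr]
      have : Nat.bit false n + 1 = Nat.bit true n := by simp [Nat.bit_val]
      rw [this, Nat.bits_append_bit n true (fun _ => rfl)]
      rfl
    · rw [incr, ih]
      have : Nat.bit true n + 1 = Nat.bit false (n + 1) := by simp [Nat.bit_val]; ring
      rw [this, Nat.bits_append_bit (n + 1) false (fun h' => absurd h' (Nat.succ_ne_zero n))]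
      rfl

theorem length_incr : ∀ w : List Bool, (incr w).length ≤ w.length + 1
  | [] => by simp [incr]
  | b :: l => by
    rw [incr]
    cases b
    · simp
    · have := length_incr l
      simpa using this

theorem PF.incr {f : a.El → List Bool} (hf : PF A a .word f) :
    PF A a .word (fun v => incr (f v)) := by
  have hh : PF A (.prod .bool (.prod .word (.prod a .word))) .word
      (fun v => bif v.1 then false :: v.2.2.2 else true :: v.2.1) :=
    (PF.fst _ _).cond' ((PF.ff _).cons' (PF.snd _ _).snd'.snd') ((PF.tt _).cons' (PF.snd _ _).fst')
  refine PF.rec' (f := fun v => Alg.incr v.1) hf (PF.const .word [true]) hh (fun s => rfl)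
    (fun e l s => rfl) (Polynomial.X + 2) fun e l s r => ?_
  simp only [size_word, Polynomial.eval_add, Polynomial.eval_X, Polynomial.eval_ofNat, size_bool]
  cases e
  · simp; omega
  · simp; omega

/-- the length of a list in binary -/
theorem PF.binLength {f : a.El → List b.El} (hf : PF A a (.list b) f) :
    PF A a .word (fun v => Nat.bits (f v).length) := by
  have hh : PF A (.prod b (.prod (.list b) (.prod a .word))) .word
      (fun v => Alg.incr v.2.2.2) := (PF.snd _ _).snd'.snd'.incr
  refine PF.rec' (f := fun v => Nat.bits v.1.length) hf (PF.nil _ _) hh (fun s => by simp)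
    (fun e l s => ?_) 2 fun e l s r => ?_
  · simp only [List.length_cons, incr_bits]
  · have := length_incr r
    simp only [size_word, Polynomial.eval_ofNat]; omega

/-- `log₂ n + 1` in unary -/
theorem PF.logList {f : a.El → ℕ} (hf : PF A a .word (fun v => List.replicate (f v) true)) :
    PF A a .word (fun v => List.replicate (Nat.log 2 (f v) + 1) true) := by
  have h1 := PF.binLength hf
  refine (h1.isEmpty.cond' (PF.const .word [true])
    (PF.map (φ := fun _ => true) h1 (PF.tt _))).of_eq fun v => ?_
  simp only [List.length_replicate]
  rcases Nat.eq_zero_or_pos (f v) with h | h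
  · rw [h]; simp
  · have h2 : (Nat.bits (f v)).isEmpty = false := by
      rw [Bool.eq_false_iff]
      intro hh
      rw [List.isEmpty_iff, bits_eq_nil] at hh
      omega
    rw [h2, cond_false, List.map_const', Nat.size_eq_bits_len]
    congr 1
    have h3 : Nat.size (f v) ≤ Nat.log 2 (f v) + 1 :=
      Nat.size_le.2 (Nat.lt_pow_succ_log_self (by norm_num) _)
    have h4 : Nat.log 2 (f v) < Nat.size (f v) :=
      Nat.lt_size.2 (Nat.pow_log_le_self 2 h.ne')
    omega

/-- comparison of the values of two words, reading the least significant bit first; `r` is the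
result for the bits read before -/
def ltAux : List Bool → List Bool → Bool → Bool
  | [], w, r => w.any (fun x => x) || r
  | b :: l, w, r => ltAux l w.tail (bif b == w.headD false then r else w.headD false)

theorem ltAux_iff : ∀ (u w : List Bool) (r : Bool), ltAux u w r = true ↔
    (val u < val w ∨ (val u = val w ∧ r = true))
  | [], w, r => by
    rw [ltAux, Bool.or_eq_true]
    have h := val_eq_zero w
    simp only [val]
    rcases Nat.eq_zero_or_pos (val w) with h0 | h0
    · rw [h.1 h0, h0]; simp
    · have : w.any (fun x => x) = true := by
        by_contra hc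
        rw [Bool.not_eq_true] at hc
        have := h.2 hc
        omega
      simp [this, h0]
  | b :: l, w, r => by
    rw [ltAux, ltAux_iff l]
    have hw : val w = Nat.bit (w.headD false) (val w.tail) := by
      cases w <;> simp [val]
    rw [hw, val, Nat.bit_val, Nat.bit_val]
    generalize w.headD false = x
    generalize val w.tail = m
    generalize val l = n
    cases b <;> cases x <;> cases r <;> simp <;> omega

theorem ltAux_eq_foldl (u : List Bool) : ∀ (w : List Bool) (r : Bool), ltAux u w r =
    (let s := u.foldl (fun (s : List Bool × Bool) b =>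
      (s.1.tail, bif b == s.1.headD false then s.2 else s.1.headD false)) (w, r)
     s.1.any (fun x => x) || s.2) := by
  induction u with
  | nil => intro w r; rfl
  | cons b l ih => intro w r; rw [ltAux, ih]; rfl

theorem PF.reverse {f : a.El → List b.El} (hf : PF A a (.list b) f) :
    PF A a (.list b) (fun v => (f v).reverse) := by
  have hh : PF A (.prod b (.prod (.list b) (.prod a (.list b)))) (.list b)
      (fun v => v.2.2.2 ++ [v.1]) :=
    (PF.snd _ _).snd'.snd'.append ((PF.fst _ _).cons' (PF.nil _ _))
  refine PF.rec' (f := fun v => v.1.reverse) hf (PF.nil _ _) hh (fun s => rfl)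
    (fun e l s => by simp) (Polynomial.X + 1) fun e l s r => ?_
  simp only [size_append, size_cons, size_nil, Polynomial.eval_add,
        Polynomial.eval_X, Polynomial.eval_one]
  omega

theorem PF.beq {f g : a.El → Bool} (hf : PF A a .bool f) (hg : PF A a .bool g) :
    PF A a .bool (fun v => f v == g v) :=
  (hf.cond' hg hg.not').of_eq fun v => by cases f v <;> cases g v <;> rfl

/-- comparison of the values of two words -/
theorem PF.valLT {f g : a.El → List Bool} (hf : PF A a .word f) (hg : PF A a .word g) :
    PF A a .bool (fun v => decide (val (f v) < val (g v))) := by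
  have hs : PF A (.prod .bool (.prod .word (.prod a (.prod .word .bool)))) (.prod .word .bool)
      (fun v => (v.2.2.2.1.tail,
        bif v.1 == v.2.2.2.1.headD false then v.2.2.2.2 else v.2.2.2.1.headD false)) :=
    (PF.snd _ _).snd'.snd'.fst'.tail.pair
      ((((PF.fst _ _).beq ((PF.snd _ _).snd'.snd'.fst'.headD (PF.ff _)))).cond'
        (PF.snd _ _).snd'.snd'.snd' ((PF.snd _ _).snd'.snd'.fst'.headD (PF.ff _)))
  have h1 : PF A a (.prod .word .bool) (fun v => (f v).reverse.foldr (fun b (s : List Bool × Bool) =>
      (s.1.tail, bif b == s.1.headD false then s.2 else s.1.headD false)) (g v, false)) := by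
    refine PF.rec' (f := fun v => v.1.foldr (fun b (s : List Bool × Bool) =>
      (s.1.tail, bif b == s.1.headD false then s.2 else s.1.headD false)) (g v.2, false))
      hf.reverse (hg.pair (PF.ff _)) hs (fun s => rfl) (fun e l s => rfl) 0 fun e l s r => ?_
    simp only [size_prod, size_word, List.length_tail, size_bool]
    omega
  refine ((PF.any (φ := fun v => v.1) h1.fst' (PF.fst _ _)).or' h1.snd').of_eq fun v => ?_
  rw [Bool.eq_iff_iff, decide_eq_true_iff]
  have := ltAux_iff (f v) (g v) false
  rw [ltAux_eq_foldl] at this
  rw [List.foldr_reverse]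
  simpa using this

end Pool.Agent.Lib.MP_2b5695_lc.Alg
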